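import Pool.Agent.MP_e262d6_nt.DW.Spec

/-! Project DW, row CHP: the characteristic polynomial. -/

set_option autoImplicit false

namespace Pool.Agent.MP_e262d6_nt.DW

open Finset Polynomial Pool.Agent.MP_e262d6_nt.H61

theorem chp5 : CHP := by
  intro K L _ _ _ _ _ _ _ _ _ F a
  have h1 : (F.cp a).Monic := by unfold Fv.cp; monicity!
  have h2 : (F.cp a).natDegree = 5 := by unfold Fv.cp; compute_degree!
  have h3 : (F.cp a).map (algebraMap K L) = (X + C a) * (X + C (F.σ a)) *
      (X + C (F.σ (F.σ a))) * (X + C (F.σ (F.σ (F.σ a)))) *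
      (X + C (F.σ (F.σ (F.σ (F.σ a))))) := by
    simp only [Fv.cp, Fv.e2, Fv.e3, Fv.e4, Polynomial.map_add, Polynomial.map_mul,
      Polynomial.map_pow, map_X, map_C, F.tr, F.nm, map_add, map_mul, F.five]
    ring
  refine ⟨h1, h2, h3, fun c => (algebraMap K L).injective ?_, fun ha => ?_⟩
  · rw [← eval_map_apply, h3, F.nm]
    simp only [eval_mul, eval_add, eval_X, eval_C, map_add, F.fixK]
    ring
  · have hi : IsIntegral K a := IsIntegral.of_finite K a
    have h4 : minpoly K a ∣ F.cp a := minpoly.dvd K a (by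
      rw [aeval_def, ← eval_map, h3]
      simp only [eval_mul, eval_add, eval_X, eval_C, CharTwo.add_self_eq_zero, zero_mul])
    have h5 : (minpoly K a).natDegree = 5 := by
      have k := minpoly.degree_dvd hi
      rw [F.rank] at k
      refine ((Nat.dvd_prime (by norm_num)).1 k).resolve_left fun e => ha ?_
      obtain ⟨c, hc⟩ := minpoly.natDegree_eq_one_iff.1 e
      rw [← hc, F.fixK]
    have h6 : Irreducible (F.cp a) := by
      rw [eq_of_monic_of_dvd_of_natDegree_le (minpoly.monic hi) h1 h4 (by rw [h2, h5])]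
      exact minpoly.irreducible hi
    refine ⟨h6, fun k => not_isUnit_X_add_C a ?_⟩
    exact (PerfectField.separable_of_irreducible h6).map.squarefree _ (sq (X + C a) ▸ k)

end Pool.Agent.MP_e262d6_nt.DW
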