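import Pool.Agent.MP_e262d6_nt.DW.Spec

/-! Project DW, row COP: monic quadratics prime to a given polynomial. -/

set_option autoImplicit false
set_option linter.unusedSectionVars false

noncomputable section

namespace Pool.Agent.MP_e262d6_nt.DW

open Finset Polynomial Pool.Agent.MP_e262d6_nt.H61

namespace Cop

variable {K : Type} [Field K]

theorem red (w0 w1 w2 U0 U1 : K) : IsCoprime (q2 w0 w1 w2) (q2 U0 U1 1) ↔
    IsCoprime (C (w0 - w2 * U0) + C (w1 - w2 * U1) * X) (q2 U0 U1 1) := by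
  have e : q2 w0 w1 w2 = C (w0 - w2 * U0) + C (w1 - w2 * U1) * X + C w2 * q2 U0 U1 1 := by
    simp only [q2, map_sub, map_mul, map_one]
    ring
  rw [e, IsCoprime.add_mul_right_left_iff]

theorem nu (U0 U1 : K) : ¬ IsUnit (q2 U0 U1 1) := by
  intro h
  have h1 := natDegree_eq_zero_of_isUnit h
  have h2 : (q2 U0 U1 1).coeff 2 = 1 := by simp [q2]
  rw [coeff_eq_zero_of_natDegree_lt (by omega)] at h2
  exact zero_ne_one h2

theorem lin {d0 d1 : K} (h : d1 ≠ 0) (U0 U1 : K) : IsCoprime (C d0 + C d1 * X) (q2 U0 U1 1) ↔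
    ¬ U0 + U1 * (-d0 / d1) + (-d0 / d1) ^ 2 = 0 := by
  have e : C d0 + C d1 * X = C d1 * (X - C (-d0 / d1)) := by
    rw [mul_sub, ← map_mul, mul_div_cancel₀ _ h, map_neg]
    ring
  rw [e, isCoprime_mul_unit_left_left (isUnit_C.2 (IsUnit.mk0 _ h)),
    (irreducible_X_sub_C _).coprime_iff_not_dvd, dvd_iff_isRoot]
  simp [q2]

variable [Fintype K] [DecidableEq K]

open Classical in
theorem ind {w0 : K} (h0 : w0 ≠ 0) (w1 w2 U0 U1 : K) :
    (if IsCoprime (q2 w0 w1 w2) (q2 U0 U1 1) then (1 : ℝ) else 0) =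
      1 - (∑ t ∈ univ.filter fun t : K => w0 + w1 * t + w2 * t ^ 2 = 0,
        if U0 + U1 * t + t ^ 2 = 0 then (1 : ℝ) else 0) +
      if w2 * U0 = w0 ∧ w2 * U1 = w1 then
        ((univ.filter fun t : K => w0 + w1 * t + w2 * t ^ 2 = 0).card : ℝ) - 1 else 0 := by
  rw [red]
  by_cases h1 : w1 - w2 * U1 = 0
  · by_cases h2 : w0 - w2 * U0 = 0
    · have hw : w2 ≠ 0 := by
        rintro rfl
        exact h0 (by simpa using h2)
      rw [h1, h2, if_pos (show w2 * U0 = w0 ∧ w2 * U1 = w1 from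
        ⟨by linear_combination -h2, by linear_combination -h1⟩), if_neg (by
          simpa [isCoprime_zero_left] using nu U0 U1), card_eq_sum_ones, Nat.cast_sum,
        sum_congr rfl fun t ht => if_pos (mul_left_cancel₀ hw (by
          linear_combination (mem_filter.1 ht).2 - h2 - t * h1))]
      simp
    · have hu : IsUnit (C (w0 - w2 * U0) + C (0 : K) * X) := by
        simpa only [map_zero, zero_mul, add_zero] using isUnit_C.2 (IsUnit.mk0 _ h2)
      rw [h1, if_pos ((isCoprime_self.2 hu).symm.of_isCoprime_of_dvd_right (dvd_refl _) |> fun _ =>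
        (by
          obtain ⟨u, hu⟩ := hu.exists_left_inv
          exact ⟨u, 0, by rw [zero_mul, add_zero, hu]⟩)),
        if_neg (fun h => h2 (by rw [h.1, sub_self])), sum_eq_zero fun t ht => if_neg fun h =>
          h2 (by linear_combination (mem_filter.1 ht).2 - w2 * h - t * h1)]
      simp
  · rw [if_neg (show ¬ (w2 * U0 = w0 ∧ w2 * U1 = w1) from fun h => h1 (by rw [h.2, sub_self])),
      lin h1, sum_filter, sum_eq_single (-(w0 - w2 * U0) / (w1 - w2 * U1))]
    · by_cases h : U0 + U1 * (-(w0 - w2 * U0) / (w1 - w2 * U1)) +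
          (-(w0 - w2 * U0) / (w1 - w2 * U1)) ^ 2 = 0
      · have e := mul_div_cancel₀ (-(w0 - w2 * U0)) h1
        rw [if_neg (not_not.2 h), if_pos h, if_pos (by linear_combination w2 * h + e)]
        simp
      · rw [if_pos h, if_neg h]
        simp
    · intro t _ ht
      split_ifs with a b
      · exact absurd (eq_div_of_mul_eq h1 (by linear_combination a - w2 * b)) ht
      · rfl
      · rfl
    · simp

theorem cnt (t : K) :
    ∑ U0 : K, ∑ U1 : K, (if U0 + U1 * t + t ^ 2 = 0 then (1 : ℝ) else 0) = Fintype.card K := by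
  rw [sum_comm]
  have : ∀ U1 : K, ∑ U0 : K, (if U0 + U1 * t + t ^ 2 = 0 then (1 : ℝ) else 0) = 1 := by
    intro U1
    rw [sum_eq_single (-(U1 * t + t ^ 2)), if_pos (by ring)]
    · intro b _ hb
      exact if_neg fun h => hb (by linear_combination h)
    · simp
  simp [this]

theorem one {w0 : K} (h0 : w0 ≠ 0) (w1 w2 : K) (c : ℝ) :
    ∑ U0 : K, ∑ U1 : K, (if w2 * U0 = w0 ∧ w2 * U1 = w1 then c else 0) =
      if w2 = 0 then 0 else c := by
  by_cases h : w2 = 0
  · simp [h, h0.symm]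
  · have e : ∀ a b : K, w2 * a = b ↔ a = b / w2 := fun a b => by
      rw [eq_div_iff h, mul_comm]
    simp [h, e, ite_and]

end Cop

theorem cop : COP := by
  intro K _ _ _ w0 w1 w2 h0
  simp only [Cop.ind h0, sum_add_distrib, sum_sub_distrib, Cop.one h0]
  congr 2
  · simp [sq]
  · rw [sum_congr rfl fun U0 _ => sum_comm, sum_comm, sum_congr rfl fun t _ => Cop.cnt t]
    simp [mul_comm]

end Pool.Agent.MP_e262d6_nt.DW
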