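import Pool.Agent.MP_e262d6_nt.DW.Spec

/-! Project DW: the sum over the whole space. -/

set_option autoImplicit false
set_option linter.unusedSectionVars false

noncomputable section

namespace Pool.Agent.MP_e262d6_nt.DW

open Finset Polynomial Pool.Agent.MP_e262d6_nt.H61

namespace FullP

variable {K : Type} [Field K] [Fintype K] [DecidableEq K] [CharP K 2] (C : Chr K)

theorem sum_sq (f : K → ℝ) : ∑ x, f (x ^ 2) = ∑ x, f x := sq_bij.sum_comp f

theorem sumU_sq (f : K → ℝ) : ∑ x ∈ U K, f (x ^ 2) = ∑ x ∈ U K, f x := by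
  rw [sum_U, sum_U, sum_sq, zero_pow two_ne_zero]

theorem sum_shift (s : K) (f : K → ℝ) : ∑ x, f (x + s) = ∑ x, f x := Equiv.sum_comp (Equiv.addRight s) f

theorem quad (α β : K) : ∑ z, C.ψ (α * z ^ 2 + β * z) =
    if α + β ^ 2 = 0 then (Fintype.card K : ℝ) else 0 := by
  rw [← C.sum_mul, ← sum_sq fun y => C.ψ (y * (α + β ^ 2))]
  refine sum_congr rfl fun z _ => ?_
  rw [C.add, ← C.sq (β * z), ← C.add]
  congr 1
  ring

theorem hyp (u A B c : K) : ∑ a, ∑ b, C.ψ (u * a * b + a * A + b * B + c) =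
    Fintype.card K * ∑ a, if u * a + B = 0 then C.ψ (a * A + c) else 0 := by
  rw [mul_sum]
  refine sum_congr rfl fun a _ => ?_
  have : ∀ b, C.ψ (u * a * b + a * A + b * B + c) = C.ψ (b * (u * a + B)) * C.ψ (a * A + c) :=
    fun b => by rw [← C.add]; congr 1; ring
  simp only [this, ← sum_mul, C.sum_mul]
  split_ifs <;> simp

theorem fib {κ : K} (hκ : κ ≠ 0) (u v : K) : ∑ z, ∑ a, ∑ b, C.ψ (κ * ph5 a u b v z) =
    (Fintype.card K : ℝ) ^ 2 * if (1 + (u + v)) * (u * v + κ * (1 + (u + v)) *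
      (u * v + (u + v)) ^ 2) = 0 then C.ψ (κ * (u * v + (u + v))) else 0 := by
  have h2 := two_zero (K := K)
  have e : ∀ z a b, κ * ph5 a u b v z = κ * u * a * b + a * (κ * (z * (1 + (u + v)) + u)) +
      b * (κ * (u * v + (u + v) + v * z)) + κ * (v * z) := fun z a b => by unfold ph5; ring
  simp only [e, hyp, ← mul_sum]
  rw [sq, mul_assoc]
  congr 1
  rcases eq_or_ne u 0 with rfl | hu
  · have e1 : ∀ z, (∑ a, if κ * 0 * a + κ * (0 * v + (0 + v) + v * z) = 0 then
        C.ψ (a * (κ * (z * (1 + (0 + v)) + 0)) + κ * (v * z)) else 0) = Fintype.card K *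
          if v * (1 + z) = 0 ∧ z * (1 + v) = 0 then C.ψ (κ * (v * z)) else 0 := fun z => by
      simp only [C.add, mul_zero, zero_mul, zero_add, add_zero, mul_eq_zero (a := κ), hκ, false_or,
        ← mul_one_add, sum_ite_irrel, ← sum_mul, C.sum_mul, sum_const_zero]
      by_cases h : v * (1 + z) = 0 <;> by_cases h' : z * (1 + v) = 0 <;> simp [h, h']
    simp only [e1, ← mul_sum]
    congr 1
    rcases eq_or_ne v 0 with rfl | h0
    · simp
    rcases eq_or_ne v 1 with rfl | h1
    · simp [CharTwo.add_self_eq_zero, CharTwo.add_eq_zero]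
    · have h3 : 1 + v ≠ 0 := fun h => h1 (CharTwo.add_eq_zero.1 h).symm
      rw [if_neg (by simp [h0, h3, hκ])]
      exact sum_eq_zero fun z _ => if_neg fun h => h0 (by
        simpa [(mul_eq_zero.1 h.2).resolve_right h3] using h.1)
  · have e1 : ∀ z, (∑ a, if κ * u * a + κ * (u * v + (u + v) + v * z) = 0 then
        C.ψ (a * (κ * (z * (1 + (u + v)) + u)) + κ * (v * z)) else 0) =
          C.ψ (κ * v * (1 + (u + v)) / u * z ^ 2 + κ * (1 + (u + v)) * (u * v + (u + v)) / u * z) *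
            C.ψ (κ * (u * v + (u + v))) := fun z => by
      rw [sum_eq_single ((u * v + (u + v) + v * z) / u) (fun a _ n => if_neg fun h => n ?_)
        (by simp), if_pos, ← C.add]
      · congr 1
        field_simp
        linear_combination (u * v * z) * h2
      · field_simp
        linear_combination (κ * (u * v + (u + v) + v * z)) * h2
      · rw [mul_assoc, ← mul_add, mul_eq_zero, CharTwo.add_eq_zero] at h
        rw [← h.resolve_left hκ, mul_div_cancel_left₀ _ hu]
    simp only [e1, ← sum_mul, quad]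
    have e2 : κ * v * (1 + (u + v)) / u + (κ * (1 + (u + v)) * (u * v + (u + v)) / u) ^ 2 =
        κ / u ^ 2 * ((1 + (u + v)) * (u * v + κ * (1 + (u + v)) * (u * v + (u + v)) ^ 2)) := by
      field_simp
    simp only [e2, mul_eq_zero (a := κ / u ^ 2), div_ne_zero hκ (pow_ne_zero 2 hu), false_or]
    split_ifs <;> simp

/-- The number of ordered pairs with given sum and product. -/
def NN (s p : K) : ℝ := if s = 0 then 1 else 1 + C.ψ (p / s ^ 2)

theorem cntA (c : K) : (∑ x : K, if x ^ 2 + x + c = 0 then (1 : ℝ) else 0) = 1 + C.ψ c := by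
  have r0 : (Fintype.card K : ℝ) ≠ 0 := Nat.cast_ne_zero.2 Fintype.card_ne_zero
  refine mul_left_cancel₀ r0 ?_
  have e : ∀ y x : K, C.ψ (y * (x ^ 2 + x + c)) = C.ψ (y * x ^ 2 + y * x) * C.ψ (y * c) :=
    fun y x => by rw [← C.add]; congr 1; ring
  have e1 : ∀ y : K, (if y + y ^ 2 = 0 then (Fintype.card K : ℝ) else 0) * C.ψ (y * c) =
      (if y = 0 then (Fintype.card K : ℝ) else 0) +
        if y = 1 then Fintype.card K * C.ψ c else 0 := fun y => by
    rcases eq_or_ne y 0 with rfl | h0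
    · simp
    rcases eq_or_ne y 1 with rfl | h1
    · simp [CharTwo.add_self_eq_zero]
    · rw [if_neg fun h => h1 (mul_left_cancel₀ h0 (by rw [mul_one, ← sq]; exact
        (CharTwo.add_eq_zero.1 h).symm)), if_neg h0, if_neg h1]
      simp
  simp only [mul_sum, mul_ite, mul_one, mul_zero, ← C.sum_mul]
  rw [sum_comm]
  simp only [e, ← sum_mul, quad, e1, sum_add_distrib, sum_ite_eq', mem_univ, if_true]
  ring

theorem cntB (s p : K) : (∑ u : K, if u * (s + u) = p then (1 : ℝ) else 0) = NN C s p := by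
  unfold NN
  split_ifs with h
  · simp only [h, zero_add, ← sq]
    rw [sum_sq fun y => if y = p then (1 : ℝ) else 0]
    simp
  · rw [← cntA, ← sum_mul_left h]
    refine sum_congr rfl fun x _ => if_congr ?_ rfl rfl
    rw [CharTwo.add_eq_zero, eq_div_iff (pow_ne_zero 2 h)]
    exact Eq.congr_left (by ring)

theorem symm (f : K → K → ℝ) :
    ∑ u, ∑ v, f (u + v) (u * v) = ∑ n, ∑ s, NN C s (n + s) * f s (n + s) := by
  have e : ∀ u, ∑ v, f (u + v) (u * v) = ∑ s, f s (u * (s + u)) := fun u => by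
    rw [← sum_shift u]
    exact sum_congr rfl fun s _ => by rw [add_comm u, add_assoc, CharTwo.add_self_eq_zero, add_zero]
  simp only [e]
  rw [sum_comm, sum_comm (f := fun n s => NN C s (n + s) * f s (n + s))]
  refine sum_congr rfl fun s _ => ?_
  rw [sum_shift s fun p => NN C s p * f s p]
  simp only [← cntB, sum_mul]
  rw [sum_comm]
  simp

/-- The weight of the main component. -/
def BB (κ n : K) : ℝ := ∑ s, if s * (1 + κ * n ^ 2) = n * (1 + κ * n) then NN C s (n + s) else 0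

theorem red {κ : K} (hκ : κ ≠ 0) : Full C κ = (Fintype.card K : ℝ) ^ 2 *
    ((if κ = 1 then Fintype.card K * C.ψ 1 else 0) + ∑ n, BB C κ n * C.ψ (κ * n) - 2 * C.ψ κ) := by
  have h2 := two_zero (K := K)
  rw [Full, sum_comm, sum_congr rfl fun u _ => sum4_comm _ _ _ _ _]
  simp only [fib C hκ, ← mul_sum]
  congr 1
  rw [symm C fun s p => if (1 + s) * (p + κ * (1 + s) * (p + s) ^ 2) = 0 then C.ψ (κ * (p + s))
    else 0]
  have e : ∀ n s : K, (NN C s (n + s) * if (1 + s) * (n + s + κ * (1 + s) * (n + s + s) ^ 2) = 0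
      then C.ψ (κ * (n + s + s)) else 0) =
      (if s = 1 then C.ψ (n * κ) + C.ψ (n * (κ + 1)) * C.ψ 1 else 0) +
        (if s * (1 + κ * n ^ 2) = n * (1 + κ * n) then NN C s (n + s) else 0) * C.ψ (κ * n) -
        if s = 1 then if n = 1 then 2 * C.ψ κ else 0 else 0 := fun n s => by
    have e1 : s * (1 + κ * n ^ 2) = n * (1 + κ * n) ↔ n + s + κ * (1 + s) * n ^ 2 = 0 := by
      rw [← CharTwo.add_eq_zero (R := K)]
      exact Eq.congr_left (by ring)
    simp only [add_assoc n s s, CharTwo.add_self_eq_zero, add_zero, e1, mul_eq_zero (a := 1 + s)]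
    rcases eq_or_ne s 1 with rfl | h
    · have e2 : NN C 1 (n + 1) * C.ψ (κ * n) = C.ψ (n * κ) + C.ψ (n * (κ + 1)) * C.ψ 1 := by
        rw [NN, if_neg one_ne_zero, one_pow, div_one, mul_add, mul_one, C.add, C.add, mul_comm κ]
        ring
      simp only [true_or, if_true, CharTwo.add_self_eq_zero, mul_zero, zero_mul, add_zero,
        CharTwo.add_eq_zero, e2]
      split_ifs with h
      · simp [h, NN, CharTwo.add_self_eq_zero, one_add_one_eq_two]
      · simp
    · have h3 : 1 + s ≠ 0 := fun e => h (CharTwo.add_eq_zero.1 e).symm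
      simp [h, h3]
  simp only [e, sum_sub_distrib, sum_add_distrib, sum_ite_eq', mem_univ, if_true, ← sum_mul,
    C.sum_mul, hκ, if_false, zero_add, CharTwo.add_eq_zero, BB]
  rw [ite_mul, zero_mul]

theorem BB_ne {κ n : K} (h : 1 + κ * n ^ 2 ≠ 0) : BB C κ n = 1 + if n = 0 ∨ 1 + κ * n = 0 then 0
    else C.ψ (κ * (1 + n) * (1 + κ * n ^ 2) / (1 + κ * n) ^ 2) := by
  simp only [BB, ← eq_div_iff h, sum_ite_eq', mem_univ, if_true, NN, div_eq_zero_iff, h, or_false,
    mul_eq_zero]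
  split_ifs with h1
  · simp
  · rw [not_or] at h1
    have := h1.1
    have := h1.2
    have e : n + n * (1 + κ * n) / (1 + κ * n ^ 2) = κ * n ^ 2 * (1 + n) / (1 + κ * n ^ 2) := by
      rw [add_div' _ _ _ h]
      congr 1
      linear_combination n * two_zero (K := K)
    rw [e]
    congr 2
    field_simp

theorem one : ∑ n, BB C 1 n * C.ψ (1 * n) = (3 * Fintype.card K - 4) * C.ψ 1 := by
  have h2 := two_zero (K := K)
  have b1 : BB C 1 1 = 2 * Fintype.card K - 1 := by
    have e : ∀ s : K, NN C s (1 + s) = 2 - if s = 0 then 1 else 0 := fun s => by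
      unfold NN
      split_ifs with h
      · norm_num
      · rw [show (1 + s) / s ^ 2 = s⁻¹ ^ 2 + s⁻¹ by field_simp, C.add, C.sq, C.mul_self]
        norm_num
    simp [BB, CharTwo.add_self_eq_zero, e, mul_comm]
  have e : ∀ n : K, BB C 1 n * C.ψ (1 * n) = C.ψ (n * 1) + C.ψ 1 - (if n = 0 then C.ψ 1 else 0) +
      if n = 1 then (2 * Fintype.card K - 3) * C.ψ 1 else 0 := fun n => by
    rcases eq_or_ne n 1 with rfl | h1
    · simp only [b1, mul_one, one_ne_zero, if_false, if_true]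
      ring
    have h3 : 1 + n ≠ 0 := fun h => h1 (CharTwo.add_eq_zero.1 h).symm
    have h4 : 1 + 1 * n ^ 2 = (1 + n) ^ 2 := by linear_combination (-n) * h2
    rw [BB_ne C (h4 ▸ pow_ne_zero 2 h3), h4]
    simp only [one_mul, mul_one, h3, or_false, h1, if_false, add_zero]
    split_ifs with h0
    · simp [h0]
    · rw [mul_div_cancel_right₀ _ (pow_ne_zero 2 h3), add_mul, C.add, mul_assoc, C.mul_self]
      ring
  simp only [e, sum_sub_distrib, sum_add_distrib, sum_ite_eq', mem_univ, if_true, C.sum_mul,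
    one_ne_zero, if_false, sum_const, card_univ, nsmul_eq_mul]
  ring

theorem klo {κ : K} (hκ : κ ≠ 0) (h1 : κ + 1 ≠ 0) : (∑ n, if 1 + κ * n = 0 then 0 else
    C.ψ (κ * (1 + n) * (1 + κ * n ^ 2) / (1 + κ * n) ^ 2) * C.ψ (κ * n)) =
      C.ψ κ⁻¹ * Klo C ((κ + 1) ^ 5 / κ ^ 4) := by
  have h2 := two_zero (K := K)
  symm
  rw [Klo, ← sumU_sq, ← sum_U_mul (div_ne_zero h1 hκ), ← sum_ite_U, ← sum_shift 1,
    ← sum_mul_left hκ, mul_sum]
  refine sum_congr rfl fun n _ => ?_
  rw [add_comm (κ * n)]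
  split_ifs with h
  · rw [mul_zero]
  · generalize ht : 1 + κ * n = t at h
    obtain rfl : n = (t + 1) / κ := by
      rw [eq_div_iff hκ]
      linear_combination ht - h2
    have e : (κ + 1) ^ 5 / κ ^ 4 / ((κ + 1) / κ * t) ^ 2 =
        ((κ + 1) / (κ * t)) ^ 2 + (κ + 1) ^ 2 / (κ * t ^ 2) := by
      field_simp
      ring
    rw [e, C.add, C.add, C.sq, C.sq, ← C.add, ← C.add, ← C.add, ← C.add]
    congr 1
    field_simp
    grind

theorem gen {κ : K} (hκ : κ ≠ 0) (h1 : κ ≠ 1) : ∑ n, BB C κ n * C.ψ (κ * n) =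
    C.ψ κ⁻¹ * Klo C ((κ + 1) ^ 5 / κ ^ 4) - 3 * C.ψ κ := by
  have h2 := two_zero (K := K)
  obtain ⟨m, hm⟩ := sq_bij.2 κ⁻¹
  replace hm : κ * m ^ 2 = 1 := by rw [show m ^ 2 = κ⁻¹ from hm, mul_inv_cancel₀ hκ]
  have m0 : m ≠ 0 := fun h => by simp [h] at hm
  have m1 : 1 + κ * m ≠ 0 := fun h => h1 (by
    rw [CharTwo.add_eq_zero] at h
    linear_combination (-κ) * hm - (κ * m + 1) * h)
  have m2 : C.ψ (κ * m) = C.ψ κ := by rw [← C.sq, mul_pow, sq κ, mul_assoc, hm, mul_one]
  have e : ∀ n : K, BB C κ n * C.ψ (κ * n) = C.ψ (n * κ) + (if 1 + κ * n = 0 then 0 else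
      C.ψ (κ * (1 + n) * (1 + κ * n ^ 2) / (1 + κ * n) ^ 2) * C.ψ (κ * n)) -
      (if n = 0 then C.ψ κ else 0) - if n = m then 2 * C.ψ κ else 0 := fun n => by
    rcases eq_or_ne n m with rfl | h
    · have : BB C κ n = 0 := sum_eq_zero fun s _ => if_neg fun e => mul_ne_zero m0 m1 (by
        rw [← e, hm, CharTwo.add_self_eq_zero, mul_zero])
      rw [this, if_neg m1, if_neg m0, if_pos rfl, hm, CharTwo.add_self_eq_zero, mul_comm n, m2]
      simp [two_mul]
    · rw [BB_ne C fun e => h (sq_bij.1 (mul_left_cancel₀ hκ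
        ((CharTwo.add_eq_zero.1 e).symm.trans hm.symm))), if_neg h, mul_comm n]
      rcases eq_or_ne n 0 with rfl | h0
      · simp
      · by_cases h3 : 1 + κ * n = 0 <;> simp [h0, h3, add_mul]
  simp only [e, sum_sub_distrib, sum_add_distrib, sum_ite_eq', mem_univ, if_true, C.sum_mul, hκ,
    if_false, klo C hκ fun h => h1 (CharTwo.add_eq_zero.1 h)]
  ring

end FullP

open FullP in
theorem full : FULL := by
  intro K _ _ _ _ C κ hκ
  rw [red C hκ]
  split_ifs with h
  · have k : Klo C ((1 + 1) ^ 5 / 1 ^ 4) = -1 := by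
      have := C.sum_mul 1
      simp only [mul_one, one_ne_zero, if_false] at this
      simp [Klo, CharTwo.add_self_eq_zero, sum_U, this]
    rw [h, one, k, inv_one]
    ring
  · rw [gen C hκ h]
    ring

end Pool.Agent.MP_e262d6_nt.DW
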