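import Pool.Agent.MP_e262d6_nt.DW.Spec

/-! Project DW: a point outside the small field. -/

set_option autoImplicit false

noncomputable section

namespace Pool.Agent.MP_e262d6_nt.DW

open Finset Polynomial Pool.Agent.MP_e262d6_nt.H61

theorem gen (h1 : CHP) (h2 : LEV) (h3 : PT) : GEN := by
  classical
  intro K L _ _ _ _ _ _ _ _ _ F C b a hb ha
  obtain ⟨m1, m2, -, -, m3⟩ := h1 K L F a
  obtain ⟨t1, t2⟩ := h3 K C (F.cp a) m1 m2 (m3 ha).1
  have c4 : (F.cp a).coeff 4 = Algebra.trace K L a := by simp [Fv.cp]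
  have c3 : (F.cp a).coeff 3 = F.e2 a := by simp [Fv.cp]
  have c2 : (F.cp a).coeff 2 = F.e3 a := by simp [Fv.cp]
  have c1 : (F.cp a).coeff 1 = F.e4 a := by simp [Fv.cp]
  have c0 : (F.cp a).coeff 0 = Algebra.norm K a := by simp [Fv.cp]
  obtain ⟨π, p1, p2, p3⟩ : ∃ π : L → K × K × K × K, (∀ p, (π p).1 = Algebra.norm K p) ∧
      (∀ p, F.hp a (a / p + F.σ p) = q2 (π p).2.1 (π p).2.2.1 (π p).2.2.2) ∧
      ∀ p, (π p).2.2.2 = Algebra.trace K L (p + a / p) := by
    refine ⟨fun p => (Algebra.norm K p, _, _, _), fun _ => rfl, fun _ => rfl, fun p => ?_⟩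
    have : Algebra.trace K L (F.σ p) = Algebra.trace K L p := (algebraMap K L).injective (by
      rw [F.tr, F.tr, F.five]
      ring)
    show Algebra.trace K L (a / p + F.σ p) = _
    rw [map_add, map_add, this, add_comm]
  have key : ∀ g : K × K × K × K → ℝ, ∑ p ∈ U L, g (π p) =
      ∑ x ∈ U K ×ˢ univ, g x * (((U L).filter fun p => π p = x).card : ℝ) := fun g => by
    rw [← sum_fiberwise_of_maps_to' (t := U K ×ˢ univ) (g := π) fun p hp => mem_product.2
      ⟨mem_U.2 (p1 p ▸ Algebra.norm_ne_zero_iff.2 (mem_U.1 hp)), mem_univ _⟩]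
    exact sum_congr rfl fun x _ => by rw [sum_const, nsmul_eq_mul, mul_comm]
  have le : ∀ x ∈ U K ×ˢ (univ : Finset (K × K × K)),
      (((U L).filter fun p => π p = x).card : ℝ) ≤
        cB (F.cp a) (q2 x.2.1 x.2.2.1 x.2.2.2) x.1 := fun x _ => by
    refine Nat.cast_le.2 (le_trans (card_le_card fun p hp => ?_) (h2 K L F a ha x.1 _))
    obtain ⟨k1, k2⟩ := mem_filter.1 hp
    exact mem_filter.2 ⟨k1, k2 ▸ (p1 p).symm, k2 ▸ p2 p⟩
  have eq := (sum_eq_sum_iff_of_le le).1 (by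
    have := key fun _ => 1
    simp only [one_mul, sum_const, nsmul_eq_mul, mul_one, card_U] at this
    rw [← this, sum_product, t1, Module.card_eq_pow_finrank (K := K) (V := L), F.rank,
      Nat.cast_pow])
  have e := key fun x => C.ψ (b⁻¹ * x.1 * x.2.2.2)
  simp only [p1, p3] at e
  rw [Sp, e, sum_congr rfl fun x hx => by rw [eq x hx], sum_product, t2 b hb, c4, c3, c2, c1, c0,
    sub_add_cancel]

end Pool.Agent.MP_e262d6_nt.DW
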