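import Pool.Agent.MP_e262d6_nt.DW.Lat

/-! Project DW: the twisted pairs inject into the rational reduced pairs. -/

set_option autoImplicit false
set_option linter.unusedSectionVars false

noncomputable section

namespace Pool.Agent.MP_e262d6_nt.DW

open Polynomial Ideal

namespace Lat

variable {L : Type} [Field L] [CharP L 2] {P h : L[X]}

theorem io_two (x : Od P h) : x + x = 0 :=
  QuadraticAlgebra.ext (CharTwo.add_self_eq_zero _) (CharTwo.add_self_eq_zero _)

theorem py_add (V f : L[X]) : py P h (V + f) = py P h V + io P h f :=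
  QuadraticAlgebra.ext (by simp) (by simp)

theorem py_sq (V : L[X]) : py P h V * py P h V = io P h (nf P h V) + io P h h * py P h V := by
  rw [py_mul, CharTwo.add_self_eq_zero, zero_add]

theorem py_conj (V : L[X]) : py P h (V + h) * py P h V = io P h (nf P h V) := by
  rw [py_mul, show V + h + V + h = 0 by linear_combination (V + h) * two (L := L), map_zero,
    zero_mul, add_zero]

theorem st_mem {U V W g : L[X]} (hW : nf P h V = U * W) (h1 : g ∣ U) (h2 : g ∣ W) (h3 : g ∣ h) :
    (py P h V, io P h g) ∈ St (Id P h U V) := by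
  obtain ⟨u, hu⟩ := h1
  obtain ⟨w, hw⟩ := h2
  obtain ⟨k, hk⟩ := h3
  have e1 := congrArg (io P h) hu
  have e2 := congrArg (io P h) hw
  have e3 := congrArg (io P h) hk
  rw [map_mul] at e1 e2 e3
  simp only [St, Set.mem_ofPred_eq, Id, one_pair]
  refine span_le.2 (Set.pair_subset (mem_span_pair.2 ⟨0, io P h u, ?_⟩)
    (mem_span_pair.2 ⟨io P h w, io P h k, ?_⟩))
  · linear_combination (-py P h V) * e1
  · rw [py_sq, hW, map_mul]
    linear_combination (-io P h U) * e2 - py P h V * e3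

theorem st_conv {U V c g : L[X]} (hU : U ∣ nf P h V)
    (e : (py P h c, io P h g) ∈ St (Id P h U V)) : g ∣ U ∧ g * U ∣ nf P h V := by
  obtain ⟨z, -, hz⟩ := mem_span_singleton_mul.1 (e (mul_mem_mul
    (mem_span_singleton_self _) (io_mem U V)))
  obtain ⟨y, hy, e1⟩ := mem_span_singleton_mul.1 (e (mul_mem_mul
    (mem_span_singleton_self _) (py_mem U V)))
  obtain ⟨k, hk⟩ := (mem_Id hU).1 hy
  refine ⟨⟨z.im, by simpa using (congrArg (·.im) hz).symm⟩, k, ?_⟩
  have e2 := congrArg (·.re) e1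
  have e3 := congrArg (·.im) e1
  simp only [nf, QuadraticAlgebra.re_mul, QuadraticAlgebra.im_mul, io_re, io_im, py_re,
    py_im] at e2 e3 ⊢
  linear_combination g * hk - e2 - V * e3 - c * V * two (L := L)

theorem mul_conj {U V W g : L[X]} (hW : nf P h V = U * W) (h1 : g ∣ U) (h2 : g ∣ W) (h3 : g ∣ h)
    {a b c : L[X]} (h4 : g = a * U + b * W + c * h) :
    Id P h U (V + h) * Id P h U V = span {io P h U} * span {io P h g, py P h V} := by
  obtain ⟨u, hu⟩ := h1
  obtain ⟨w, hw⟩ := h2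
  obtain ⟨k, hk⟩ := h3
  have e1 := congrArg (io P h) hu
  have e2 := congrArg (io P h) hw
  have e3 := congrArg (io P h) hk
  have e4 := congrArg (io P h) h4
  have e5 := py_conj (P := P) (h := h) V
  rw [hW] at e5
  simp only [map_mul, map_add] at e1 e2 e3 e4 e5
  rw [one_pair]
  have m1 := mul_mem_mul (io_mem (P := P) (h := h) U (V + h)) (io_mem U V)
  have m2 := mul_mem_mul (io_mem (P := P) (h := h) U (V + h)) (py_mem U V)
  have m3 := mul_mem_mul (py_mem (P := P) (h := h) U (V + h)) (io_mem U V)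
  have m4 := mul_mem_mul (py_mem (P := P) (h := h) U (V + h)) (py_mem U V)
  refine le_antisymm ?_ (span_le.2 (Set.pair_subset ?_ m2))
  · rw [Id, Id, span_pair_mul_span_pair, span_le]
    rintro x (rfl | rfl | rfl | rfl)
    · exact mem_span_pair.2 ⟨io P h u, 0, by linear_combination (-io P h U) * e1⟩
    · exact mem_span_pair.2 ⟨0, 1, by ring⟩
    · exact mem_span_pair.2 ⟨io P h k, 1, by rw [py_add]; linear_combination (-io P h U) * e3⟩
    · exact mem_span_pair.2 ⟨io P h w, 0, by rw [e5]; linear_combination (-io P h U) * e2⟩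
  · refine (congrArg (· ∈ _) ?_).mp (add_mem (add_mem (mul_mem_left _ (io P h a) m1)
      (mul_mem_left _ (io P h b) m4)) (mul_mem_left _ (io P h c) (sub_mem m3 m2)))
    rw [e5, py_add, e4]
    ring

theorem gen3 (U W h : L[X]) : ∃ g a b c, g ∣ U ∧ g ∣ W ∧ g ∣ h ∧ g = a * U + b * W + c * h := by
  obtain ⟨g, hg⟩ : ∃ g, ∀ f, f ∈ span ({U, W, h} : Set L[X]) ↔ g ∣ f :=
    ⟨_, fun f => Submodule.IsPrincipal.mem_iff_generator_dvd _ (x := f)⟩
  obtain ⟨a, b, c, h4⟩ := Submodule.mem_span_triple.1 ((hg g).2 dvd_rfl)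
  exact ⟨g, a, b, c, (hg U).1 (subset_span (by simp)), (hg W).1 (subset_span (by simp)),
    (hg h).1 (subset_span (by simp)), h4.symm⟩

theorem canc0 {O : Type} [CommRing O] [IsDomain O] {M I J : Ideal O} {x y g : O} (hx : x ≠ 0)
    (hg : g ≠ 0) (h1 : I * J = span {x} * span {g, y}) (h2 : (y, g) ∈ St M) :
    Eqv (M * I * J) M := by
  have h5 : span {y} * M ≤ span {g} * M := h2
  rw [mul_assoc, h1, mul_left_comm M, span_insert, mul_comm M, Ideal.sup_mul, sup_eq_left.2 h5]
  exact (Eqv.of_span hx _).trans (Eqv.of_span hg _)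

theorem canc {U V : L[X]} (U0 : U ≠ 0) (hU : U ∣ nf P h V) [IsDomain (Od P h)]
    {M : Ideal (Od P h)} (hM : St (Id P h U V) ⊆ St M) :
    Eqv (M * Id P h U (V + h) * Id P h U V) M := by
  obtain ⟨W, hW⟩ := hU
  obtain ⟨g, a, b, c, h1, h2, h3, h4⟩ := gen3 U W h
  exact canc0 (io_ne U0) (io_ne (ne_zero_of_dvd_ne_zero U0 h1)) (mul_conj hW h1 h2 h3 h4)
    (hM (st_mem hW h1 h2 h3))

theorem mul_Id {A U V W a b c : L[X]} (hW : nf P h V = A * U * W) (e : a * A + b * U + c * h = 1) :
    Id P h A V * Id P h U V = Id P h (A * U) V := by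
  have e1 := py_sq (P := P) (h := h) V
  have e2 := congrArg (io P h) e
  rw [hW] at e1
  simp only [map_mul, map_add, map_one] at e1 e2
  have m1 := mul_mem_mul (io_mem (P := P) (h := h) A V) (io_mem U V)
  have m2 := mul_mem_mul (io_mem (P := P) (h := h) A V) (py_mem U V)
  have m3 := mul_mem_mul (py_mem (P := P) (h := h) A V) (io_mem U V)
  have m4 := mul_mem_mul (py_mem (P := P) (h := h) A V) (py_mem U V)
  refine le_antisymm ?_ (span_le.2 (Set.pair_subset (by rwa [map_mul]) ?_))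
  · rw [Id, Id, span_pair_mul_span_pair, span_le]
    rintro x (rfl | rfl | rfl | rfl)
    · exact mem_span_pair.2 ⟨1, 0, by rw [map_mul]; ring⟩
    · exact mem_span_pair.2 ⟨0, io P h A, by ring⟩
    · exact mem_span_pair.2 ⟨0, io P h U, by ring⟩
    · exact mem_span_pair.2 ⟨0, py P h V, by ring⟩
  · refine (congrArg (· ∈ _) ?_).mp (add_mem (add_mem (mul_mem_left _ (io P h a) m2)
      (mul_mem_left _ (io P h b) m3))
      (mul_mem_left _ (io P h c) (sub_mem m4 (mul_mem_left _ (io P h W) m1))))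
    linear_combination py P h V * e2 + io P h c * e1

theorem Id_congr {U V V' : L[X]} (e : U ∣ V + V') : Id P h U V = Id P h U V' := by
  have key : ∀ {V V' : L[X]}, U ∣ V + V' → Id P h U V ≤ Id P h U V' := fun {V V'} ⟨k, hk⟩ =>
    span_le.2 (Set.pair_subset (io_mem _ _) (mem_span_pair.2 ⟨io P h k, 1, by
      rw [← map_mul, mul_comm k, ← hk, one_mul, add_comm, ← py_add, add_comm V, ← add_assoc,
        CharTwo.add_self_eq_zero, zero_add]⟩))
  exact le_antisymm (key e) (key (add_comm V V' ▸ e))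

theorem map_star (U V : L[X]) : (Id P h U V).map (starRingEnd _) = Id P h U (V + h) := by
  rw [Id, Id, Ideal.map_span, Set.image_pair]
  have e1 : starRingEnd _ (io P h U) = io P h U :=
    QuadraticAlgebra.ext (by simp [starRingEnd_apply]) (by simp [starRingEnd_apply])
  have e2 : starRingEnd _ (py P h V) = py P h (V + h) :=
    QuadraticAlgebra.ext (by simp [starRingEnd_apply]) (CharTwo.neg_eq _)
  rw [e1, e2]

variable {σ : L →+* L}

/-- the action of `σ` on the order -/
def sg (hP : P.map σ = P) (hh : h.map σ = h) : Od P h →+* Od P h where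
  toFun x := ⟨x.re.map σ, x.im.map σ⟩
  map_one' := QuadraticAlgebra.ext (Polynomial.map_one _) (Polynomial.map_zero _)
  map_mul' x y := QuadraticAlgebra.ext (by simp [hP]) (by simp [hh])
  map_zero' := QuadraticAlgebra.ext (Polynomial.map_zero _) (Polynomial.map_zero _)
  map_add' x y := QuadraticAlgebra.ext (by simp) (by simp)

theorem sg_inj (hP : P.map σ = P) (hh : h.map σ = h) : Function.Injective (sg hP hh) :=
  fun _ _ e => QuadraticAlgebra.ext (Polynomial.map_injective σ σ.injective (congrArg (·.re) e))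
    (Polynomial.map_injective σ σ.injective (congrArg (·.im) e))

theorem map_sg (hP : P.map σ = P) (hh : h.map σ = h) (U V : L[X]) :
    (Id P h U V).map (sg hP hh) = Id P h (U.map σ) (V.map σ) := by
  rw [Id, Id, Ideal.map_span, Set.image_pair]
  have e1 : sg hP hh (io P h U) = io P h (U.map σ) :=
    QuadraticAlgebra.ext rfl (Polynomial.map_zero _)
  have e2 : sg hP hh (py P h V) = py P h (V.map σ) :=
    QuadraticAlgebra.ext rfl (Polynomial.map_one _)
  rw [e1, e2]

variable {a u : L} {U V : L[X]}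

theorem irr (a : L) : Irreducible (X + C a : L[X]) :=
  irreducible_of_degree_eq_one (degree_X_add_C a)

theorem not_both (T : Tw σ a P h u U V) (hs : ¬ (X + C a) ^ 2 ∣ P) (h1 : X + C a ∣ U) :
    ¬ X + C a ∣ h := fun h2 => by
  obtain ⟨v, hv⟩ := T.dvd
  obtain ⟨w, hw⟩ := h1
  obtain ⟨k, hk⟩ := h2
  refine hs ⟨w * U.map σ - v ^ 2 - k * v, ?_⟩
  have := T.nrm
  rw [nf, hv] at this
  linear_combination this + (X + C a) * U.map σ * hw - (X + C a) * v * hk

theorem twist [IsDomain (Od P h)] (T : Tw σ a P h u U V) (hs : ¬ (X + C a) ^ 2 ∣ P) :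
    Eqv (Id P h (U.map σ) (V.map σ)) (Id P h (X + C a) 0 * Id P h U V) := by
  obtain ⟨x, y, z, e⟩ : ∃ x y z, x * (X + C a) + y * U + z * h = 1 := by
    by_cases h1 : X + C a ∣ U
    · obtain ⟨x, z, e⟩ := (irr a).coprime_iff_not_dvd.2 (not_both T hs h1)
      exact ⟨x, 0, z, by rw [← e]; ring⟩
    · obtain ⟨x, y, e⟩ := (irr a).coprime_iff_not_dvd.2 h1
      exact ⟨x, y, 0, by rw [← e]; ring⟩
  rw [Id_congr (V := 0) (V' := V) (by simpa using T.dvd),
    mul_Id (W := U.map σ) (by rw [T.nrm]; ring) e]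
  refine ⟨py P h V, io P h (U.map σ), py_ne _, io_ne (T.mon.map σ).ne_zero, ?_⟩
  have e1 : py P h V * py P h (V.map σ) =
      io P h (U.map σ) * io P h ((X + C a) * U) + io P h (C u) * (io P h (U.map σ) * py P h V) := by
    rw [mul_comm, py_mul, T.nrm, add_comm (V.map σ), T.lin]
    simp only [map_mul]
    ring
  rw [Id, Id, one_pair, one_pair, e1, mul_comm (py P h V)]
  refine le_antisymm (span_le.2 (Set.pair_subset (subset_span (by simp))
    (mem_span_pair.2 ⟨1, io P h (C u), by ring⟩))) (span_le.2 (Set.pair_subset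
    (mem_span_pair.2 ⟨-io P h (C u), 1, by ring⟩) (subset_span (by simp))))

theorem pp [IsDomain (Od P h)] (T : Tw σ a P h u U V) (hs : ¬ (X + C a) ^ 2 ∣ P) :
    Id P h (X + C a) (0 + h) * Id P h (X + C a) 0 = span {io P h (X + C a)} := by
  obtain ⟨W, hW⟩ : X + C a ∣ nf P h 0 := by
    obtain ⟨v, hv⟩ := T.dvd
    refine ⟨U * U.map σ - v * V - h * v, ?_⟩
    have := T.nrm
    simp only [nf] at this ⊢
    linear_combination this - (V + h) * hv
  obtain ⟨x, y, e⟩ := (irr a).coprime_iff_not_dvd.2 (show ¬ X + C a ∣ W from fun ⟨k, hk⟩ =>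
    hs ⟨k, by rw [hk, nf] at hW; linear_combination hW⟩)
  rw [mul_conj hW (one_dvd _) (one_dvd _) (one_dvd _) (a := x) (b := y) (c := 0)
    (by rw [← e]; ring), map_one, (eq_top_iff_one (span {1, _})).2 (subset_span (by simp)),
    mul_top]

theorem fixed [IsDomain (Od P h)] (hP : P.map σ = P) (hh : h.map σ = h) {u' : L} {U' V' : L[X]}
    (T : Tw σ a P h u U V) (T' : Tw σ a P h u' U' V') (hs : ¬ (X + C a) ^ 2 ∣ P) :
    Eqv ((Id P h U V * Id P h U' (V' + h)).map (sg hP hh)) (Id P h U V * Id P h U' (V' + h)) := by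
  have e1 := (twist T' hs).map (starRingEnd _) star_injective
  rw [Ideal.map_mul, map_star, map_star, map_star] at e1
  rw [Ideal.map_mul, map_sg, map_sg, Polynomial.map_add, hh]
  refine ((twist T hs).mul e1).trans ?_
  rw [mul_mul_mul_comm, mul_comm (Id P h (X + C a) 0), pp T hs]
  exact Eqv.of_span (io_ne (X_add_C_ne_zero a)) _

theorem inj (hP : P.natDegree = 5) (hh : h.natDegree ≤ 2) {u' : L} {U' V' : L[X]}
    (T : Tw σ a P h u U V) (T' : Tw σ a P h u' U' V') (hs : ¬ (X + C a) ^ 2 ∣ P)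
    (e : Eqv (Id P h U V) (Id P h U' V')) : u = u' := by
  obtain ⟨rfl, k, hk⟩ := uniq hP hh T.mon T.deg.le ⟨_, T.nrm⟩ T'.mon T'.deg.le ⟨_, T'.nrm⟩ e
  have U0 := T.mon.ne_zero
  have k0 : k = 0 := by
    by_contra k0
    have d1 : k.natDegree = 0 := by
      have d2 := natDegree_add_le V V'
      have d3 := T.degV
      have d4 := T'.degV
      rw [hk, natDegree_mul U0 k0, T.deg] at d2
      omega
    have d2 : X + C a ∣ U := ((irr a).prime.dvd_or_dvd (hk ▸ dvd_add T.dvd T'.dvd)).resolve_right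
      fun e => k0 (eq_zero_of_dvd_of_natDegree_lt e (by rw [d1, natDegree_X_add_C]; omega))
    have d3 : U * k * (U * k - h) = 0 := by
      have e1 := T.nrm
      have e2 := T'.nrm
      rw [← hk]
      simp only [nf] at e1 e2
      linear_combination e1 + e2 + (V * V' - h * V - h * V' - P + U * ((X + C a) * U.map σ)) *
        two (L := L)
    rw [mul_eq_zero, or_iff_right (mul_ne_zero U0 k0), sub_eq_zero] at d3
    exact not_both T hs d2 (d3 ▸ d2.mul_right k)
  obtain rfl : V = V' := by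
    rw [k0, mul_zero] at hk
    exact CharTwo.add_eq_zero.1 hk
  exact C_injective (mul_right_cancel₀ (T.mon.map σ).ne_zero (T.lin.symm.trans T'.lin))

end Lat

open _root_.Pool.Agent.MP_e262d6_nt.DW.Lat in
theorem jac : JAC := by
  intro K L _ _ _ _ σ h1 h2 a P h mP dP dh hs S Uf Vf hT
  classical
  have fx : ∀ f : K[X], (f.map (algebraMap K L)).map σ = f.map (algebraMap K L) := fun f => by
    rw [Polynomial.map_map]
    congr 1
    exact RingHom.ext h1
  have lf : ∀ f : L[X], f.map σ = f → ∃ g : K[X], g.map (algebraMap K L) = f := fun f e =>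
    (mem_lifts _).1 ((lifts_iff_coeff_lifts _).2 fun n => h2 _ (by rw [← coeff_map, e]))
  have nm : ∀ V : K[X], nf (P.map (algebraMap K L)) (h.map (algebraMap K L))
      (V.map (algebraMap K L)) = (nf P h V).map (algebraMap K L) := fun V => by simp [nf]
  have hP := fx P
  have hh := fx h
  have dP' : (P.map (algebraMap K L)).natDegree = 5 := by rw [natDegree_map, dP]
  have dh' : (h.map (algebraMap K L)).natDegree ≤ 2 := by rwa [natDegree_map]
  have h0 : h.coeff 0 = 0 → X ∣ h.map (algebraMap K L) := fun e => by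
    rw [X_dvd_iff, coeff_map, e, map_zero]
  generalize P.map (algebraMap K L) = P' at *
  generalize h.map (algebraMap K L) = h' at *
  have := dom dP' dh'
  obtain ⟨b, hb⟩ : ∃ b : Set (Od P' h' × Od P' h') → L, ∀ u ∈ S,
      b (St (Id P' h' (Uf u) (Vf u))) ∈ S ∧ St (Id P' h' (Uf (b (St (Id P' h' (Uf u) (Vf u)))))
        (Vf (b (St (Id P' h' (Uf u) (Vf u)))))) = St (Id P' h' (Uf u) (Vf u)) :=
    ⟨fun s => Classical.epsilon fun w => w ∈ S ∧ St (Id P' h' (Uf w) (Vf w)) = s, fun u hu =>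
      Classical.epsilon_spec (p := fun w => w ∈ S ∧ St (Id P' h' (Uf w) (Vf w)) =
        St (Id P' h' (Uf u) (Vf u))) ⟨u, hu, rfl⟩⟩
  set M : L → Ideal (Od P' h') := fun u => Id P' h' (Uf u) (Vf u) with hM
  set N : L → Ideal (Od P' h') := fun u =>
    M u * Id P' h' (Uf (b (St (M u)))) (Vf (b (St (M u))) + h') with hN
  have c1 : ∀ u ∈ S, Eqv (N u * M (b (St (M u)))) (M u) := fun u hu =>
    canc (hT _ (hb u hu).1).mon.ne_zero ⟨_, (hT _ (hb u hu).1).nrm⟩ (hb u hu).2.le
  have c2 : ∀ u ∈ S, St (N u) = St (M u) := fun u hu =>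
    le_antisymm ((St.mul _ _).trans (c1 u hu).st.le) (St.mul _ _)
  have c3 : ∀ u, ∃ x : K[X] × K[X], u ∈ S → Red P h x.1 x.2 ∧
      Eqv (N u) (Id P' h' (x.1.map (algebraMap K L)) (x.2.map (algebraMap K L))) := by
    intro u
    by_cases hu : u ∈ S
    swap
    · exact ⟨0, fun e => absurd e hu⟩
    obtain ⟨U, V, ⟨r1, r2, r3, r4⟩, e⟩ := exists_red dP' dh' (I := N u) fun e => by
      rcases Ideal.mul_eq_bot.1 e with e | e <;>
        exact py_ne _ ((Submodule.eq_bot_iff _).1 e _ (py_mem _ _))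
    have e1 := (e.map _ (sg_inj hP hh)).symm.trans ((fixed hP hh (hT u hu) (hT _ (hb u hu).1)
      hs).trans e)
    rw [map_sg] at e1
    obtain ⟨e2, e3⟩ := uniq dP' dh' r1 r2 r4 (r1.map σ) (by rwa [natDegree_map]) (by
      simpa [nf, hP, hh] using Polynomial.map_dvd σ r4) e1.symm
    have e4 := eq_zero_of_dvd_of_degree_lt e3 ((degree_add_le _ _).trans_lt
      (max_lt r3 (by rwa [degree_map])))
    obtain ⟨U0, rfl⟩ := lf U e2.symm
    obtain ⟨V0, rfl⟩ := lf V (CharTwo.add_eq_zero.1 e4).symm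
    refine ⟨(U0, V0), fun _ => ⟨⟨(monic_map_iff).1 r1, by rwa [natDegree_map] at r2,
      by rwa [degree_map, degree_map] at r3, ?_⟩, e⟩⟩
    rwa [nm, map_dvd_map'] at r4
  choose G hG using c3
  refine ⟨G, fun u hu u' hu' e => ?_, fun u hu => ⟨(hG u hu).1, fun k1 k2 => ?_⟩⟩
  · have e1 : Eqv (N u) (N u') := (hG u hu).2.trans (e ▸ (hG u' hu').2.symm)
    have e2 : St (M u) = St (M u') := by rw [← c2 u hu, e1.st, c2 u' hu']
    refine inj dP' dh' (hT u hu) (hT u' hu') hs ((c1 u hu).symm.trans (Eqv.trans ?_ (c1 u' hu')))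
    rw [e2]
    exact e1.mul (Eqv.rfl' _)
  · have e1 := st_mem (hT u hu).nrm (X_dvd_iff.2 k1) (Dvd.dvd.mul_left (X_dvd_iff.2
      (by rw [coeff_map, k1, map_zero])) _) (h0 k2)
    have e2 := st_conv (by rw [nm]; exact Polynomial.map_dvd _ (hG u hu).1.2.2.2)
      ((hG u hu).2.st.le ((c2 u hu).ge e1))
    rw [nm, ← Polynomial.map_X (algebraMap K L), ← Polynomial.map_mul, map_dvd_map',
      map_dvd_map'] at e2
    exact ⟨e2.1, k2, e2.2⟩

end Pool.Agent.MP_e262d6_nt.DW
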