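import Pool.Agent.MP_e262d6_nt.DW.Spec

/-! Project DW: the case of a point of the small field. -/

set_option autoImplicit false

namespace Pool.Agent.MP_e262d6_nt.DW

open Finset Polynomial Pool.Agent.MP_e262d6_nt.H61

theorem ka (h1 : LIFT) (h2 : R3) (h3 : R5) (h4 : FULL) : KA := by
  intro K L _ _ _ _ _ _ _ _ _ F C b c hb hc
  obtain ⟨α, rfl⟩ := (sq_bij (K := K)).2 c
  have hα : α ≠ 0 := fun e => hc (by simp [e])
  have hA : algebraMap K L α ≠ 0 := (_root_.map_ne_zero _).2 hα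
  have hκ : (α ^ 2) ^ 3 / b ≠ 0 := div_ne_zero (pow_ne_zero _ hc) hb
  have e : Sp L C b⁻¹ (algebraMap K L (α ^ 2)) = Sp L C ((α ^ 2) ^ 3 / b) 1 := by
    rw [Sp, Sp, ← sum_U_mul hA]
    refine sum_congr rfl fun u hu => congrArg _ ?_
    have hu := mem_U.1 hu
    rw [show algebraMap K L α * u + algebraMap K L (α ^ 2) / (algebraMap K L α * u) =
      α • (u + 1 / u) by rw [Algebra.smul_def, map_pow]; field_simp, map_mul, map_smul,
      Algebra.norm_algebraMap, F.rank, smul_eq_mul]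
    ring
  have e1 : ((α ^ 2) ^ 3 / b + 1) ^ 5 / ((α ^ 2) ^ 3 / b) ^ 4 =
      (α ^ 2 + b / (α ^ 2) ^ 2) ^ 5 / (b * (α ^ 2) ^ 2) := by field_simp
  have e2 : (α ^ 2) ^ 3 / b = 1 ↔ α ^ 2 = b / (α ^ 2) ^ 2 := by
    rw [div_eq_one_iff_eq hb, eq_div_iff (pow_ne_zero _ hc), ← pow_succ']
  beta_reduce
  rw [e, h1 K L F C _ hκ, h2 K C _ hκ, h3 K C _ hκ, h4 K C _ hκ, e1, ← inv_div ((α ^ 2) ^ 3) b]
  by_cases h : (α ^ 2) ^ 3 / b = 1
  · rw [if_pos h, if_pos h, if_pos (e2.1 h), h, inv_one]; ring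
  · rw [if_neg h, if_neg h, if_neg (mt e2.2 h)]; ring

end Pool.Agent.MP_e262d6_nt.DW
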