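import Pool.Agent.MP_e262d6_nt.DW.Spec

/-! Project DW: the short sum is a Kloosterman sum. -/

set_option autoImplicit false

namespace Pool.Agent.MP_e262d6_nt.DW

open Finset Polynomial Pool.Agent.MP_e262d6_nt.H61

theorem kl : KL := by
  intro K _ _ _ _ C b t e2 e3 e4 e5 hb ht
  obtain ⟨c, rfl⟩ : ∃ c, b = c * t ^ 2 := ⟨b / t ^ 2, by field_simp⟩
  have hc : c ≠ 0 := left_ne_zero_of_mul hb
  have h1 : ∀ x, C.ψ (x ^ 2 + x) = 1 := fun x => by rw [C.add, C.sq, C.mul_self]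
  have h2 : ∀ y, c * t ^ 2 + t ^ 2 * (c + y) = t ^ 2 * y := fun y => by
    linear_combination c * t ^ 2 * two_zero (K := K)
  rw [Rj, Klo, ← Equiv.sum_comp (Equiv.addLeft c),
    ← sum_U_mul (c := c / t ^ 2) (div_ne_zero hc (pow_ne_zero 2 ht)), mul_sum, ← sum_ite_U]
  refine sum_congr rfl fun y _ => ?_
  rw [Equiv.coe_addLeft, h2]
  by_cases hy : y = 0
  · rw [if_pos hy, if_pos (by rw [hy, mul_zero])]
  rw [if_neg hy, if_neg (mul_ne_zero (pow_ne_zero 2 ht) hy), ← C.add, ← mul_one (C.ψ (_ + _)),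
    ← h1 (c / t), ← C.add, ← mul_one (C.ψ (_ + _)), ← h1 (y / t), ← C.add,
    mul_div_cancel_right₀ c (pow_ne_zero 2 ht)]
  congr 1
  field_simp
  linear_combination (c ^ 4 * y + c ^ 3 * y ^ 2) * two_zero (K := K)

end Pool.Agent.MP_e262d6_nt.DW
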