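import Pool.Agent.MP_e262d6_nt.DW.Spec

/-! Project DW: the level sets are at most the count. -/

set_option autoImplicit false

namespace Pool.Agent.MP_e262d6_nt.DW

open Finset Polynomial Pool.Agent.MP_e262d6_nt.H61

namespace Lev

theorem fib {L : Type} [Field L] (r : ℕ) (hr : 1 ≤ r) (a u : L) (T : Finset L)
    (h : ∀ p ∈ T, p ≠ 0 ∧ a / p + p ^ r = u) : T.card ≤ r + 1 := by
  have hm : (X ^ (r + 1) + (C (-u) * X + C a) : L[X]).Monic :=
    monic_X_pow_add (degree_linear_le.trans_lt (by exact_mod_cast Nat.lt_succ_of_le hr))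
  have hd : (X ^ (r + 1) + (C (-u) * X + C a) : L[X]).natDegree ≤ r + 1 :=
    (natDegree_add_le _ _).trans (max_le (natDegree_X_pow_le _)
      (natDegree_linear_le.trans (by omega)))
  refine (card_le_degree_of_subset_roots fun p hp => ?_).trans hd
  obtain ⟨p0, e⟩ := h p hp
  rw [mem_roots hm.ne_zero, IsRoot.def]
  simp only [eval_add, eval_pow, eval_X, eval_mul, eval_C]
  rw [← e]
  field_simp
  ring

theorem deg_q2 {K : Type} [Field K] (a b c : K) : (q2 a b c).natDegree ≤ 2 := by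
  unfold q2
  compute_degree

end Lev

theorem lev (h1 : CHP) (h2 : TWD) (h3 : JAC) (h4 : LIFTS) : LEV := by
  classical
  intro K L _ _ _ _ _ _ _ _ _ F a ha v h
  obtain ⟨c1, c2, -, -, c3⟩ := h1 K L F a
  obtain ⟨t1, t2⟩ := h2 K L F a
  generalize hT : ((U L).filter fun p => Algebra.norm K p = v ∧ F.hp a (a / p + F.σ p) = h) = T
  have mT : ∀ p ∈ T, p ≠ 0 ∧ Algebra.norm K p = v ∧ F.hp a (a / p + F.σ p) = h := by
    intro p hp
    rw [← hT, mem_filter, mem_U] at hp
    exact hp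
  rcases T.eq_empty_or_nonempty with rfl | ⟨p0, hp0⟩
  · exact Nat.zero_le _
  obtain ⟨a1, a2, a3⟩ := mT p0 hp0
  have v0 : v ≠ 0 := a2 ▸ (Algebra.norm_ne_zero_iff.2 a1)
  have h0 : h.coeff 0 = v + Algebra.norm K a / v := by rw [← a3, (t2 p0 a1).1, a2]
  have P0 : (F.cp a).coeff 0 = Algebra.norm K a := by simp [Fv.cp]
  have hd : h.natDegree ≤ 2 := a3 ▸ Lev.deg_q2 _ _ _
  obtain ⟨G, g1, g2⟩ := h3 K L F.σ F.fixK F.fix a (F.cp a) h c1 c2 hd (c3 ha).2
    {u | F.hp a u = h} (F.UU a) (F.VV a) fun u hu => (show F.hp a u = h from hu) ▸ t1 u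
  have mS : ∀ u ∈ T.image fun p => a / p + F.σ p, F.hp a u = h := fun u hu => by
    obtain ⟨p, hp, rfl⟩ := mem_image.1 hu
    exact (mT p hp).2.2
  have key := h4 K (F.cp a) h v v0 (by
    rw [h0, P0]
    field_simp
    linear_combination (v ^ 2 + Algebra.norm K a) * (CharTwo.two_eq_zero : (2 : K) = 0))
    ((T.image fun p => a / p + F.σ p).image G) fun x hx => by
      obtain ⟨u, hu, rfl⟩ := mem_image.1 hx
      exact (g2 u (mS u hu)).1
  rw [sum_image fun u hu u' hu' e => g1 (mS u hu) (mS u' hu') e] at key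
  refine le_trans ?_ key
  rw [card_eq_sum_card_image (fun p => a / p + F.σ p) T]
  refine sum_le_sum fun u hu => ?_
  split_ifs with hs
  · refine Lev.fib _ Fintype.card_pos a u _ fun p hp => ?_
    obtain ⟨k1, k2⟩ := mem_filter.1 hp
    exact ⟨(mT p k1).1, F.pw p ▸ k2⟩
  · refine card_le_one.2 fun p hp p' hp' => by_contra fun hn => hs ?_
    obtain ⟨k1, k2⟩ := mem_filter.1 hp
    obtain ⟨k3, k4⟩ := mem_filter.1 hp'
    obtain ⟨-, e1, e2⟩ := t2 p (mT p k1).1
    obtain ⟨-, e3, -⟩ := t2 p' (mT p' k3).1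
    rw [k2, (mT p k1).2.1] at e1 e2
    rw [k4, (mT p' k3).2.1] at e3
    have u0 : (F.UU a u).coeff 0 = 0 :=
      (mul_eq_zero.1 (show (F.UU a u).coeff 0 * (p - p') = 0 by
        linear_combination e3 - e1)).resolve_right (sub_ne_zero.2 hn)
    rw [e1, u0, map_zero, mul_zero, zero_mul, zero_add, ← map_add] at e2
    exact (g2 u (mS u hu)).2 u0 (h0.trans ((map_eq_zero _).1
      ((mul_eq_zero.1 e2.symm).resolve_right (mT p k1).1)))

end Pool.Agent.MP_e262d6_nt.DW
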