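import Pool.Agent.MP_e262d6_nt.DW.Spec

/-! Project DW, row LIFTS: every reduced pair has a lift, a scalar one has `r + 1` lifts. -/

set_option autoImplicit false
set_option linter.unusedSectionVars false

noncomputable section

namespace Pool.Agent.MP_e262d6_nt.DW

open Finset Polynomial Pool.Agent.MP_e262d6_nt.H61

namespace Lifts

variable {K : Type} [Field K]

theorem nf_add [CharP K 2] (P h U V : K[X]) (k : K) :
    nf P h (V + C k * U) = nf P h V + U * (C k ^ 2 * U + C k * h) := by
  have h2 : (2 : K[X]) = 0 := CharTwo.two_eq_zero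
  unfold nf
  linear_combination (V * C k * U) * h2

theorem nf_c0 (P h V : K[X]) :
    (nf P h V).coeff 0 = V.coeff 0 ^ 2 + h.coeff 0 * V.coeff 0 + P.coeff 0 := by
  simp only [nf, pow_two, coeff_add, mul_coeff_zero]

theorem q2_c0 (a b c : K) : (q2 a b c).coeff 0 = a := by
  simp [q2]

theorem eq_q2 (p : K[X]) (hp : p.natDegree ≤ 2) :
    p = q2 (p.coeff 0) (p.coeff 1) (p.coeff 2) := by
  ext n
  rcases n with _ | _ | _ | n
  · simp [q2]
  · simp [q2, coeff_X, coeff_C, coeff_X_pow]
  · simp [q2, coeff_X, coeff_C, coeff_X_pow]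
  · rw [coeff_eq_zero_of_natDegree_lt (by omega)]
    simp [q2, coeff_X, coeff_C, coeff_X_pow]

theorem red2 {U V : K[X]} (hU : U.Monic) (hd : U.natDegree = 2) (hV : V.degree < U.degree) :
    ∃ a b c d : K, U = q2 a b 1 ∧ V = q2 c d 0 := by
  have h1 : U.coeff 2 = 1 := by
    have := hU.coeff_natDegree
    rwa [hd] at this
  have hdU : U.degree = 2 := by
    rw [degree_eq_natDegree hU.ne_zero, hd]; rfl
  rw [hdU] at hV
  have h2 : V.coeff 2 = 0 := coeff_eq_zero_of_degree_lt hV
  have h3 : V.natDegree ≤ 2 := natDegree_le_of_degree_le hV.le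
  refine ⟨U.coeff 0, U.coeff 1, V.coeff 0, V.coeff 1, ?_, ?_⟩
  · rw [← h1]; exact eq_q2 U hd.le
  · rw [← h2]; exact eq_q2 V h3

theorem red1 {U V : K[X]} (hU : U.Monic) (hd : U.natDegree = 1) (hV : V.degree < U.degree) :
    ∃ t c : K, U = X + C t ∧ V = C c := by
  have hdU : U.degree = 1 := by
    rw [degree_eq_natDegree hU.ne_zero, hd]; rfl
  rw [hdU] at hV
  refine ⟨U.coeff 0, V.coeff 0, hU.eq_X_add_C hd, ?_⟩
  apply eq_C_of_degree_le_zero
  exact Order.lt_succ_iff.mp hV

theorem red0 {U V : K[X]} (hU : U.Monic) (hd : U.natDegree = 0) (hV : V.degree < U.degree) :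
    U = 1 ∧ V = 0 := by
  have h1 : U = 1 := hU.natDegree_eq_zero.mp hd
  refine ⟨h1, ?_⟩
  rw [h1, degree_one] at hV
  by_contra h0
  rw [degree_eq_natDegree h0] at hV
  exact absurd hV (by simp)

variable [Fintype K] [DecidableEq K]

open Classical in
/-- the admissible shifts of a pair -/
def ks (P h : K[X]) (v : K) (U V : K[X]) : Finset K :=
  univ.filter fun k => (V + C k * U).coeff 0 = v ∧ X * U ∣ nf P h (V + C k * U)

open Classical in
theorem wt_le [CharP K 2] (P h : K[X]) (v : K) (hv : v ≠ 0)
    (hq : v ^ 2 + h.coeff 0 * v + P.coeff 0 = 0) (U V : K[X]) (hd : U ∣ nf P h V) :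
    (if Scal P h U V then Fintype.card K + 1 else 1) ≤
      (ks P h v U V).card + if U.coeff 0 = 0 ∧ V.coeff 0 = P.coeff 0 / v then 1 else 0 := by
  have h2 : (2 : K) = 0 := CharTwo.two_eq_zero
  obtain ⟨W, hW⟩ := hd
  have key : ∀ k : K, V.coeff 0 + k * U.coeff 0 = v →
      W.coeff 0 + (k ^ 2 * U.coeff 0 + k * h.coeff 0) = 0 → k ∈ ks P h v U V := by
    intro k hk1 hk2
    unfold ks
    rw [mem_filter]
    refine ⟨mem_univ _, ?_, ?_⟩
    · rw [coeff_add, coeff_C_mul, hk1]
    · rw [nf_add, hW, ← mul_add, mul_comm X U]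
      apply mul_dvd_mul_left
      rw [X_dvd_iff, ← C_pow, coeff_add, coeff_add, coeff_C_mul, coeff_C_mul, hk2]
  have hW0 : V.coeff 0 ^ 2 + h.coeff 0 * V.coeff 0 + P.coeff 0 = U.coeff 0 * W.coeff 0 := by
    rw [← nf_c0, hW, mul_coeff_zero]
  by_cases hS : Scal P h U V
  · rw [if_pos hS]
    obtain ⟨hX, h0, hXU⟩ := hS
    have hU0 : U.coeff 0 = 0 := X_dvd_iff.mp hX
    have hVv : V.coeff 0 = v := by
      have : (V.coeff 0 - v) ^ 2 = 0 := by
        rw [hU0, h0] at hW0
        rw [h0] at hq
        linear_combination hW0 + hq - (V.coeff 0 * v + P.coeff 0) * h2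
      exact sub_eq_zero.mp (pow_eq_zero_iff two_ne_zero |>.mp this)
    have hP : P.coeff 0 / v = v := by
      rw [div_eq_iff hv]
      rw [h0] at hq
      linear_combination hq - v ^ 2 * h2
    rw [if_pos ⟨hU0, by rw [hP, hVv]⟩]
    have : ks P h v U V = univ := by
      unfold ks
      apply filter_true_of_mem
      intro k _
      refine ⟨by rw [coeff_add, coeff_C_mul, hU0, hVv, mul_zero, add_zero], ?_⟩
      rw [nf_add]
      refine dvd_add hXU ?_
      rw [mul_comm X U]
      apply mul_dvd_mul_left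
      exact dvd_add (hX.mul_left _) ((X_dvd_iff.mpr h0).mul_left _)
    rw [this, card_univ]
  · rw [if_neg hS]
    by_cases hb : U.coeff 0 = 0 ∧ V.coeff 0 = P.coeff 0 / v
    · rw [if_pos hb]; omega
    · rw [if_neg hb, add_zero]
      apply card_pos.mpr
      by_cases hU0 : U.coeff 0 = 0
      · have hne : V.coeff 0 ≠ P.coeff 0 / v := fun e => hb ⟨hU0, e⟩
        have hne2 : V.coeff 0 * v - P.coeff 0 ≠ 0 := by
          intro e
          apply hne
          rw [eq_div_iff hv]
          linear_combination e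
        have hVv : V.coeff 0 = v := by
          have : (V.coeff 0 - v) * (V.coeff 0 * v - P.coeff 0) = 0 := by
            rw [hU0] at hW0
            linear_combination v * hW0 - V.coeff 0 * hq
          exact sub_eq_zero.mp ((mul_eq_zero.mp this).resolve_right hne2)
        have h0 : h.coeff 0 ≠ 0 := by
          intro e
          apply hne2
          rw [e] at hq
          rw [hVv]
          linear_combination hq - P.coeff 0 * h2
        refine ⟨-W.coeff 0 / h.coeff 0, key _ ?_ ?_⟩
        · rw [hU0, hVv, mul_zero, add_zero]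
        · rw [hU0]; field_simp; ring
      · refine ⟨(v - V.coeff 0) / U.coeff 0, key _ ?_ ?_⟩
        · field_simp; ring
        · apply mul_left_cancel₀ hU0
          have e : (v - V.coeff 0) / U.coeff 0 * U.coeff 0 = v - V.coeff 0 := by field_simp
          generalize (v - V.coeff 0) / U.coeff 0 = k at e
          have e2 : v = k * U.coeff 0 + V.coeff 0 := by linear_combination -e
          rw [e2] at hq
          linear_combination hq - hW0 - (k * U.coeff 0 * V.coeff 0) * h2

theorem fib_le {α β : Type} [DecidableEq β] (T : Finset α) (π : α → β) (S : Finset β) :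
    ∑ x ∈ S, (T.filter fun z => π z = x).card ≤ T.card := by
  rw [sum_card_fiberwise_eq_card_filter]
  exact card_filter_le _ _

theorem one_le {β : Type} [DecidableEq β] (y : β) (n : ℕ) (S : Finset β) :
    ∑ x ∈ S, (if y = x then n else 0) ≤ n := by
  rw [sum_ite_eq]
  split_ifs <;> omega

/-- projection of the stratum of degree two -/
def p2 (v : K) (z : K × K × K × K) : K[X] × K[X] :=
  (q2 z.1 z.2.1 1, q2 v z.2.2.1 z.2.2.2 - C z.2.2.2 * q2 z.1 z.2.1 1)

/-- projection of the stratum of degree one -/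
def p1 (v : K) (z : K × K) : K[X] × K[X] :=
  (X + C z.1, q2 v z.2 0 - C z.2 * (X + C z.1))

/-- projection of the second stratum of degree one -/
def r1 (w : K) (z : K × K) : K[X] × K[X] := (X * (X + C z.1), q2 w z.2 0)

open Classical in
/-- the points of the stratum of degree two -/
def T2 (P h : K[X]) (v : K) : Finset (K × K × K × K) :=
  univ.filter fun x : K × K × K × K => X * q2 x.1 x.2.1 1 ∣ nf P h (q2 v x.2.2.1 x.2.2.2)

open Classical in
/-- the points of the stratum of degree one -/
def T1 (P h : K[X]) (v : K) : Finset (K × K) :=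
  univ.filter fun x : K × K => X * (X + C x.1) ∣ nf P h (q2 v x.2 0)

open Classical in
theorem ks_le (P h : K[X]) (v : K) (U V : K[X]) (hR : Red P h U V) :
    (ks P h v U V).card ≤ ((T2 P h v).filter fun z => p2 v z = (U, V)).card +
      ((T1 P h v).filter fun z => p1 v z = (U, V)).card +
      if ((1, 0) : K[X] × K[X]) = (U, V) then n0 P h v else 0 := by
  obtain ⟨hU, hd, hV, -⟩ := hR
  have hc : U.natDegree = 0 ∨ U.natDegree = 1 ∨ U.natDegree = 2 := by omega
  rcases hc with hc | hc | hc
  · obtain ⟨rfl, rfl⟩ := red0 hU hc hV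
    rw [if_pos rfl]
    refine le_trans ?_ (Nat.le_add_left _ _)
    unfold n0
    split_ifs with hx
    · apply card_le_one.mpr
      intro a ha b hb
      unfold ks at ha hb
      rw [mem_filter] at ha hb
      have e1 := ha.2.1
      have e2 := hb.2.1
      simp only [zero_add, mul_one, coeff_C_zero] at e1 e2
      rw [e1, e2]
    · apply le_of_eq
      rw [card_eq_zero, eq_empty_iff_forall_notMem]
      intro a ha
      unfold ks at ha
      rw [mem_filter] at ha
      have e1 := ha.2.1
      have e2 := ha.2.2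
      simp only [zero_add, mul_one, coeff_C_zero] at e1 e2
      rw [e1] at e2
      exact hx e2
  · obtain ⟨t, c, rfl, rfl⟩ := red1 hU hc hV
    refine le_trans ?_ (Nat.le_add_right _ _)
    refine le_trans ?_ (Nat.le_add_left _ _)
    apply card_le_card_of_injOn (fun k => (t, k))
    · intro k hk
      unfold ks at hk
      rw [mem_coe, mem_filter] at hk
      obtain ⟨-, e1, e2⟩ := hk
      have e3 : C c + C k * (X + C t) = q2 v k 0 := by
        rw [← e1]
        simp only [q2, coeff_add, coeff_C_mul, coeff_C_zero, coeff_X_zero, map_add, map_mul,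
          map_zero]
        ring
      rw [mem_coe, mem_filter]
      refine ⟨?_, ?_⟩
      · unfold T1
        rw [mem_filter]
        exact ⟨mem_univ _, by rw [← e3]; exact e2⟩
      · unfold p1
        simp only [← e3, add_sub_cancel_right]
    · intro a _ b _ hab
      exact (Prod.ext_iff.mp hab).2
  · obtain ⟨a, b, c, d, rfl, rfl⟩ := red2 hU hc hV
    refine le_trans ?_ (Nat.le_add_right _ _)
    refine le_trans ?_ (Nat.le_add_right _ _)
    apply card_le_card_of_injOn (fun k => (a, b, d + k * b, k))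
    · intro k hk
      unfold ks at hk
      rw [mem_coe, mem_filter] at hk
      obtain ⟨-, e1, e2⟩ := hk
      have e3 : q2 c d 0 + C k * q2 a b 1 = q2 v (d + k * b) k := by
        rw [← e1, coeff_add, coeff_C_mul, q2_c0, q2_c0]
        simp only [q2, map_add, map_mul, map_zero, map_one]
        ring
      rw [mem_coe, mem_filter]
      refine ⟨?_, ?_⟩
      · unfold T2
        rw [mem_filter]
        exact ⟨mem_univ _, by rw [← e3]; exact e2⟩
      · unfold p2
        simp only [← e3, add_sub_cancel_right]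
    · intro x _ y _ hxy
      exact (Prod.ext_iff.mp (Prod.ext_iff.mp (Prod.ext_iff.mp hxy).2).2).2

open Classical in
theorem b_le (P h : K[X]) (w : K) (U V : K[X]) (hR : Red P h U V) :
    (if U.coeff 0 = 0 ∧ V.coeff 0 = w then 1 else 0) ≤
      ((T1 P h w).filter fun z => r1 w z = (U, V)).card +
      if ((X, C w) : K[X] × K[X]) = (U, V) then n0 P h w else 0 := by
  by_cases hb : U.coeff 0 = 0 ∧ V.coeff 0 = w
  swap
  · rw [if_neg hb]; omega
  rw [if_pos hb]
  obtain ⟨hU, hd, hV, hD⟩ := hR
  obtain ⟨hU0, hV0⟩ := hb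
  have hc : U.natDegree = 0 ∨ U.natDegree = 1 ∨ U.natDegree = 2 := by omega
  rcases hc with hc | hc | hc
  · obtain ⟨rfl, rfl⟩ := red0 hU hc hV
    simp at hU0
  · obtain ⟨t, c, rfl, rfl⟩ := red1 hU hc hV
    have ht : t = 0 := by simpa using hU0
    have hcw : c = w := by simpa using hV0
    subst ht hcw
    rw [map_zero, add_zero] at hD ⊢
    rw [if_pos rfl]
    unfold n0
    rw [if_pos hD]
    omega
  · obtain ⟨a, b, c, d, rfl, rfl⟩ := red2 hU hc hV
    rw [q2_c0] at hU0 hV0
    subst hU0 hV0
    have e : q2 0 b 1 = X * (X + C b) := by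
      simp only [q2, map_zero, map_one]
      ring
    refine le_trans ?_ (Nat.le_add_right _ _)
    apply card_pos.mpr
    refine ⟨(b, d), ?_⟩
    rw [mem_filter]
    refine ⟨?_, ?_⟩
    · unfold T1
      rw [mem_filter]
      exact ⟨mem_univ _, by rw [← e]; exact hD⟩
    · unfold r1
      simp only [← e]

end Lifts

open Lifts in
theorem lifts : LIFTS := by
  classical
  intro K _ _ _ _ P h v hv hq S hS
  have h1 := fib_le (T2 P h v) (p2 v) S
  have h2 := fib_le (T1 P h v) (p1 v) S
  have h3 := one_le ((1, 0) : K[X] × K[X]) (n0 P h v) S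
  have h4 := fib_le (T1 P h (P.coeff 0 / v)) (r1 (P.coeff 0 / v)) S
  have h5 := one_le ((X, C (P.coeff 0 / v)) : K[X] × K[X]) (n0 P h (P.coeff 0 / v)) S
  have e : cB P h v = (T2 P h v).card + (T1 P h v).card + n0 P h v +
      ((T1 P h (P.coeff 0 / v)).card + n0 P h (P.coeff 0 / v)) := by
    unfold cB n2 n1 T2 T1
    omega
  rw [e]
  refine le_trans ?_ (add_le_add (add_le_add (add_le_add h1 h2) h3) (add_le_add h4 h5))
  rw [← sum_add_distrib, ← sum_add_distrib, ← sum_add_distrib, ← sum_add_distrib]
  apply sum_le_sum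
  intro x hx
  have a1 := wt_le P h v hv hq x.1 x.2 (hS x hx).2.2.2
  have a2 := ks_le P h v x.1 x.2 (hS x hx)
  have a3 := b_le P h (P.coeff 0 / v) x.1 x.2 (hS x hx)
  refine le_trans a1 (add_le_add ?_ ?_)
  · convert a2
  · convert a3

end Pool.Agent.MP_e262d6_nt.DW
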