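import Pool.Agent.MP_e262d6_nt.DW.Spec

/-! Project DW: the formula with the coefficient in the small field. -/

set_option autoImplicit false

namespace Pool.Agent.MP_e262d6_nt.DW

open Finset Polynomial Pool.Agent.MP_e262d6_nt.H61

theorem main (h1 : SUB) (h2 : KA) (h3 : Z1) (h4 : Z2) (h5 : CHP) (h6 : GEN) (h7 : KL) : MAIN := by
  intro K L _ _ _ _ _ _ _ _ _ F C b a hb
  rw [h1 K L F C b a hb]
  by_cases ha : F.σ a = a
  · obtain ⟨c, rfl⟩ := F.fix a ha
    have inj := (algebraMap K L).injective
    have t : Algebra.trace K L (algebraMap K L c) = c := inj (by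
      rw [F.tr, ha, ha, ha, ha, CharTwo.add_self_eq_zero, zero_add, CharTwo.add_self_eq_zero,
        zero_add])
    have e2 : F.e2 (algebraMap K L c) = 0 := by
      rw [Fv.e2, ha, ha, CharTwo.add_self_eq_zero, map_zero]
    have e3 : F.e3 (algebraMap K L c) = 0 := by
      rw [Fv.e3, ha, ha, ha, CharTwo.add_self_eq_zero, map_zero]
    have n : ∀ d : K, Algebra.norm K (algebraMap K L c + algebraMap K L d) = (c + d) ^ 5 :=
      fun d => by rw [← map_add, Algebra.norm_algebraMap, F.rank]
    rw [t, e2, e3, n]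
    by_cases hc : c = 0
    · rw [if_pos hc, hc, map_zero, h3 K L F C, h4 K L F C _ (inv_ne_zero hb)]
      exact congrArg _ (sum_congr rfl fun j _ => congrArg _ (by ring))
    · rw [if_neg hc, h2 K L F C b c hb hc, zero_div, zero_add, mul_assoc]
      simp only [inj.eq_iff]
  · rw [h6 K L F C b a hb ha]
    congr 1
    by_cases ht : Algebra.trace K L a = 0
    · rw [if_pos ht, ht, Rj]
      refine sum_congr rfl fun j _ => ?_
      have e : b + 0 ^ 2 * j = b := by ring
      rw [e, if_neg hb]
      exact congrArg _ (by ring)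
    · rw [if_neg ht, h7 K C b _ _ _ _ _ hb ht, if_neg fun e => ha (by rw [e, F.fixK]), sub_zero,
        ← (h5 K L F a).2.2.2.1]
      simp only [Fv.cp, eval_add, eval_mul, eval_pow, eval_X, eval_C]

end Pool.Agent.MP_e262d6_nt.DW
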