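import Pool.Agent.MP_e262d6_nt.DW.Spec

/-! Project DW: the small strata. -/

set_option autoImplicit false
set_option linter.unusedSectionVars false

noncomputable section

namespace Pool.Agent.MP_e262d6_nt.DW

open Finset Polynomial Pool.Agent.MP_e262d6_nt.H61

namespace N10

variable {K : Type} [Field K] [Fintype K] [DecidableEq K] [CharP K 2]

theorem dvd_iff (a t : K) (g : K[X]) :
    X * (X + C t) ∣ C a + X * g ↔ a = 0 ∧ g.eval t = 0 := by
  have e : (X + C t : K[X]) = X - C t := by
    rw [sub_eq_add_neg, ← C_neg, CharTwo.neg_eq]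
  constructor
  · intro h
    have h0 : a = 0 := by
      have := X_dvd_iff.1 ((dvd_mul_right X _).trans h)
      simpa using this
    subst h0
    rw [C_0, zero_add, mul_dvd_mul_iff_left X_ne_zero, e, dvd_iff_isRoot] at h
    exact ⟨rfl, h⟩
  · rintro ⟨rfl, h⟩
    rw [C_0, zero_add, mul_dvd_mul_iff_left X_ne_zero, e, dvd_iff_isRoot]
    exact h

theorem nf_eq (P : K[X]) (h0 h1 h2 v v1 : K) :
    nf P (q2 h0 h1 h2) (q2 v v1 0) = C (v ^ 2 + h0 * v + P.coeff 0) +
      X * (C (2 * v * v1) + C (v1 ^ 2) * X + C (h0 * v1) + (C h1 + C h2 * X) * (C v + C v1 * X) +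
        P.divX) := by
  have := divX_mul_X_add P
  simp only [nf, q2, map_add, map_mul, map_pow, C_0, map_ofNat]
  linear_combination (-1 : K[X]) * this

theorem no_root {P : K[X]} (h5 : P.natDegree = 5) (hi : Irreducible P) (t : K) : P.eval t ≠ 0 := by
  intro h
  have := degree_eq_one_of_irreducible_of_root hi h
  rw [degree_eq_natDegree hi.ne_zero, h5] at this
  exact absurd this (by decide)

theorem root_iff {v : K} (hv : v ≠ 0) (h0 p : K) :
    v ^ 2 + h0 * v + p = 0 ↔ h0 = v + p / v := by
  constructor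
  · intro h
    field_simp
    linear_combination h - (v ^ 2 + p) * (two_zero (K := K))
  · rintro rfl
    field_simp
    linear_combination (v ^ 2 + p) * (two_zero (K := K))

theorem cond_iff {P : K[X]} (h5 : P.natDegree = 5) (hi : Irreducible P) {v : K} (hv : v ≠ 0)
    (t v1 h0 h1 h2 : K) :
    X * (X + C t) ∣ nf P (q2 h0 h1 h2) (q2 v v1 0) ↔ v + v1 * t ≠ 0 ∧ h0 = v + P.coeff 0 / v ∧
      h1 = (v1 ^ 2 * t + (v + P.coeff 0 / v) * v1 + P.divX.eval t) / (v + v1 * t) + h2 * t := by
  rw [nf_eq, dvd_iff, root_iff hv]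
  simp only [eval_add, eval_mul, eval_C, eval_X]
  have hP : P.divX.eval t * t + P.coeff 0 = P.eval t := by
    conv_rhs => rw [← divX_mul_X_add P]
    simp
  constructor
  · rintro ⟨rfl, h⟩
    have hd : v + v1 * t ≠ 0 := fun hd => by
      apply no_root h5 hi t
      have e : P.coeff 0 / v * v = P.coeff 0 := div_mul_cancel₀ _ hv
      linear_combination t * h - hP - e - (t * (h1 + h2 * t) + v1 * t + 2 * v + P.coeff 0 / v) * hd +
        (v ^ 2 + P.coeff 0 / v * v) * (two_zero (K := K))
    refine ⟨hd, rfl, ?_⟩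
    generalize P.coeff 0 / v = w at h ⊢
    field_simp
    linear_combination h - (v * v1 + v1 ^ 2 * t + (v + w) * v1 + P.divX.eval t +
      h2 * t * (v + v1 * t)) * (two_zero (K := K))
  · rintro ⟨hd, rfl, rfl⟩
    refine ⟨rfl, ?_⟩
    generalize P.coeff 0 / v = w
    field_simp
    linear_combination (v * v1 + v1 ^ 2 * t + (v + w) * v1 + P.divX.eval t +
      h2 * t * (v + v1 * t)) * (two_zero (K := K))

theorem count {v : K} (hv : v ≠ 0) :
    ∑ x : K × K, (if v + x.2 * x.1 ≠ 0 then (1 : ℝ) else 0) =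
      ((Fintype.card K : ℝ) - 1) ^ 2 + Fintype.card K := by
  have h1 : ∀ t : K, ∑ v1 : K, (if v + v1 * t ≠ 0 then (1 : ℝ) else 0) =
      Fintype.card K - 1 + if t = 0 then 1 else 0 := by
    intro t
    by_cases ht : t = 0
    · simp [ht, hv]
    · have : ∀ v1 : K, (if v + v1 * t ≠ 0 then (1 : ℝ) else 0) =
          1 - if v1 = -v / t then 1 else 0 := by
        intro v1
        by_cases h : v1 = -v / t
        · have : v + v1 * t = 0 := by rw [h]; field_simp; ring
          simp [this, h.symm]
        · have : v + v1 * t ≠ 0 := fun e => h (by field_simp; linear_combination e)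
          simp [this, h]
      simp [this, ht, sum_sub_distrib]
  rw [Fintype.sum_prod_type]
  simp only [h1, sum_add_distrib, sum_const, card_univ, nsmul_eq_mul, sum_ite_eq', mem_univ,
    if_true]
  ring

end N10

theorem n10 : N10 := by
  intro K _ _ _ _ Ch P _ h5 hi v γ hv
  classical
  have hs : ∑ x : K, Ch.ψ (γ * x) = if γ = 0 then (Fintype.card K : ℝ) else 0 := by
    simpa only [mul_comm] using Ch.sum_mul γ
  constructor
  · have key : ∀ x : K × K, ∑ h : K × K × K, Ch.ψ (γ * h.2.2) *
        (if X * (X + C x.1) ∣ nf P (q2 h.1 h.2.1 h.2.2) (q2 v x.2 0) then (1 : ℝ) else 0) =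
        (if v + x.2 * x.1 ≠ 0 then (1 : ℝ) else 0) * ∑ y : K, Ch.ψ (γ * y) := by
      intro x
      simp only [N10.cond_iff h5 hi hv]
      by_cases hd : v + x.2 * x.1 = 0
      · simp [hd]
      · rw [Fintype.sum_prod_type, sum_comm, Fintype.sum_prod_type, sum_comm]
        simp [hd, ite_and]
    simp only [n1, card_filter, Nat.cast_sum, Nat.cast_ite, Nat.cast_one, Nat.cast_zero, mul_sum]
    rw [sum_comm]
    rw [sum_congr rfl fun x _ => by convert key x, ← sum_mul, N10.count hv, hs]
    split_ifs <;> ring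
  · have key : ∀ h : K × K × K, (n0 P (q2 h.1 h.2.1 h.2.2) v : ℝ) =
        if h.1 = v + P.coeff 0 / v then 1 else 0 := by
      intro h
      have : X ∣ nf P (q2 h.1 h.2.1 h.2.2) (C v) ↔ h.1 = v + P.coeff 0 / v := by
        rw [X_dvd_iff, ← N10.root_iff hv]
        simp [nf, q2, pow_two, mul_coeff_zero]
      simp only [n0, this]
      split_ifs <;> simp
    simp only [key]
    rw [Fintype.sum_prod_type, sum_comm, Fintype.sum_prod_type]
    simp only [mul_ite, mul_one, mul_zero, sum_ite_eq', mem_univ, if_true, hs, sum_const,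
      card_univ, nsmul_eq_mul]
    split_ifs <;> ring

end Pool.Agent.MP_e262d6_nt.DW
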