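import Mathlib
import Pool.Agent.MP_e262d6_nt.h61.Build

/-! Project DW: the Walsh transform of the Dobbertin function. Definitions and row statements. -/

set_option autoImplicit false
set_option linter.unusedSectionVars false

noncomputable section

namespace Pool.Agent.MP_e262d6_nt.DW

open Finset Polynomial Pool.Agent.MP_e262d6_nt.H61

section defs

variable {K : Type} [Field K]

/-- the general polynomial of degree at most two -/
def q2 (a b c : K) : K[X] := C a + C b * X + C c * X ^ 2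

/-- the norm form of the order `Y ^ 2 + h Y + P = 0` at `V + Y` -/
def nf (P h V : K[X]) : K[X] := V ^ 2 + h * V + P

/-- a reduced pair -/
def Red (P h U V : K[X]) : Prop :=
  U.Monic ∧ U.natDegree ≤ 2 ∧ V.degree < U.degree ∧ U ∣ nf P h V

/-- a pair that is scalar at zero -/
def Scal (P h U V : K[X]) : Prop := X ∣ U ∧ h.coeff 0 = 0 ∧ X * U ∣ nf P h V

/-- the twisted relation between a pair and its image under `σ` -/
structure Tw (σ : K →+* K) (a : K) (P h : K[X]) (u : K) (U V : K[X]) : Prop where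
  mon : U.Monic
  deg : U.natDegree = 2
  degV : V.natDegree ≤ 2
  dvd : X + C a ∣ V
  nrm : nf P h V = U * ((X + C a) * U.map σ)
  lin : V + V.map σ + h = C u * U.map σ

variable [Fintype K] [DecidableEq K]

open Classical in
/-- the stratum of degree two -/
def n2 (P h : K[X]) (v : K) : ℕ :=
  (univ.filter fun x : K × K × K × K =>
    X * q2 x.1 x.2.1 1 ∣ nf P h (q2 v x.2.2.1 x.2.2.2)).card

open Classical in
/-- the stratum of degree one -/
def n1 (P h : K[X]) (v : K) : ℕ :=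
  (univ.filter fun x : K × K => X * (X + C x.1) ∣ nf P h (q2 v x.2 0)).card

open Classical in
/-- the stratum of degree zero -/
def n0 (P h : K[X]) (v : K) : ℕ := if X ∣ nf P h (C v) then 1 else 0

/-- the total count -/
def cB (P h : K[X]) (v : K) : ℕ :=
  n2 P h v + n1 P h v + n0 P h v + n1 P h (P.coeff 0 / v) + n0 P h (P.coeff 0 / v)

open Classical in
/-- the normalised sum over the stratum of degree two, with `v2` given -/
def Zs (C : Chr K) (P : K[X]) (β v2 : K) : ℝ :=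
  ∑ v1 : K, ∑ w1 : K, ∑ w2 : K, ∑ U0 : K, ∑ U1 : K,
    if X * q2 U0 U1 1 ∣ q2 1 v1 v2 * q2 (P.coeff 0) w1 w2 + P then C.ψ (w2 * β) else 0

/-- the short sum; `t e2 e3 e4 e5` are the coefficients of `P` -/
def Rj (C : Chr K) (b t e2 e3 e4 e5 : K) : ℝ :=
  ∑ j : K, if b + t ^ 2 * j = 0 then 0 else
    C.ψ ((j ^ 3 + t * j ^ 2 + e2 * j + e3 + e4 * (t ^ 2 / b) + e5 * (t ^ 2 / b) ^ 2) /
      (b + t ^ 2 * j))

/-- the Kloosterman sum -/
def Klo (C : Chr K) (c : K) : ℝ := ∑ z ∈ U K, C.ψ (z + c / z)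

/-- the phase on five variables -/
def ph5 (y0 y1 y2 y3 y4 : K) : K :=
  y4 * y0 * y1 + y0 * y1 * y2 + y1 * y2 * y3 + y2 * y3 * y4 + y3 * y4 * y0 +
    (y0 * y1 + y1 * y2 + y2 * y3 + y3 * y4 + y4 * y0)

/-- the sum over the whole space -/
def Full (C : Chr K) (κ : K) : ℝ :=
  ∑ y0 : K, ∑ y1 : K, ∑ y2 : K, ∑ y3 : K, ∑ y4 : K, C.ψ (κ * ph5 y0 y1 y2 y3 y4)

/-- the split sum in three variables -/
def T3 (C : Chr K) (κ : K) : ℝ :=
  ∑ u0 ∈ U K, ∑ u1 ∈ U K, ∑ u2 ∈ U K, C.ψ (κ * (u0 * u1 * u2) * (D u0 + D u1 + D u2))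

/-- the split sum in five variables -/
def T5 (C : Chr K) (κ : K) : ℝ :=
  ∑ u0 ∈ U K, ∑ u1 ∈ U K, ∑ u2 ∈ U K, ∑ u3 ∈ U K, ∑ u4 ∈ U K,
    C.ψ (κ * (u0 * u1 * u2 * u3 * u4) * (D u0 + D u1 + D u2 + D u3 + D u4))

end defs

/-- an extension of degree five of finite fields with its Frobenius map -/
structure Fv (K L : Type) [Field K] [Fintype K] [Field L] [Algebra K L] where
  σ : L →+* L
  pw : ∀ x, σ x = x ^ Fintype.card K
  five : ∀ x, σ (σ (σ (σ (σ x)))) = x
  fixK : ∀ c, σ (algebraMap K L c) = algebraMap K L c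
  fix : ∀ x, σ x = x → ∃ c, algebraMap K L c = x
  tr : ∀ x, algebraMap K L (Algebra.trace K L x) =
    x + σ x + σ (σ x) + σ (σ (σ x)) + σ (σ (σ (σ x)))
  nm : ∀ x, algebraMap K L (Algebra.norm K x) =
    x * σ x * σ (σ x) * σ (σ (σ x)) * σ (σ (σ (σ x)))
  rank : Module.finrank K L = 5

namespace Fv

variable {K L : Type} [Field K] [Fintype K] [Field L] [Algebra K L] (F : Fv K L)

/-- the second symmetric function of the conjugates -/
def e2 (a : L) : K := Algebra.trace K L (a * F.σ a + a * F.σ (F.σ a))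

/-- the third symmetric function of the conjugates -/
def e3 (a : L) : K :=
  Algebra.trace K L (a * F.σ a * F.σ (F.σ a) + a * F.σ a * F.σ (F.σ (F.σ a)))

/-- the fourth symmetric function of the conjugates -/
def e4 (a : L) : K := Algebra.trace K L (a * F.σ a * F.σ (F.σ a) * F.σ (F.σ (F.σ a)))

/-- the characteristic polynomial -/
def cp (a : L) : K[X] :=
  X ^ 5 + C (Algebra.trace K L a) * X ^ 4 + C (F.e2 a) * X ^ 3 + C (F.e3 a) * X ^ 2 +
    C (F.e4 a) * X + C (Algebra.norm K a)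

/-- the trace of the cyclic product of five matrices -/
def hp (a u : L) : K[X] :=
  q2 (Algebra.norm K u + Algebra.trace K L (a * (F.σ u * F.σ (F.σ u) * F.σ (F.σ (F.σ u))) +
      a * F.σ (F.σ a) * F.σ (F.σ (F.σ u))))
    (Algebra.trace K L (u * F.σ u * F.σ (F.σ u) + (a + F.σ (F.σ a)) * F.σ (F.σ (F.σ u))))
    (Algebra.trace K L u)

/-- the lower left entry of the cyclic product -/
def UU (a u : L) : L[X] :=
  C (u * F.σ u * F.σ (F.σ u) * F.σ (F.σ (F.σ u))) +
    (X + C (F.σ a)) * C (F.σ (F.σ u) * F.σ (F.σ (F.σ u))) +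
    (X + C (F.σ (F.σ a))) * C (u * F.σ (F.σ (F.σ u))) +
    (X + C (F.σ (F.σ (F.σ a)))) * C (u * F.σ u) +
    (X + C (F.σ a)) * (X + C (F.σ (F.σ (F.σ a))))

/-- the upper left entry of the cyclic product -/
def VV (a u : L) : L[X] :=
  (X + C a) * (C (F.σ u * F.σ (F.σ u) * F.σ (F.σ (F.σ u))) +
    (X + C (F.σ (F.σ a))) * C (F.σ (F.σ (F.σ u))) + (X + C (F.σ (F.σ (F.σ a)))) * C (F.σ u))

end Fv

/-- the Walsh coefficient with the coefficient `b` in the small field -/
def Wb {K : Type} [Field K] (L : Type) [Field L] [Fintype L] [Algebra K L] (C : Chr K) (b : K)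
    (a : L) : ℝ :=
  ∑ x : L, C.ψ (b * Algebra.norm K x * Algebra.trace K L x⁻¹ ^ 2 + Algebra.trace K L (a * x))

/-- the sum over the punctured big field -/
def Sp {K : Type} [Field K] (L : Type) [Field L] [Fintype L] [DecidableEq L] [Algebra K L]
    (C : Chr K) (β : K) (a : L) : ℝ :=
  ∑ p ∈ U L, C.ψ (β * Algebra.norm K p * Algebra.trace K L (p + a / p))

/-! ### rows over one field -/

open Classical in
/-- unique solution of the congruence -/
def UQ : Prop := ∀ (K : Type) [Field K] [Fintype K] [DecidableEq K] [CharP K 2] (P : K[X]),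
  P.Monic → P.natDegree = 5 → Irreducible P → ∀ (w1 w2 U0 U1 : K),
    (∑ v1 : K, ∑ v2 : K,
      if X * q2 U0 U1 1 ∣ q2 1 v1 v2 * q2 (P.coeff 0) w1 w2 + P then (1 : ℝ) else 0) =
      if IsCoprime (q2 (P.coeff 0) w1 w2) (q2 U0 U1 1) then 1 else 0

open Classical in
/-- the number of monic quadratics prime to a given polynomial -/
def COP : Prop := ∀ (K : Type) [Field K] [Fintype K] [DecidableEq K] (w0 w1 w2 : K), w0 ≠ 0 →
  (∑ U0 : K, ∑ U1 : K, if IsCoprime (q2 w0 w1 w2) (q2 U0 U1 1) then (1 : ℝ) else 0) =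
    (Fintype.card K : ℝ) ^ 2 -
      Fintype.card K * ((univ.filter fun t : K => w0 + w1 * t + w2 * t ^ 2 = 0).card : ℝ) +
      if w2 = 0 then 0 else ((univ.filter fun t : K => w0 + w1 * t + w2 * t ^ 2 = 0).card : ℝ) - 1

/-- the normalised sum over all `v2` -/
def ZP : Prop := ∀ (K : Type) [Field K] [Fintype K] [DecidableEq K] [CharP K 2] (C : Chr K)
  (P : K[X]), P.Monic → P.natDegree = 5 → Irreducible P → ∀ β : K,
    ∑ v2 : K, Zs C P β v2 = if β = 0 then (Fintype.card K : ℝ) ^ 4 - (Fintype.card K : ℝ) ^ 3 +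
      (Fintype.card K : ℝ) ^ 2 - Fintype.card K + 1 else 1

/-- the normalised sum at `v2 = 0` -/
def ZD : Prop := ∀ (K : Type) [Field K] [Fintype K] [DecidableEq K] [CharP K 2] (C : Chr K)
  (P : K[X]), P.Monic → P.natDegree = 5 → Irreducible P → ∀ b : K, b ≠ 0 →
    Zs C P b⁻¹ 0 = Fintype.card K *
      Rj C b (P.coeff 4) (P.coeff 3) (P.coeff 2) (P.coeff 1) (P.coeff 0)

/-- scaling -/
def SC : Prop := ∀ (K : Type) [Field K] [Fintype K] [DecidableEq K] [CharP K 2] (C : Chr K)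
  (P : K[X]), P.coeff 0 ≠ 0 → ∀ β : K,
    ∑ v ∈ U K, ∑ h : K × K × K, C.ψ (β * v * h.2.2) * (n2 P (q2 h.1 h.2.1 h.2.2) v : ℝ) =
      ∑ v2 : K, ((if v2 * β = 0 then (Fintype.card K : ℝ) else 0) - 1) * Zs C P β v2

/-- the small strata -/
def N10 : Prop := ∀ (K : Type) [Field K] [Fintype K] [DecidableEq K] [CharP K 2] (C : Chr K)
  (P : K[X]), P.Monic → P.natDegree = 5 → Irreducible P → ∀ v γ : K, v ≠ 0 →
    (∑ h : K × K × K, C.ψ (γ * h.2.2) * (n1 P (q2 h.1 h.2.1 h.2.2) v : ℝ) =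
      if γ = 0 then Fintype.card K * ((Fintype.card K : ℝ) - 1) ^ 2 + (Fintype.card K : ℝ) ^ 2
        else 0) ∧
    (∑ h : K × K × K, C.ψ (γ * h.2.2) * (n0 P (q2 h.1 h.2.1 h.2.2) v : ℝ) =
      if γ = 0 then (Fintype.card K : ℝ) ^ 2 else 0)

/-- total and phase sum of the count -/
def PT : Prop := ∀ (K : Type) [Field K] [Fintype K] [DecidableEq K] [CharP K 2] (C : Chr K)
  (P : K[X]), P.Monic → P.natDegree = 5 → Irreducible P →
    (∑ v ∈ U K, ∑ h : K × K × K, (cB P (q2 h.1 h.2.1 h.2.2) v : ℝ) =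
      (Fintype.card K : ℝ) ^ 5 - 1) ∧
    ∀ b : K, b ≠ 0 →
      ∑ v ∈ U K, ∑ h : K × K × K, C.ψ (b⁻¹ * v * h.2.2) * (cB P (q2 h.1 h.2.1 h.2.2) v : ℝ) =
        (Fintype.card K : ℝ) ^ 2 *
          Rj C b (P.coeff 4) (P.coeff 3) (P.coeff 2) (P.coeff 1) (P.coeff 0) - 1

open Classical in
/-- every reduced pair has a lift, a scalar one has `r + 1` lifts -/
def LIFTS : Prop := ∀ (K : Type) [Field K] [Fintype K] [DecidableEq K] [CharP K 2] (P h : K[X])
  (v : K), v ≠ 0 → v ^ 2 + h.coeff 0 * v + P.coeff 0 = 0 → ∀ S : Finset (K[X] × K[X]),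
    (∀ x ∈ S, Red P h x.1 x.2) →
      ∑ x ∈ S, (if Scal P h x.1 x.2 then Fintype.card K + 1 else 1) ≤ cB P h v

/-- the short sum as a Kloosterman sum -/
def KL : Prop := ∀ (K : Type) [Field K] [Fintype K] [DecidableEq K] [CharP K 2] (C : Chr K)
  (b t e2 e3 e4 e5 : K), b ≠ 0 → t ≠ 0 →
    Rj C b t e2 e3 e4 e5 = C.ψ (e2 / t ^ 2 + b / t ^ 3) *
      Klo C (((b / t ^ 2) ^ 5 + t * (b / t ^ 2) ^ 4 + e2 * (b / t ^ 2) ^ 3 + e3 * (b / t ^ 2) ^ 2 +
        e4 * (b / t ^ 2) + e5) / (b * t ^ 2))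

/-- the split sum in three variables -/
def R3 : Prop := ∀ (K : Type) [Field K] [Fintype K] [DecidableEq K] [CharP K 2] (C : Chr K)
  (κ : K), κ ≠ 0 → T3 C κ = (if κ = 1 then (Fintype.card K : ℝ) ^ 2 * C.ψ 1 else 0) -
    3 * Fintype.card K * C.ψ κ - 1

/-- from the torus to the whole space -/
def R5 : Prop := ∀ (K : Type) [Field K] [Fintype K] [DecidableEq K] [CharP K 2] (C : Chr K)
  (κ : K), κ ≠ 0 → T5 C κ = Full C κ - 5 * (Fintype.card K : ℝ) ^ 2 * C.ψ κ -
    5 * Fintype.card K - 1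

/-- the sum over the whole space -/
def FULL : Prop := ∀ (K : Type) [Field K] [Fintype K] [DecidableEq K] [CharP K 2] (C : Chr K)
  (κ : K), κ ≠ 0 → Full C κ = (Fintype.card K : ℝ) ^ 2 *
    (C.ψ κ⁻¹ * Klo C ((κ + 1) ^ 5 / κ ^ 4) - 5 * C.ψ κ) +
      if κ = 1 then 4 * (Fintype.card K : ℝ) ^ 3 * C.ψ 1 else 0

/-! ### rows over the extension -/

/-- the substitution `x = N p / (b p)` -/
def SUB : Prop := ∀ (K L : Type) [Field K] [Fintype K] [DecidableEq K] [CharP K 2] [Field L]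
  [Fintype L] [DecidableEq L] [CharP L 2] [Algebra K L] (_ : Fv K L) (C : Chr K) (b : K) (a : L),
    b ≠ 0 → Wb L C b a = Sp L C b⁻¹ a + 1

/-- lifting in degree five -/
def LIFT : Prop := ∀ (K L : Type) [Field K] [Fintype K] [DecidableEq K] [CharP K 2] [Field L]
  [Fintype L] [DecidableEq L] [CharP L 2] [Algebra K L] (_ : Fv K L) (C : Chr K) (κ : K),
    κ ≠ 0 → Sp L C κ 1 = T5 C κ - 5 * Fintype.card K * T3 C κ -
      5 * (Fintype.card K : ℝ) ^ 2 * C.ψ κ

/-- the case of a point of the small field -/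
def KA : Prop := ∀ (K L : Type) [Field K] [Fintype K] [DecidableEq K] [CharP K 2] [Field L]
  [Fintype L] [DecidableEq L] [CharP L 2] [Algebra K L] (_ : Fv K L) (C : Chr K) (b c : K),
    b ≠ 0 → c ≠ 0 → Sp L C b⁻¹ (algebraMap K L c) + 1 = (Fintype.card K : ℝ) ^ 2 *
      C.ψ (b / c ^ 3) * (Klo C ((c + b / c ^ 2) ^ 5 / (b * c ^ 2)) -
        if c = b / c ^ 2 then (Fintype.card K : ℝ) else 0)

/-- the point zero, first step -/
def Z1 : Prop := ∀ (K L : Type) [Field K] [Fintype K] [DecidableEq K] [CharP K 2] [Field L]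
  [Fintype L] [DecidableEq L] [CharP L 2] [Algebra K L] (_ : Fv K L) (C : Chr K) (β : K),
    Sp L C β 0 + 1 = ∑ p : L, C.ψ (β * Algebra.trace K L (p ^ 3))

/-- the point zero, second step -/
def Z2 : Prop := ∀ (K L : Type) [Field K] [Fintype K] [DecidableEq K] [CharP K 2] [Field L]
  [Fintype L] [DecidableEq L] [CharP L 2] [Algebra K L] (_ : Fv K L) (C : Chr K) (β : K),
    β ≠ 0 → ∑ p : L, C.ψ (β * Algebra.trace K L (p ^ 3)) =
      (Fintype.card K : ℝ) ^ 2 * ∑ j : K, C.ψ (β * j ^ 3)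

/-- the characteristic polynomial of a point outside the small field -/
def CHP : Prop := ∀ (K L : Type) [Field K] [Fintype K] [DecidableEq K] [CharP K 2] [Field L]
  [Fintype L] [DecidableEq L] [CharP L 2] [Algebra K L] (F : Fv K L) (a : L),
    (F.cp a).Monic ∧ (F.cp a).natDegree = 5 ∧
    (F.cp a).map (algebraMap K L) = (X + C a) * (X + C (F.σ a)) * (X + C (F.σ (F.σ a))) *
      (X + C (F.σ (F.σ (F.σ a)))) * (X + C (F.σ (F.σ (F.σ (F.σ a))))) ∧
    (∀ c : K, (F.cp a).eval c = Algebra.norm K (a + algebraMap K L c)) ∧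
    (F.σ a ≠ a → Irreducible (F.cp a) ∧
      ¬ (X + C a) ^ 2 ∣ (F.cp a).map (algebraMap K L))

/-- the explicit pairs -/
def TWD : Prop := ∀ (K L : Type) [Field K] [Fintype K] [DecidableEq K] [CharP K 2] [Field L]
  [Fintype L] [DecidableEq L] [CharP L 2] [Algebra K L] (F : Fv K L) (a : L),
    (∀ u, Tw F.σ a ((F.cp a).map (algebraMap K L)) ((F.hp a u).map (algebraMap K L)) u
      (F.UU a u) (F.VV a u)) ∧
    ∀ p : L, p ≠ 0 →
      (F.hp a (a / p + F.σ p)).coeff 0 = Algebra.norm K p + Algebra.norm K a / Algebra.norm K p ∧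
      (F.VV a (a / p + F.σ p)).coeff 0 =
        (F.UU a (a / p + F.σ p)).coeff 0 * p + algebraMap K L (Algebra.norm K p) ∧
      a * F.σ ((F.UU a (a / p + F.σ p)).coeff 0) =
        ((F.VV a (a / p + F.σ p)).coeff 0 +
          algebraMap K L (Algebra.norm K a / Algebra.norm K p)) * p

/-- the classes: an injection of the twisted pairs into the rational reduced pairs -/
def JAC : Prop := ∀ (K L : Type) [Field K] [Field L] [CharP L 2] [Algebra K L] (σ : L →+* L),
  (∀ c, σ (algebraMap K L c) = algebraMap K L c) → (∀ x, σ x = x → ∃ c, algebraMap K L c = x) →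
  ∀ (a : L) (P h : K[X]), P.Monic → P.natDegree = 5 → h.natDegree ≤ 2 →
    ¬ (X + C a) ^ 2 ∣ P.map (algebraMap K L) → ∀ (S : Set L) (Uf Vf : L → L[X]),
      (∀ u ∈ S, Tw σ a (P.map (algebraMap K L)) (h.map (algebraMap K L)) u (Uf u) (Vf u)) →
      ∃ G : L → K[X] × K[X], Set.InjOn G S ∧ ∀ u ∈ S, Red P h (G u).1 (G u).2 ∧
        ((Uf u).coeff 0 = 0 → h.coeff 0 = 0 → Scal P h (G u).1 (G u).2)

open Classical in
/-- the level sets are at most the count -/
def LEV : Prop := ∀ (K L : Type) [Field K] [Fintype K] [DecidableEq K] [CharP K 2] [Field L]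
  [Fintype L] [DecidableEq L] [CharP L 2] [Algebra K L] (F : Fv K L) (a : L), F.σ a ≠ a →
    ∀ (v : K) (h : K[X]),
      ((U L).filter fun p => Algebra.norm K p = v ∧ F.hp a (a / p + F.σ p) = h).card ≤
        cB (F.cp a) h v

/-- the case of a point outside the small field -/
def GEN : Prop := ∀ (K L : Type) [Field K] [Fintype K] [DecidableEq K] [CharP K 2] [Field L]
  [Fintype L] [DecidableEq L] [CharP L 2] [Algebra K L] (F : Fv K L) (C : Chr K) (b : K) (a : L),
    b ≠ 0 → F.σ a ≠ a → Sp L C b⁻¹ a + 1 = (Fintype.card K : ℝ) ^ 2 *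
      Rj C b (Algebra.trace K L a) (F.e2 a) (F.e3 a) (F.e4 a) (Algebra.norm K a)

/-- the formula with the coefficient in the small field -/
def MAIN : Prop := ∀ (K L : Type) [Field K] [Fintype K] [DecidableEq K] [CharP K 2] [Field L]
  [Fintype L] [DecidableEq L] [CharP L 2] [Algebra K L] (F : Fv K L) (C : Chr K) (b : K) (a : L),
    b ≠ 0 → Wb L C b a = (Fintype.card K : ℝ) ^ 2 *
      if Algebra.trace K L a = 0 then ∑ j : K, C.ψ ((j ^ 3 + F.e2 a * j + F.e3 a) / b)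
      else C.ψ (F.e2 a / Algebra.trace K L a ^ 2 + b / Algebra.trace K L a ^ 3) *
        (Klo C (Algebra.norm K (a + algebraMap K L (b / Algebra.trace K L a ^ 2)) /
            (b * Algebra.trace K L a ^ 2)) -
          if a = algebraMap K L (b / Algebra.trace K L a ^ 2) then (Fintype.card K : ℝ) else 0)

end Pool.Agent.MP_e262d6_nt.DW
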