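import Mathlib
import Pool.Agent.MP_e262d6_nt.DW.Spec

/-! Project DW, row PT: the total and the phase sum of the count. -/

set_option autoImplicit false
set_option linter.unusedSectionVars false

noncomputable section

namespace Pool.Agent.MP_e262d6_nt.DW

open Finset Polynomial Pool.Agent.MP_e262d6_nt.H61

theorem pt_c0 {K : Type} [Field K] (P : K[X]) (hd : P.natDegree = 5) (hi : Irreducible P) :
    P.coeff 0 ≠ 0 := by
  intro h0
  obtain ⟨Q, hQ⟩ := X_dvd_iff.2 h0
  rcases hi.isUnit_or_isUnit hQ with h | h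
  · exact not_isUnit_X h
  · have hQ0 : Q ≠ 0 := h.ne_zero
    have h1 : Q.natDegree = 0 := natDegree_eq_zero_of_isUnit h
    rw [hQ, natDegree_mul X_ne_zero hQ0, natDegree_X, h1] at hd
    omega

theorem pt_split (h1 : SC) (h4 : N10) {K : Type} [Field K] [Fintype K] [DecidableEq K] [CharP K 2]
    (C : Chr K) (P : K[X]) (hm : P.Monic) (hd : P.natDegree = 5) (hi : Irreducible P) (β : K) :
    ∑ v ∈ U K, ∑ h : K × K × K, C.ψ (β * v * h.2.2) * (cB P (q2 h.1 h.2.1 h.2.2) v : ℝ) =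
      ∑ v2 : K, ((if v2 * β = 0 then (Fintype.card K : ℝ) else 0) - 1) * Zs C P β v2 +
        if β = 0 then ((Fintype.card K : ℝ) - 1) *
          (2 * (Fintype.card K * ((Fintype.card K : ℝ) - 1) ^ 2 + (Fintype.card K : ℝ) ^ 2) +
            2 * (Fintype.card K : ℝ) ^ 2) else 0 := by
  have h0 := pt_c0 P hd hi
  rw [← h1 K C P h0 β]
  have key : ∀ v ∈ U K,
      ∑ h : K × K × K, C.ψ (β * v * h.2.2) * (cB P (q2 h.1 h.2.1 h.2.2) v : ℝ) =
        ∑ h : K × K × K, C.ψ (β * v * h.2.2) * (n2 P (q2 h.1 h.2.1 h.2.2) v : ℝ) +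
          if β = 0 then
            (2 * (Fintype.card K * ((Fintype.card K : ℝ) - 1) ^ 2 + (Fintype.card K : ℝ) ^ 2) +
              2 * (Fintype.card K : ℝ) ^ 2) else 0 := by
    intro v hv
    have hv0 := mem_U.1 hv
    obtain ⟨a1, a0⟩ := h4 K C P hm hd hi v (β * v) hv0
    obtain ⟨b1, b0⟩ := h4 K C P hm hd hi (P.coeff 0 / v) (β * v) (div_ne_zero h0 hv0)
    simp only [cB, Nat.cast_add, mul_add, sum_add_distrib]
    rw [a1, a0, b1, b0]
    by_cases hb : β = 0
    · simp only [hb, zero_mul, if_true]; ring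
    · simp only [hb, mul_ne_zero hb hv0, if_false]; ring
  rw [sum_congr rfl key, sum_add_distrib, sum_const, nsmul_eq_mul, card_U]
  by_cases hb : β = 0
  · simp only [hb, if_true]
  · simp only [hb, if_false, mul_zero]

theorem pt (h1 : SC) (h2 : ZP) (h3 : ZD) (h4 : N10) : PT := by
  intro K _ _ _ _ C P hm hd hi
  refine ⟨?_, fun b hb => ?_⟩
  · have h := pt_split h1 h4 C P hm hd hi 0
    have hz := h2 K C P hm hd hi 0
    simp only [zero_mul, mul_zero, if_true, AddChar.map_zero_eq_one, one_mul] at h hz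
    rw [h, ← mul_sum, hz]
    ring
  · have hb' : b⁻¹ ≠ 0 := inv_ne_zero hb
    have hz := h2 K C P hm hd hi b⁻¹
    rw [if_neg hb'] at hz
    rw [pt_split h1 h4 C P hm hd hi b⁻¹, if_neg hb', add_zero]
    simp only [sub_mul, one_mul, sum_sub_distrib, mul_eq_zero, hb', or_false, ite_mul, zero_mul,
      sum_ite_eq', mem_univ, if_true]
    rw [hz, h3 K C P hm hd hi b hb]
    ring

end Pool.Agent.MP_e262d6_nt.DW
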