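import Pool.Agent.MP_e262d6_nt.DW.Spec

/-! Project DW: the split sum in three variables. -/

set_option autoImplicit false
set_option linter.unusedSectionVars false

namespace Pool.Agent.MP_e262d6_nt.DW

open Finset Polynomial Pool.Agent.MP_e262d6_nt.H61

namespace Rthree

variable {K : Type} [Field K] [Fintype K] [DecidableEq K] [CharP K 2]

theorem bij (g : K → K → K → ℝ) :
    ∑ u0 ∈ U K, ∑ u1 ∈ U K, ∑ u2 ∈ U K, g (u1 * u2) (u0 * u2) (u0 * u1) =
      ∑ a ∈ U K, ∑ b ∈ U K, ∑ c ∈ U K, g a b c := by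
  have e : ∀ f : K → K → K → ℝ, ∑ a ∈ U K, ∑ b ∈ U K, ∑ c ∈ U K, f a b c =
      ∑ x ∈ U K ×ˢ U K ×ˢ U K, f x.1 x.2.1 x.2.2 := fun f => by simp only [sum_product]
  rw [e fun u0 u1 u2 => g (u1 * u2) (u0 * u2) (u0 * u1), e g]
  have h1 : Set.MapsTo (fun x : K × K × K => (x.2.1 * x.2.2, x.1 * x.2.2, x.1 * x.2.1))
      (U K ×ˢ U K ×ˢ U K : Finset _) (U K ×ˢ U K ×ˢ U K : Finset _) := by
    intro x hx
    simp only [mem_coe, mem_product, mem_U] at hx ⊢
    exact ⟨mul_ne_zero hx.2.1 hx.2.2, mul_ne_zero hx.1 hx.2.2, mul_ne_zero hx.1 hx.2.1⟩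
  have h2 : Set.InjOn (fun x : K × K × K => (x.2.1 * x.2.2, x.1 * x.2.2, x.1 * x.2.1))
      (U K ×ˢ U K ×ˢ U K : Finset _) := by
    rintro ⟨a, b, c⟩ hx ⟨a', b', c'⟩ - h
    simp only [mem_coe, mem_product, mem_U, Prod.mk.injEq] at hx h
    obtain ⟨k1, k2, k3⟩ := h
    have k4 : a ^ 2 = a' ^ 2 := mul_right_cancel₀ (mul_ne_zero hx.2.1 hx.2.2) (by
      linear_combination (a * b) * k2 + (a' * c') * k3 - a' ^ 2 * k1)
    obtain rfl : a = a' := sq_bij.1 k4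
    rw [mul_left_cancel₀ hx.1 k2, mul_left_cancel₀ hx.1 k3]
  exact sum_nbij _ h1 h2 (surjOn_of_injOn_of_card_le _ h1 h2 le_rfl) fun _ _ => rfl

variable (C : Chr K) {κ : K}

theorem lin (hκ : κ ≠ 0) (s t : K) : ∑ c ∈ U K, C.ψ (s + c * (κ * t)) =
    C.ψ s * ((if t = 0 then (Fintype.card K : ℝ) else 0) - 1) := by
  simp only [C.add, ← mul_sum]
  rw [sum_U, C.sum_mul, zero_mul, C.zero, if_congr (mul_eq_zero.trans (or_iff_right hκ)) rfl rfl]

theorem add_eq {a b : K} : a + b = 0 ↔ b = a := by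
  rw [add_comm, CharTwo.add_eq_zero]

theorem mid (hκ : κ ≠ 0) (a : K) :
    ∑ b ∈ U K, ∑ c ∈ U K, C.ψ (κ * (b * c + a * c + a * b + a + b + c)) =
      Fintype.card K * C.ψ (κ * (a ^ 2 + a + 1)) -
        2 * (if a = 1 then Fintype.card K * C.ψ κ else 0) + C.ψ (a * κ) := by
  have e1 : ∀ b, ∑ c ∈ U K, C.ψ (κ * (b * c + a * c + a * b + a + b + c)) =
      (if b = a + 1 then Fintype.card K * C.ψ (a * κ + b * (κ * (a + 1))) else 0) -
        C.ψ (a * κ + b * (κ * (a + 1))) := fun b => by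
    rw [sum_congr rfl fun c _ => show C.ψ (κ * (b * c + a * c + a * b + a + b + c)) =
      C.ψ (a * κ + b * (κ * (a + 1)) + c * (κ * (a + 1 + b))) by congr 1; ring, lin C hκ,
      if_congr add_eq rfl rfl]
    split_ifs <;> ring
  have e2 : a * κ + (a + 1) * (κ * (a + 1)) = κ * (a ^ 2 + a + 1) := by
    linear_combination (a * κ) * two_zero (K := K)
  have e3 : a + 1 = 0 ↔ a = 1 := add_eq.trans eq_comm
  simp only [e1, sum_sub_distrib]
  rw [lin C hκ, sum_U, sum_ite_eq', if_pos (mem_univ _), e2, if_congr (eq_comm.trans e3) rfl rfl,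
    if_congr e3 rfl rfl, zero_mul, add_zero]
  split_ifs with h
  · rw [h, one_mul]
    ring
  · ring

theorem quad (hκ : κ ≠ 0) : ∑ a, C.ψ (κ * (a ^ 2 + a + 1)) =
    if κ = 1 then Fintype.card K * C.ψ 1 else 0 := by
  have e : ∀ a, C.ψ (κ * (a ^ 2 + a + 1)) = C.ψ κ * C.ψ (a ^ 2 * (κ * (κ + 1))) := fun a => by
    rw [show κ * (a ^ 2 + a + 1) = κ + (a ^ 2 * κ + a * κ) by ring,
      show a ^ 2 * (κ * (κ + 1)) = a ^ 2 * κ + (a * κ) ^ 2 by ring, C.add, C.add, C.add, C.sq]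
  simp only [e, ← mul_sum]
  rw [sq_bij.sum_comp fun x => C.ψ (x * (κ * (κ + 1))), C.sum_mul,
    if_congr ((mul_eq_zero.trans (or_iff_right hκ)).trans (add_eq.trans eq_comm)) rfl rfl]
  split_ifs with h
  · rw [h, mul_comm]
  · rw [mul_zero]

end Rthree

theorem r3 : R3 := by
  intro K _ _ _ _ C κ hκ
  have e : T3 C κ = ∑ a ∈ U K, ∑ b ∈ U K, ∑ c ∈ U K,
      C.ψ (κ * (b * c + a * c + a * b + a + b + c)) := by
    rw [← Rthree.bij]
    refine sum_congr rfl fun u0 h0 => sum_congr rfl fun u1 h1 => sum_congr rfl fun u2 h2 => ?_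
    have k0 := mem_U.1 h0
    have k1 := mem_U.1 h1
    have k2 := mem_U.1 h2
    congr 1
    simp only [D]
    field_simp
    ring
  rw [e]
  simp only [Rthree.mid C hκ, sum_add_distrib, sum_sub_distrib, ← mul_sum]
  rw [sum_ite_eq', if_pos (mem_U.2 one_ne_zero), sum_U, sum_U, Rthree.quad C hκ, C.sum_mul,
    if_neg hκ, zero_mul, C.zero]
  simp only [ne_eq, OfNat.ofNat_ne_zero, not_false_eq_true, zero_pow, add_zero, zero_add, mul_one]
  split_ifs <;> ring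

end Pool.Agent.MP_e262d6_nt.DW
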