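import Pool.Agent.MP_e262d6_nt.DW.Spec

/-! Project DW, row R5: from the torus to the whole space. -/

set_option autoImplicit false
set_option linter.unusedSectionVars false

noncomputable section

namespace Pool.Agent.MP_e262d6_nt.DW

open Finset Polynomial Pool.Agent.MP_e262d6_nt.H61

namespace R5

variable {K : Type} [Field K] [Fintype K] [DecidableEq K] [CharP K 2] (C : Chr K) {κ : K}

theorem rot3 (f : K → K → K → ℝ) :
    ∑ a, ∑ b, ∑ c, f a b c = ∑ b, ∑ c, ∑ a, f a b c := by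
  rw [sum_comm]
  exact sum_congr rfl fun b _ => sum_comm

theorem rot4 (f : K → K → K → K → ℝ) :
    ∑ a, ∑ b, ∑ c, ∑ d, f a b c d = ∑ b, ∑ c, ∑ d, ∑ a, f a b c d := by
  rw [sum_comm]
  exact sum_congr rfl fun b _ => rot3 _

theorem p1 (hκ : κ ≠ 0) (c : K) :
    ∑ x, C.ψ (κ * (x * c)) = if c = 0 then (Fintype.card K : ℝ) else 0 := by
  have := C.sum_mul (κ * c)
  simp only [mul_eq_zero, hκ, false_or] at this
  rw [← this]
  exact sum_congr rfl fun x _ => by congr 1; ring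

theorem p2 (hκ : κ ≠ 0) : ∑ x, ∑ y, C.ψ (κ * (y * x)) = (Fintype.card K : ℝ) := by
  simp only [p1 C hκ, sum_ite_eq', mem_univ, if_true]

theorem p2' (hκ : κ ≠ 0) : ∑ x, ∑ y, C.ψ (κ * (x * y)) = (Fintype.card K : ℝ) := by
  rw [sum_comm]; exact p2 C hκ

theorem add_one_eq {x : K} : x + 1 = 0 ↔ x = 1 := CharTwo.add_eq_zero

theorem p3 (hκ : κ ≠ 0) (g : K → K → K → K) (hg : ∀ x y z, g x y z = x * y * z + x * y + y * z) :
    ∑ x, ∑ y, ∑ z, C.ψ (κ * g x y z) = (Fintype.card K : ℝ) ^ 2 - Fintype.card K := by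
  rw [rot3]
  have h1 : ∀ y z : K, ∑ x, C.ψ (κ * g x y z) =
      (if y * (z + 1) = 0 then (Fintype.card K : ℝ) else 0) * C.ψ (κ * (y * z)) := by
    intro y z
    rw [← p1 C hκ, sum_mul]
    exact sum_congr rfl fun x _ => by rw [← C.add, hg]; congr 1; ring
  have h2 : ∀ y : K, ∑ z, (if y * (z + 1) = 0 then (Fintype.card K : ℝ) else 0) *
      C.ψ (κ * (y * z)) = (if y = 0 then (Fintype.card K : ℝ) ^ 2 - Fintype.card K else 0) +
        Fintype.card K * C.ψ (κ * (y * 1)) := by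
    intro y
    by_cases hy : y = 0
    · simp [hy, sq]
    · simp only [mul_eq_zero, hy, false_or, add_one_eq, ite_mul, zero_mul, sum_ite_eq', mem_univ,
        if_true, if_false, zero_add]
  simp only [h1, h2, sum_add_distrib, sum_ite_eq', mem_univ, if_true, ← mul_sum, p1 C hκ,
    one_ne_zero, if_false, mul_zero, add_zero]

theorem p4 (hκ : κ ≠ 0) (g : K → K → K → K → K)
    (hg : ∀ w x y z, g w x y z = w * x * y + x * y * z + w * x + x * y + y * z) :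
    ∑ w, ∑ x, ∑ y, ∑ z, C.ψ (κ * g w x y z) = (Fintype.card K : ℝ) ^ 2 * (1 + C.ψ κ) := by
  rw [rot4]
  have h1 : ∀ x y : K, ∑ z, ∑ w, C.ψ (κ * g w x y z) =
      (if y * (x + 1) = 0 then (Fintype.card K : ℝ) else 0) *
        ((if x * (y + 1) = 0 then (Fintype.card K : ℝ) else 0) * C.ψ (κ * (x * y))) := by
    intro x y
    rw [← p1 C hκ, ← p1 C hκ, sum_mul]
    refine sum_congr rfl fun z _ => ?_
    rw [sum_mul, mul_sum]
    exact sum_congr rfl fun w _ => by rw [← C.add, ← C.add, hg]; congr 1; ring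
  have h2 : ∀ x y : K, (if y * (x + 1) = 0 then (Fintype.card K : ℝ) else 0) *
        ((if x * (y + 1) = 0 then (Fintype.card K : ℝ) else 0) * C.ψ (κ * (x * y))) =
      (if y = 0 then (if x = 0 then (Fintype.card K : ℝ) ^ 2 else 0) else 0) +
        (if y = 1 then (if x = 1 then (Fintype.card K : ℝ) ^ 2 * C.ψ κ else 0) else 0) := by
    intro x y
    simp only [mul_eq_zero, add_one_eq]
    by_cases hx : x = 0
    · by_cases hy : y = 0
      · simp [hx, hy, sq]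
      · simp [hx, hy]
    · by_cases hy : y = 1
      · by_cases hx1 : x = 1
        · simp [hx1, hy, sq, mul_assoc]
        · simp [hx, hy, hx1]
      · simp [hx, hy]
  simp only [h1, h2, sum_add_distrib, sum_ite_eq', mem_univ, if_true]
  ring

/-- the change of variables -/
def gm (u : K × K × K × K × K) : K × K × K × K × K :=
  (u.2.1 * u.2.2.2.1, u.2.2.1 * u.2.2.2.2, u.2.2.2.1 * u.1, u.2.2.2.2 * u.2.1, u.1 * u.2.2.1)

theorem torus (κ : K) : T5 C κ = ∑ y0 ∈ U K, ∑ y1 ∈ U K, ∑ y2 ∈ U K, ∑ y3 ∈ U K, ∑ y4 ∈ U K,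
    C.ψ (κ * ph5 y0 y1 y2 y3 y4) := by
  have hm : ∀ u ∈ U K ×ˢ U K ×ˢ U K ×ˢ U K ×ˢ U K, gm u ∈ U K ×ˢ U K ×ˢ U K ×ˢ U K ×ˢ U K := by
    rintro ⟨u0, u1, u2, u3, u4⟩ hu
    simp only [mem_product, mem_U, gm] at hu ⊢
    obtain ⟨h0, h1, h2, h3, h4⟩ := hu
    exact ⟨mul_ne_zero h1 h3, mul_ne_zero h2 h4, mul_ne_zero h3 h0, mul_ne_zero h4 h1,
      mul_ne_zero h0 h2⟩
  have hi : Set.InjOn gm (↑(U K ×ˢ U K ×ˢ U K ×ˢ U K ×ˢ U K) : Set (K × K × K × K × K)) := by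
    rintro ⟨u0, u1, u2, u3, u4⟩ hu ⟨v0, v1, v2, v3, v4⟩ _ h
    simp only [mem_coe, mem_product, mem_U] at hu
    obtain ⟨h0, h1, h2, h3, h4⟩ := hu
    simp only [gm, Prod.mk.injEq] at h ⊢
    obtain ⟨e0, e1, e2, e3, e4⟩ := h
    have a0 : u0 = v0 := by
      apply (sq_bij (K := K)).1
      have hne : (u1 * u3) * (u2 * u4) ≠ 0 := mul_ne_zero (mul_ne_zero h1 h3) (mul_ne_zero h2 h4)
      apply mul_right_cancel₀ hne
      show u0 ^ 2 * _ = v0 ^ 2 * _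
      calc u0 ^ 2 * (u1 * u3 * (u2 * u4)) = (u3 * u0) * (u0 * u2) * (u4 * u1) := by ring
        _ = (v3 * v0) * (v0 * v2) * (v4 * v1) := by rw [e2, e4, e3]
        _ = v0 ^ 2 * (v1 * v3 * (v2 * v4)) := by ring
        _ = _ := by rw [e0, e1]
    subst a0
    have a3 : u3 = v3 := mul_right_cancel₀ h0 e2
    have a2 : u2 = v2 := mul_left_cancel₀ h0 e4
    subst a3 a2
    exact ⟨rfl, mul_right_cancel₀ h3 e0, rfl, rfl, mul_left_cancel₀ h2 e1⟩
  have hs := Finset.surjOn_of_injOn_of_card_le gm (fun u hu => hm u hu) hi le_rfl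
  have key := Finset.sum_nbij (s := U K ×ˢ U K ×ˢ U K ×ˢ U K ×ˢ U K)
    (t := U K ×ˢ U K ×ˢ U K ×ˢ U K ×ˢ U K)
    (f := fun u => C.ψ (κ * (u.1 * u.2.1 * u.2.2.1 * u.2.2.2.1 * u.2.2.2.2) *
      (D u.1 + D u.2.1 + D u.2.2.1 + D u.2.2.2.1 + D u.2.2.2.2)))
    (g := fun y => C.ψ (κ * ph5 y.1 y.2.1 y.2.2.1 y.2.2.2.1 y.2.2.2.2)) gm hm hi hs (by
      rintro ⟨u0, u1, u2, u3, u4⟩ hu
      simp only [mem_product, mem_U] at hu
      obtain ⟨h0, h1, h2, h3, h4⟩ := hu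
      simp only [gm, ph5, D]
      congr 1
      field_simp
      ring)
  simpa only [sum_product, T5] using key

end R5

open R5 in
theorem r5 : R5 := by
  intro K _ _ _ _ C κ hκ
  have a0 : ∑ a, ∑ b, ∑ c, ∑ d, C.ψ (κ * ph5 0 a b c d) = _ :=
    p4 C hκ (fun a b c d => ph5 0 a b c d) fun _ _ _ _ => by simp only [ph5]; ring
  have a1 : ∑ a, ∑ b, ∑ c, ∑ d, C.ψ (κ * ph5 a 0 b c d) = _ :=
    (rot4 _).trans (p4 C hκ (fun b c d a => ph5 a 0 b c d) fun _ _ _ _ => by simp only [ph5]; ring)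
  have a2 : ∑ a, ∑ b, ∑ c, ∑ d, C.ψ (κ * ph5 a b 0 c d) = _ :=
    (rot4 _).trans ((rot4 _).trans
      (p4 C hκ (fun c d a b => ph5 a b 0 c d) fun _ _ _ _ => by simp only [ph5]; ring))
  have a3 : ∑ a, ∑ b, ∑ c, ∑ d, C.ψ (κ * ph5 a b c 0 d) = _ :=
    (rot4 _).trans ((rot4 _).trans ((rot4 _).trans
      (p4 C hκ (fun d a b c => ph5 a b c 0 d) fun _ _ _ _ => by simp only [ph5]; ring)))
  have a4 : ∑ a, ∑ b, ∑ c, ∑ d, C.ψ (κ * ph5 a b c d 0) = _ :=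
    p4 C hκ (fun a b c d => ph5 a b c d 0) fun _ _ _ _ => by simp only [ph5]; ring
  have b0 : ∑ a, ∑ b, ∑ c, C.ψ (κ * ph5 0 0 a b c) = _ :=
    p3 C hκ (fun a b c => ph5 0 0 a b c) fun _ _ _ => by simp only [ph5]; ring
  have b1 : ∑ a, ∑ b, ∑ c, C.ψ (κ * ph5 a 0 0 b c) = _ :=
    (rot3 _).trans (p3 C hκ (fun b c a => ph5 a 0 0 b c) fun _ _ _ => by simp only [ph5]; ring)
  have b2 : ∑ a, ∑ b, ∑ c, C.ψ (κ * ph5 a b 0 0 c) = _ :=
    (rot3 _).trans ((rot3 _).trans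
      (p3 C hκ (fun c a b => ph5 a b 0 0 c) fun _ _ _ => by simp only [ph5]; ring))
  have b3 : ∑ a, ∑ b, ∑ c, C.ψ (κ * ph5 a b c 0 0) = _ :=
    p3 C hκ (fun a b c => ph5 a b c 0 0) fun _ _ _ => by simp only [ph5]; ring
  have b4 : ∑ a, ∑ b, ∑ c, C.ψ (κ * ph5 0 a b c 0) = _ :=
    p3 C hκ (fun a b c => ph5 0 a b c 0) fun _ _ _ => by simp only [ph5]; ring
  rw [torus]
  simp only [sum_U, sum_sub_distrib]
  rw [a0, a1, a2, a3, a4, b0, b1, b2, b3, b4]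
  rw [show ∑ y0 : K, ∑ y1 : K, ∑ y2 : K, ∑ y3 : K, ∑ y4 : K, C.ψ (κ * ph5 y0 y1 y2 y3 y4) =
    Full C κ from rfl]
  simp only [ph5, mul_zero, zero_mul, add_zero, zero_add, C.zero, sum_const, card_univ,
    nsmul_eq_mul, mul_one, ← mul_sum, p2 C hκ, p2' C hκ]
  ring

end Pool.Agent.MP_e262d6_nt.DW
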