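import Pool.Agent.MP_e262d6_nt.DW.Spec

/-! Project DW, row SC: scaling. -/

set_option autoImplicit false
set_option linter.unusedSectionVars false

namespace Pool.Agent.MP_e262d6_nt.DW

open Finset Polynomial Pool.Agent.MP_e262d6_nt.H61

namespace Sc

variable {K : Type} [Field K] [Fintype K] [DecidableEq K] [CharP K 2]

theorem q2_add (a b c a' b' c' : K) :
    q2 a b c + q2 a' b' c' = q2 (a + a') (b + b') (c + c') := by
  simp only [q2, map_add]
  ring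

theorem q2_mul (v a b c : K) : q2 (v * a) (v * b) (v * c) = C v * q2 a b c := by
  simp only [q2, map_mul]
  ring

theorem nf_eq (P : K[X]) {v : K} (hv : v ≠ 0) (p x1 x2 w1 w2 : K) :
    nf P (q2 (v + v⁻¹ * p) (v * x1 + v⁻¹ * w1) (v * x2 + v⁻¹ * w2)) (q2 v (v * x1) (v * x2)) =
      q2 1 x1 x2 * q2 p w1 w2 + P := by
  have h0 : ∀ h V : K[X], nf P h V = V * (V + h) + P := fun h V => by
    rw [nf]
    ring
  have h1 : q2 v (v * x1) (v * x2) = C v * q2 1 x1 x2 := by rw [← q2_mul, mul_one]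
  rw [h0, q2_add, CharTwo.add_cancel_left, CharTwo.add_cancel_left, CharTwo.add_cancel_left,
    q2_mul, h1, mul_mul_mul_comm, ← map_mul, mul_inv_cancel₀ hv, map_one, one_mul]

theorem nf_zero (P : K[X]) (h0 h1 h2 v v1 v2 : K) :
    (nf P (q2 h0 h1 h2) (q2 v v1 v2)).coeff 0 = v ^ 2 + h0 * v + P.coeff 0 := by
  simp [nf, q2, coeff_zero_eq_eval_zero]

theorem one (C : Chr K) (P : K[X]) (β : K) {v : K} (hv : v ≠ 0) :
    ∑ h : K × K × K, C.ψ (β * v * h.2.2) * (n2 P (q2 h.1 h.2.1 h.2.2) v : ℝ) =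
      ∑ x2 : K, C.ψ (v ^ 2 * (x2 * β)) * Zs C P β x2 := by
  classical
  have hR : ∑ x2 : K, C.ψ (v ^ 2 * (x2 * β)) * Zs C P β x2 =
      ∑ y : K × K × K × K × K × K, C.ψ (v ^ 2 * (y.1 * β)) *
        if X * q2 y.2.2.2.2.1 y.2.2.2.2.2 1 ∣
          q2 1 y.2.1 y.1 * q2 (P.coeff 0) y.2.2.1 y.2.2.2.1 + P then C.ψ (y.2.2.2.1 * β) else 0 := by
    simp only [Zs, Fintype.sum_prod_type, mul_sum]
  have hL : ∑ h : K × K × K, C.ψ (β * v * h.2.2) * (n2 P (q2 h.1 h.2.1 h.2.2) v : ℝ) =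
      ∑ z : (K × K × K) × K × K × K × K, C.ψ (β * v * z.1.2.2) *
        if X * q2 z.2.1 z.2.2.1 1 ∣ nf P (q2 z.1.1 z.1.2.1 z.1.2.2) (q2 v z.2.2.2.1 z.2.2.2.2)
          then 1 else 0 := by
    symm
    rw [Fintype.sum_prod_type]
    refine sum_congr rfl fun h _ => ?_
    rw [n2, natCast_card_filter, mul_sum]
  rw [hL, hR]
  refine (Fintype.sum_of_injective (fun y : K × K × K × K × K × K =>
    (((v + v⁻¹ * P.coeff 0, v * y.2.1 + v⁻¹ * y.2.2.1, v * y.1 + v⁻¹ * y.2.2.2.1),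
      y.2.2.2.2.1, y.2.2.2.2.2, v * y.2.1, v * y.1) : (K × K × K) × K × K × K × K)) ?_ _ _ ?_ ?_).symm
  · rintro ⟨x2, x1, w1, w2, U0, U1⟩ ⟨x2', x1', w1', w2', U0', U1'⟩ h
    simp only [Prod.mk.injEq] at h
    obtain ⟨⟨-, e1, e2⟩, rfl, rfl, e3, e4⟩ := h
    obtain rfl := mul_left_cancel₀ hv e3
    obtain rfl := mul_left_cancel₀ hv e4
    obtain rfl := mul_left_cancel₀ (inv_ne_zero hv) (add_left_cancel e1)
    obtain rfl := mul_left_cancel₀ (inv_ne_zero hv) (add_left_cancel e2)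
    rfl
  · rintro ⟨⟨h0, h1, h2⟩, U0, U1, v1, v2⟩ hz
    rw [if_neg, mul_zero]
    intro hd
    have h3 := X_dvd_iff.1 (dvd_of_mul_right_dvd hd)
    rw [nf_zero] at h3
    refine hz ⟨(v⁻¹ * v2, v⁻¹ * v1, v * (v1 + h1), v * (v2 + h2), U0, U1), ?_⟩
    simp only [mul_inv_cancel_left₀ hv, inv_mul_cancel_left₀ hv, CharTwo.add_cancel_left,
      Prod.mk.injEq, and_true]
    field_simp
    linear_combination h3 - h0 * v * (two_zero (K := K))
  · rintro ⟨x2, x1, w1, w2, U0, U1⟩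
    simp only [nf_eq P hv]
    split_ifs
    · rw [mul_one, ← C.add]
      congr 1
      field_simp
    · rw [mul_zero, mul_zero]

end Sc

theorem sc : SC := by
  intro K _ _ _ _ C P _ β
  rw [sum_congr rfl fun v hv => Sc.one C P β (mem_U.1 hv), sum_comm]
  refine sum_congr rfl fun x _ => ?_
  rw [← sum_mul, sum_U, sq_bij.sum_comp fun y => C.ψ (y * (x * β)), C.sum_mul]
  simp

end Pool.Agent.MP_e262d6_nt.DW
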