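import Pool.Agent.MP_e262d6_nt.DW.Spec

/-! Project DW, row SUB: the substitution `x = N p / (b p)`. -/

set_option autoImplicit false
set_option linter.unusedSectionVars false

noncomputable section

namespace Pool.Agent.MP_e262d6_nt.DW

open Finset Polynomial Pool.Agent.MP_e262d6_nt.H61

namespace Sub

variable {K L : Type} [Field K] [Fintype K] [DecidableEq K] [CharP K 2] [Field L]
  [Fintype L] [DecidableEq L] [CharP L 2] [Algebra K L]

theorem norm_alg (h5 : Module.finrank K L = 5) (c : K) :
    Algebra.norm K (algebraMap K L c) = c ^ 5 := by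
  rw [Algebra.norm_algebraMap, h5]

theorem bij (h5 : Module.finrank K L = 5) :
    Function.Bijective fun p : L => algebraMap K L (Algebra.norm K p) * p⁻¹ := by
  refine bij_of_mul (fun x y => ?_) (fun x => ?_) (fun z hz => ?_)
  · simp only [map_mul, mul_inv]; ring
  · constructor
    · intro h
      by_contra hx
      rcases mul_eq_zero.1 h with h | h
      · exact (Algebra.norm_ne_zero_iff.2 hx) ((map_eq_zero _).1 h)
      · exact hx (inv_eq_zero.1 h)
    · rintro rfl; simp
  · have hz0 : z ≠ 0 := by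
      rintro rfl
      simp at hz
    have h1 : algebraMap K L (Algebra.norm K z) = z := by
      have := congrArg (· * z) hz
      simpa [mul_assoc, inv_mul_cancel₀ hz0] using this
    set c := Algebra.norm K z with hc
    have hc0 : c ≠ 0 := Algebra.norm_ne_zero_iff.2 hz0
    have h2 : c = c ^ 5 := by
      rw [← norm_alg h5 c, h1]
    have h3 : (c ^ 2) ^ 2 = (1 : K) ^ 2 := by
      apply mul_left_cancel₀ hc0
      linear_combination -h2
    have h4 : c ^ 2 = (1 : K) ^ 2 := by
      have := sq_bij.1 h3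
      simpa using this
    have h6 : c = 1 := sq_bij.1 h4
    rw [← h1, h6, map_one]

theorem tr_mul (c : K) (x : L) :
    c * Algebra.trace K L x = Algebra.trace K L (algebraMap K L c * x) := by
  rw [← Algebra.smul_def, map_smul, smul_eq_mul]

end Sub

theorem sub : SUB := by
  intro K L _ _ _ _ _ _ _ _ _ F C b a hb
  have hbL : algebraMap K L b⁻¹ ≠ 0 := (_root_.map_ne_zero _).2 (inv_ne_zero hb)
  unfold Wb Sp
  rw [← sum_mul_left hbL, ← (Sub.bij (K := K) F.rank).sum_comp, sum_U]
  have h0 : C.ψ (b⁻¹ * Algebra.norm K (0 : L) * Algebra.trace K L (0 + a / 0)) = 1 := by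
    simp [C.zero]
  rw [h0, sub_add_cancel]
  refine sum_congr rfl fun p _ => ?_
  by_cases hp : p = 0
  · subst hp
    simp
  have hn : Algebra.norm K p ≠ 0 := Algebra.norm_ne_zero_iff.2 hp
  have hnL : algebraMap K L (Algebra.norm K p) ≠ 0 := (_root_.map_ne_zero _).2 hn
  have hbL' : algebraMap K L b ≠ 0 := (_root_.map_ne_zero _).2 hb
  have e1 : Algebra.norm K (algebraMap K L b⁻¹ * (algebraMap K L (Algebra.norm K p) * p⁻¹)) =
      b⁻¹ ^ 5 * (Algebra.norm K p ^ 5 * (Algebra.norm K p)⁻¹) := by
    rw [map_mul, map_mul, Sub.norm_alg F.rank, Sub.norm_alg F.rank, Algebra.norm_inv]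
  have e2 : Algebra.trace K L (algebraMap K L b⁻¹ *
      (algebraMap K L (Algebra.norm K p) * p⁻¹))⁻¹ =
      b / Algebra.norm K p * Algebra.trace K L p := by
    rw [Sub.tr_mul]
    congr 1
    rw [map_div₀, map_inv₀]
    field_simp
  have e3 : Algebra.trace K L (a * (algebraMap K L b⁻¹ *
      (algebraMap K L (Algebra.norm K p) * p⁻¹))) =
      b⁻¹ * Algebra.norm K p * Algebra.trace K L (a / p) := by
    rw [Sub.tr_mul]
    congr 1
    rw [map_mul, div_eq_mul_inv]
    ring
  rw [e1, e2, e3, map_add (Algebra.trace K L), mul_add, C.add, C.add,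
    ← C.sq (b⁻¹ * Algebra.norm K p * Algebra.trace K L p)]
  congr 2
  field_simp

end Pool.Agent.MP_e262d6_nt.DW
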