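import Pool.Agent.MP_e262d6_nt.DW.Spec

/-! Project DW, row TWD: the explicit twisted pairs. -/

set_option autoImplicit false
set_option linter.unusedSectionVars false

noncomputable section

namespace Pool.Agent.MP_e262d6_nt.DW

open Finset Polynomial Pool.Agent.MP_e262d6_nt.H61

namespace Twd

variable {K L : Type} [Field K] [Fintype K] [Field L] [Algebra K L] (F : Fv K L)

theorem hmap (a u : L) : (F.hp a u).map (algebraMap K L) =
    F.VV a u + (F.VV a u).map F.σ + C u * (F.UU a u).map F.σ := by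
  simp only [Fv.hp, Fv.VV, Fv.UU, q2, Polynomial.map_add, Polynomial.map_mul, Polynomial.map_pow,
    map_C, map_X, map_add, map_mul, F.tr, F.nm, F.five]
  ring

theorem nrm (a u : L) : F.VV a u * ((F.VV a u).map F.σ + C u * (F.UU a u).map F.σ) +
    (X + C a) * (X + C (F.σ a)) * (X + C (F.σ (F.σ a))) *
      (X + C (F.σ (F.σ (F.σ a)))) * (X + C (F.σ (F.σ (F.σ (F.σ a))))) =
    F.UU a u * ((X + C a) * (F.UU a u).map F.σ) := by
  simp only [Fv.VV, Fv.UU, Polynomial.map_add, Polynomial.map_mul, map_C, map_X, map_mul]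
  ring

theorem alg {R : Type} [CommRing R] (two : (2 : R) = 0) (b0 b1 b2 b3 b4 p0 p1 p2 p3 p4 : R)
    (a0 a1 a2 a3 a4 u0 u1 u2 u3 u4 : R) (e0 : a0 = b0 * p0) (e1 : a1 = b1 * p1)
    (e2 : a2 = b2 * p2) (e3 : a3 = b3 * p3) (e4 : a4 = b4 * p4) (f0 : u0 = b0 + p1)
    (f1 : u1 = b1 + p2) (f2 : u2 = b2 + p3) (f3 : u3 = b3 + p4) (f4 : u4 = b4 + p0) :
    u0 * u1 * u2 * u3 * u4 + ((a0 * (u1 * u2 * u3) + a0 * a2 * u3) +
      (a1 * (u2 * u3 * u4) + a1 * a3 * u4) + (a2 * (u3 * u4 * u0) + a2 * a4 * u0) +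
      (a3 * (u4 * u0 * u1) + a3 * a0 * u1) + (a4 * (u0 * u1 * u2) + a4 * a1 * u2)) =
        p0 * p1 * p2 * p3 * p4 + b0 * b1 * b2 * b3 * b4 ∧
    a0 * (u1 * u2 * u3 + a2 * u3 + a3 * u1) =
      (u0 * u1 * u2 * u3 + a1 * (u2 * u3) + a2 * (u0 * u3) + a3 * (u0 * u1) + a1 * a3) * p0 +
        p0 * p1 * p2 * p3 * p4 ∧
    a0 * (u1 * u2 * u3 * u4 + a2 * (u3 * u4) + a3 * (u1 * u4) + a4 * (u1 * u2) + a2 * a4) =
      (a0 * (u1 * u2 * u3 + a2 * u3 + a3 * u1) + b0 * b1 * b2 * b3 * b4) * p0 := by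
  refine ⟨?_, ?_, ?_⟩
  · subst e0 e1 e2 e3 e4
    have : u0 * u1 * u2 * u3 * u4 - (b0 * p0 * (u1 * u2 * u3) + b1 * p1 * (u2 * u3 * u4) +
        b2 * p2 * (u3 * u4 * u0) + b3 * p3 * (u4 * u0 * u1) + b4 * p4 * (u0 * u1 * u2)) +
        (b0 * p0 * (b2 * p2) * u3 + b1 * p1 * (b3 * p3) * u4 + b2 * p2 * (b4 * p4) * u0 +
        b3 * p3 * (b0 * p0) * u1 + b4 * p4 * (b1 * p1) * u2) =
        p0 * p1 * p2 * p3 * p4 + b0 * b1 * b2 * b3 * b4 := by
      subst f0 f1 f2 f3 f4; ring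
    linear_combination this + (b0 * p0 * (u1 * u2 * u3) + b1 * p1 * (u2 * u3 * u4) +
        b2 * p2 * (u3 * u4 * u0) + b3 * p3 * (u4 * u0 * u1) + b4 * p4 * (u0 * u1 * u2)) * two
  · have : u0 * u1 * u2 * u3 * p0 - (a1 * (u2 * u3) + a2 * (u0 * u3) + a3 * (u0 * u1)) * p0 +
        a1 * a3 * p0 - a0 * (u1 * u2 * u3 - a2 * u3 - a3 * u1) = p0 * p1 * p2 * p3 * p4 := by
      subst e0 e1 e2 e3 e4 f0 f1 f2 f3 f4; ring
    linear_combination (-1 : R) * this + (a0 * (a2 * u3 + a3 * u1) -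
      (a1 * (u2 * u3) + a2 * (u0 * u3) + a3 * (u0 * u1)) * p0 - p0 * p1 * p2 * p3 * p4) * two
  · have : a0 * (u1 * u2 * u3 * u4 - a2 * (u3 * u4) - a3 * (u1 * u4) - a4 * (u1 * u2) + a2 * a4) =
        (a0 * (u1 * u2 * u3 - a2 * u3 - a3 * u1) + b0 * b1 * b2 * b3 * b4) * p0 := by
      subst e0 e1 e2 e3 e4 f0 f1 f2 f3 f4; ring
    linear_combination this + (a0 * (a2 * (u3 * u4) + a3 * (u1 * u4) + a4 * (u1 * u2)) -
      a0 * (a2 * u3 + a3 * u1) * p0) * two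

end Twd

theorem twd (h : CHP) : TWD := by
  intro K L _ _ _ _ _ _ _ _ _ F a
  have two : (2 : L) = 0 := CharTwo.two_eq_zero
  have twoX : (2 : L[X]) = 0 := by
    rw [show (2 : L[X]) = C 2 from rfl, two, C_0]
  refine ⟨fun u => ⟨?_, ?_, ?_, ⟨_, rfl⟩, ?_, ?_⟩, fun p hp => ?_⟩
  · unfold Fv.UU; monicity!
  · unfold Fv.UU; compute_degree!
  · unfold Fv.VV; compute_degree!
  · rw [nf, (h K L F a).2.2.1, Twd.hmap]
    linear_combination Twd.nrm F a u + (F.VV a u) ^ 2 * twoX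
  · rw [Twd.hmap]
    linear_combination (F.VV a u + (F.VV a u).map F.σ) * twoX
  · have s : ∀ x : L, x ≠ 0 → F.σ x ≠ 0 := fun x hx => (map_ne_zero F.σ).2 hx
    have h1 := s _ hp
    have h2 := s _ h1
    have h3 := s _ h2
    have h4 := s _ h3
    have dv : ∀ x y : L, y ≠ 0 → x = x / y * y := fun x y hy => (div_mul_cancel₀ x hy).symm
    obtain ⟨r1, r2, r3⟩ := Twd.alg two (a / p) (F.σ a / F.σ p) (F.σ (F.σ a) / F.σ (F.σ p))
      (F.σ (F.σ (F.σ a)) / F.σ (F.σ (F.σ p))) (F.σ (F.σ (F.σ (F.σ a))) / F.σ (F.σ (F.σ (F.σ p))))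
      p (F.σ p) (F.σ (F.σ p)) (F.σ (F.σ (F.σ p))) (F.σ (F.σ (F.σ (F.σ p)))) _ _ _ _ _ _ _ _ _ _
      (dv _ _ hp) (dv _ _ h1) (dv _ _ h2) (dv _ _ h3) (dv _ _ h4) rfl rfl rfl rfl rfl
    have q : algebraMap K L (Algebra.norm K a / Algebra.norm K p) =
        a / p * (F.σ a / F.σ p) * (F.σ (F.σ a) / F.σ (F.σ p)) *
          (F.σ (F.σ (F.σ a)) / F.σ (F.σ (F.σ p))) *
          (F.σ (F.σ (F.σ (F.σ a))) / F.σ (F.σ (F.σ (F.σ p)))) := by
      rw [map_div₀, F.nm, F.nm]; field_simp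
    refine ⟨(algebraMap K L).injective ?_, ?_, ?_⟩
    · rw [map_add (algebraMap K L) (Algebra.norm K p), q, F.nm, ← r1]
      simp only [Fv.hp, q2, coeff_add, coeff_C_zero, mul_coeff_zero, coeff_X_zero, coeff_X_pow,
        mul_zero, add_zero, map_add, map_mul, map_div₀, F.tr, F.nm, F.five]
      simp only [OfNat.zero_ne_ofNat, if_false, map_zero, mul_zero, add_zero]
      abel
    · rw [F.nm]
      simp only [Fv.VV, Fv.UU, coeff_add, coeff_C_zero, mul_coeff_zero, coeff_X_zero, zero_add,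
        map_add F.σ, map_div₀]
      exact r2
    · rw [q]
      simp only [Fv.VV, Fv.UU, coeff_add, coeff_C_zero, mul_coeff_zero, coeff_X_zero, zero_add,
        map_add F.σ, map_mul F.σ, map_div₀, F.five]
      exact r3

end Pool.Agent.MP_e262d6_nt.DW
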