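import Pool.Agent.MP_e262d6_nt.DW.Spec

/-! Project DW, row Z1: the point zero, first step. -/

set_option autoImplicit false
set_option linter.unusedSectionVars false

noncomputable section

namespace Pool.Agent.MP_e262d6_nt.DW

open Finset Polynomial Pool.Agent.MP_e262d6_nt.H61

namespace Zone

section grp

variable {G : Type} [Group G] [Fintype G] [DecidableEq G] [IsCyclic G]

theorem sub_eq {H H' : Subgroup G} (h : Nat.card H = Nat.card H') : H = H' := by
  classical
  have key : ∀ (J : Subgroup G) (x : G), x ∈ J ↔ x ^ Nat.card J = 1 := by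
    intro J
    have hpos : 0 < Nat.card J := Nat.card_pos
    have hsub : (univ.filter fun x : G => x ∈ J) ⊆
        univ.filter fun x : G => x ^ Nat.card J = 1 := by
      intro x hx
      rw [mem_filter] at hx ⊢
      refine ⟨mem_univ _, ?_⟩
      have := pow_card_eq_one' (x := (⟨x, hx.2⟩ : J))
      exact congrArg Subtype.val this
    have hc : (univ.filter fun x : G => x ∈ J).card = Nat.card J := by
      rw [Nat.card_eq_fintype_card, Fintype.card_subtype]
    have hle := IsCyclic.card_pow_eq_one_le (α := G) hpos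
    have he := eq_of_subset_of_card_le hsub (hc ▸ hle)
    intro x
    have := congrArg (fun s => x ∈ s) he
    simpa using this
  ext x
  rw [key H, key H', h]

theorem sum_eq (f g : G →* G) (h : ∀ x, f x = 1 ↔ g x = 1) (F : G → ℝ) :
    ∑ x, F (f x) = ∑ x, F (g x) := by
  have hk : f.ker = g.ker := by
    ext x
    simp only [MonoidHom.mem_ker, h]
  have hr : f.range = g.range := by
    apply sub_eq
    rw [← Subgroup.index_ker, ← Subgroup.index_ker, hk]
  have hf : ∀ y, (univ.filter fun x => f x = y).card = (univ.filter fun x => g x = y).card := by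
    intro y
    by_cases hy : y ∈ f.range
    · have hy' : y ∈ g.range := hr ▸ hy
      rw [MonoidHom.card_fiber_eq_of_mem_range f (y := 1) hy ⟨1, map_one f⟩,
        MonoidHom.card_fiber_eq_of_mem_range g (y := 1) hy' ⟨1, map_one g⟩]
      congr 1
      ext x
      simp only [mem_filter, mem_univ, true_and, h]
    · have hy' : y ∉ g.range := hr ▸ hy
      rw [filter_eq_empty_iff.2 fun x _ hx => hy ⟨x, hx⟩,
        filter_eq_empty_iff.2 fun x _ hx => hy' ⟨x, hx⟩]
  rw [← sum_fiberwise (s := univ) (g := f) (f := fun x => F (f x)),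
    ← sum_fiberwise (s := univ) (g := g) (f := fun x => F (g x))]
  refine sum_congr rfl fun y _ => ?_
  rw [sum_congr rfl (g := fun _ => F y) fun x hx => by rw [(mem_filter.1 hx).2],
    sum_congr rfl (f := fun x => F (g x)) (g := fun _ => F y)
      fun x hx => by rw [(mem_filter.1 hx).2], sum_const, sum_const, hf]

end grp

variable {K L : Type} [Field K] [Fintype K] [Field L] [CharP L 2] [Algebra K L]

theorem ker_iff (F : Fv K L) (p : L) :
    algebraMap K L (Algebra.norm K p) * p = 1 ↔ p ^ 3 = 1 := by
  have h2 : (2 : L) = 0 := CharTwo.two_eq_zero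
  have h5 : F.σ p = p → algebraMap K L (Algebra.norm K p) * p = p ^ 6 := by
    intro h
    rw [F.nm, h, h, h, h]
    ring
  constructor
  · intro h
    have hp : p = algebraMap K L (Algebra.norm K p)⁻¹ := by
      rw [map_inv₀]
      exact eq_inv_of_mul_eq_one_right h
    have hs : F.σ p = p := by
      rw [hp, F.fixK]
    have h6 : p ^ 6 = 1 := (h5 hs).symm.trans h
    have : (p ^ 3 - 1) ^ 2 = 0 := by linear_combination h6 + (1 - p ^ 3) * h2
    exact sub_eq_zero.1 (pow_eq_zero_iff two_ne_zero |>.1 this)
  · intro h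
    have hs : F.σ p = p := by
      have hm : F.σ p = p ^ (Fintype.card K % 3) := by
        rw [F.pw]
        conv_lhs => rw [← Nat.div_add_mod (Fintype.card K) 3, pow_add, pow_mul, h, one_pow,
          one_mul]
      have hlt : Fintype.card K % 3 < 3 := Nat.mod_lt _ (by norm_num)
      have h5' := F.five p
      interval_cases hc : Fintype.card K % 3
      · rw [pow_zero] at hm
        rw [hm, map_one, map_one, map_one, map_one] at h5'
        rw [hm, h5']
      · rw [hm, pow_one]
      · have hss : F.σ (F.σ p) = p := by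
          rw [hm, map_pow, hm]
          linear_combination p * h
        rw [hss, hss] at h5'
        exact h5'
    rw [h5 hs]
    linear_combination (p ^ 3 + 1) * h

end Zone

theorem z1 : Z1 := by
  intro K L _ _ _ _ _ _ _ _ _ F C β
  classical
  let f : Lˣ →* Lˣ :=
    (Units.map ((algebraMap K L : K →* L).comp (Algebra.norm K : L →* K))) * MonoidHom.id Lˣ
  let g : Lˣ →* Lˣ := powMonoidHom 3
  have hf : ∀ x : Lˣ, ((f x : Lˣ) : L) = algebraMap K L (Algebra.norm K (x : L)) * x :=
    fun x => rfl
  have hg : ∀ x : Lˣ, ((g x : Lˣ) : L) = (x : L) ^ 3 := fun x => by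
    simp only [g, powMonoidHom_apply, Units.val_pow_eq_pow_val]
  have key := Zone.sum_eq f g (fun x => by
    rw [← Units.val_eq_one, ← Units.val_eq_one, hf, hg]
    exact Zone.ker_iff F x) fun y => C.ψ (β * Algebra.trace K L (y : L))
  have hU : ∀ φ : L → ℝ, ∑ x : Lˣ, φ x = ∑ x ∈ U L, φ x := by
    intro φ
    refine sum_bij (fun x _ => (x : L)) (fun x _ => mem_U.2 x.ne_zero)
      (fun x _ y _ h => Units.ext h) (fun y hy => ⟨Units.mk0 y (mem_U.1 hy), mem_univ _, rfl⟩)
      fun _ _ => rfl
  simp only [hf, hg] at key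
  rw [hU fun x => C.ψ (β * Algebra.trace K L (algebraMap K L (Algebra.norm K x) * x)),
    hU fun x => C.ψ (β * Algebra.trace K L (x ^ 3)),
    sum_U fun x => C.ψ (β * Algebra.trace K L (x ^ 3))] at key
  have h0 : C.ψ (β * Algebra.trace K L ((0 : L) ^ 3)) = 1 := by
    rw [zero_pow three_ne_zero, map_zero, mul_zero, C.zero]
  have hS : Sp L C β 0 =
      ∑ x ∈ U L, C.ψ (β * Algebra.trace K L (algebraMap K L (Algebra.norm K x) * x)) := by
    refine sum_congr rfl fun x _ => ?_
    rw [zero_div, add_zero, ← Algebra.smul_def, map_smul, smul_eq_mul, mul_assoc]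
  rw [hS, key, h0]
  ring

end Pool.Agent.MP_e262d6_nt.DW
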