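import Pool.Agent.MP_e262d6_nt.DW.Spec

/-! Project DW, row Z2: lifting of the cubic sum in degree five. -/

set_option autoImplicit false
set_option linter.unusedSectionVars false

noncomputable section

namespace Pool.Agent.MP_e262d6_nt.DW

open Finset Polynomial Pool.Agent.MP_e262d6_nt.H61

namespace Z2

section one

variable {K : Type} [Field K] [Fintype K] [DecidableEq K] [CharP K 2] (C : Chr K)

theorem sq_sum {β : K} (hβ : β ≠ 0) : (∑ j : K, C.ψ (β * j ^ 3)) ^ 2 =
    Fintype.card K * ∑ u : K, if u = 0 ∨ β * u ^ 3 = 1 then C.ψ (β * u ^ 3) else 0 := by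
  have h1 : ∀ x : K, C.ψ (β * x ^ 3) * ∑ y : K, C.ψ (β * y ^ 3) =
      ∑ u : K, C.ψ (β * u ^ 3) * C.ψ (x ^ 2 * (β * u + β ^ 2 * u ^ 4)) := fun x => by
    rw [← Equiv.sum_comp (Equiv.addLeft x), mul_sum]
    refine sum_congr rfl fun u _ => ?_
    have h2 : C.ψ (x ^ 2 * (β * u + β ^ 2 * u ^ 4)) = C.ψ (β * x ^ 2 * u + β * x * u ^ 2) := by
      rw [C.add, ← C.sq (β * x * u ^ 2), ← C.add]
      congr 1
      ring
    rw [h2, ← C.add, ← C.add, Equiv.coe_addLeft]
    congr 1
    linear_combination (β * (x ^ 3 + x ^ 2 * u + x * u ^ 2)) * (two_zero (K := K))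
  rw [pow_two, sum_mul, sum_congr rfl fun x _ => h1 x, sum_comm, mul_sum]
  refine sum_congr rfl fun u _ => ?_
  rw [← mul_sum, sq_bij.sum_comp fun y => C.ψ (y * (β * u + β ^ 2 * u ^ 4)), C.sum_mul]
  have h3 : β * u + β ^ 2 * u ^ 4 = 0 ↔ u = 0 ∨ β * u ^ 3 = 1 := by
    rw [show β * u + β ^ 2 * u ^ 4 = β * (u * (β * u ^ 3 + 1)) by ring, mul_eq_zero, mul_eq_zero,
      or_iff_right hβ, CharTwo.add_eq_zero]
  simp only [h3]
  split_ifs
  · ring
  · ring

theorem sum_card {A : Type} [Fintype A] (f : A → K) :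
    ∑ x, C.ψ (f x) = Fintype.card A - 2 * (Fintype.card {x // C.ψ (f x) = -1} : ℝ) := by
  rw [Fintype.card_subtype, card_filter, ← card_univ, card_eq_sum_ones]
  push_cast
  rw [mul_sum, ← sum_sub_distrib]
  refine sum_congr rfl fun x _ => ?_
  rcases C.pm (f x) with h | h
  · rw [h, if_neg (by norm_num)]
    norm_num
  · rw [h, if_pos rfl]
    norm_num

theorem card_mod {ω : K} (h1 : ω ^ 3 = 1) (h2 : ω ≠ 1) : Fintype.card K ^ 2 % 5 = 1 := by
  have h3 : Fintype.card K % 3 = 1 := by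
    have h4 := FiniteField.pow_card ω
    rw [pow_eq_pow_mod _ h1] at h4
    have h0 : ω ≠ 0 := fun h => by simp [h] at h1
    have h5 : Fintype.card K % 3 < 3 := Nat.mod_lt _ (by norm_num)
    interval_cases h : Fintype.card K % 3
    · exact absurd (h4.symm.trans (pow_zero ω)) h2
    · rfl
    · exact absurd (mul_left_cancel₀ h0 (by rw [← pow_two, h4, mul_one])) h2
  obtain ⟨n, -, hn⟩ := FiniteField.card K 2
  rw [hn] at h3 ⊢
  obtain ⟨k, hk | hk⟩ := Nat.even_or_odd' (n : ℕ)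
  · rw [hk, ← pow_mul, show 2 * k * 2 = 4 * k by ring, pow_mul, Nat.pow_mod]
    norm_num
  · rw [hk, pow_succ, pow_mul, Nat.mul_mod, Nat.pow_mod] at h3
    norm_num at h3

theorem rho (β : K) (h1 : C.ψ 1 = 1) : ∃ n : ℕ, 1 ≤ n ∧ n ≤ 4 ∧
    (∑ u : K, if u = 0 ∨ β * u ^ 3 = 1 then C.ψ (β * u ^ 3) else 0) = n := by
  refine ⟨(univ.filter fun u : K => u = 0 ∨ β * u ^ 3 = 1).card, card_pos.2 ⟨0, by simp⟩, ?_, ?_⟩
  · have h2 : (univ.filter fun u : K => u = 0 ∨ β * u ^ 3 = 1) ⊆
        insert 0 (nthRoots 3 β⁻¹).toFinset := fun u hu => by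
      rcases (mem_filter.1 hu).2 with h | h
      · simp [h]
      · refine mem_insert_of_mem ?_
        rw [Multiset.mem_toFinset, mem_nthRoots (by norm_num)]
        exact eq_inv_of_mul_eq_one_right h
    refine (card_le_card h2).trans ((card_insert_le _ _).trans ?_)
    have := (Multiset.toFinset_card_le (nthRoots 3 β⁻¹)).trans (card_nthRoots 3 β⁻¹)
    omega
  · rw [card_filter]
    push_cast
    refine sum_congr rfl fun u _ => ?_
    split_ifs with h
    · rcases h with h | h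
      · simp [h]
      · rw [h, h1]
    · rfl

end one

variable {K L : Type} [Field K] [Fintype K] [DecidableEq K] [CharP K 2] [Field L]
  [Fintype L] [DecidableEq L] [CharP L 2] [Algebra K L] (F : Fv K L) (C : Chr K)

include F

theorem tr_map (c : K) : Algebra.trace K L (algebraMap K L c) = c := by
  rw [Algebra.trace_algebraMap, F.rank, nsmul_eq_mul]
  push_cast
  linear_combination (2 * c) * (two_zero (K := K))

theorem tr_sq (x : L) : Algebra.trace K L (x ^ 2) = Algebra.trace K L x ^ 2 :=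
  (algebraMap K L).injective (by
    rw [map_pow (algebraMap K L), F.tr, F.tr]
    simp only [map_pow, CharTwo.add_sq])

theorem tr_σ (x : L) : Algebra.trace K L (F.σ x) = Algebra.trace K L x :=
  (algebraMap K L).injective (by rw [F.tr, F.tr, F.five]; ring)

theorem tr_mul (β : K) (x : L) :
    Algebra.trace K L (algebraMap K L β * x) = β * Algebra.trace K L x := by
  rw [← Algebra.smul_def, map_smul, smul_eq_mul]

/-- the character of the big field -/
def CL : Chr L where
  ψ := C.ψ.compAddMonoidHom (Algebra.trace K L).toAddMonoidHom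
  sq x := by
    show C.ψ (Algebra.trace K L (x ^ 2)) = C.ψ (Algebra.trace K L x)
    rw [tr_sq F, C.sq]
  ne := let ⟨c, hc⟩ := C.ne; ⟨algebraMap K L c, by
    show C.ψ (Algebra.trace K L _) ≠ 1
    rwa [tr_map F]⟩

theorem CL_apply (x : L) : (CL F C).ψ x = C.ψ (Algebra.trace K L x) := rfl

theorem fix_root {ω : L} (h : ω ^ 3 = 1) : F.σ ω = ω := by
  have h1 := F.pw ω
  rw [pow_eq_pow_mod _ h] at h1
  have h5 : Fintype.card K % 3 < 3 := Nat.mod_lt _ (by norm_num)
  interval_cases Fintype.card K % 3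
  · rw [pow_zero] at h1
    rw [h1]
    exact F.σ.injective (by rw [h1, map_one])
  · rw [h1, pow_one]
  · have h2 : F.σ (F.σ ω) = ω := by
      rw [h1, map_pow, h1]
      linear_combination ω * h
    have h3 := F.five ω
    rwa [h2, h2] at h3

theorem fix_cube {u : L} (h : F.σ (u ^ 3) = u ^ 3) : F.σ u = u := by
  by_cases h0 : u = 0
  · rw [h0, map_zero]
  have h1 : (F.σ u / u) ^ 3 = 1 := by
    rw [div_pow, ← map_pow, h, div_self (pow_ne_zero 3 h0)]
  have h2 := fix_root F h1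
  generalize hw : F.σ u / u = ω at h1 h2
  have h3 : F.σ u = ω * u := by rw [← hw, div_mul_cancel₀ _ h0]
  have h4 := F.five u
  simp only [h3, map_mul, h2] at h4
  have h5 : ω ^ 5 = 1 := mul_right_cancel₀ h0 (by linear_combination h4)
  have h6 : ω = 1 := by linear_combination (-ω) * h5 + (ω ^ 3 + 1) * h1
  rw [h3, h6, one_mul]

theorem card_L : Fintype.card L = Fintype.card K ^ 5 := by
  rw [Module.card_eq_pow_finrank (K := K), F.rank]

theorem sq_eq {β : K} (hβ : β ≠ 0) : (∑ p : L, C.ψ (β * Algebra.trace K L (p ^ 3))) ^ 2 =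
    ((Fintype.card K : ℝ) ^ 2 * ∑ j : K, C.ψ (β * j ^ 3)) ^ 2 := by
  have hi := (algebraMap K L).injective
  have h1 := sq_sum (CL F C) (β := algebraMap K L β) ((_root_.map_ne_zero _).2 hβ)
  simp only [CL_apply, tr_mul F] at h1
  rw [h1, mul_pow, sq_sum C hβ, card_L F, ← Fintype.sum_of_injective (algebraMap K L) hi
    (fun u : K => if u = 0 ∨ β * u ^ 3 = 1 then C.ψ (β * u ^ 3) else 0)]
  · push_cast
    ring
  · intro u hu
    refine if_neg fun h => hu (F.fix u ?_)
    rcases h with h | h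
    · rw [h, map_zero]
    · refine fix_cube F ?_
      rw [eq_inv_of_mul_eq_one_right h, ← map_inv₀, F.fixK]
  · intro u
    rw [← map_pow, tr_map F, ← map_mul]
    simp only [_root_.map_eq_zero, map_eq_one_iff _ hi]

theorem mod_five (β : K) :
    Fintype.card {p : L // C.ψ (β * Algebra.trace K L (p ^ 3)) = -1} ≡
      Fintype.card {j : K // C.ψ (β * j ^ 3) = -1} [MOD 5] := by
  have : Fact (Nat.Prime 5) := ⟨by norm_num⟩
  let f : Function.End {p : L // C.ψ (β * Algebra.trace K L (p ^ 3)) = -1} :=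
    fun p => ⟨F.σ p.1, by rw [← map_pow, tr_σ F]; exact p.2⟩
  have h1 : f ^ 5 ^ 1 = 1 := funext fun p => Subtype.ext (F.five p.1)
  refine (Equiv.Perm.card_fixedPoints_modEq h1).trans ?_
  rw [Fintype.card_congr (Equiv.ofBijective (fun j : {j : K // C.ψ (β * j ^ 3) = -1} =>
    (⟨⟨algebraMap K L j.1, by rw [← map_pow, tr_map F]; exact j.2⟩,
      Subtype.ext (F.fixK j.1)⟩ : f.fixedPoints)) ⟨fun a b h => ?_, fun p => ?_⟩)]
  · exact Subtype.ext ((algebraMap K L).injective (congrArg (·.1.1) h))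
  · obtain ⟨c, hc⟩ := F.fix p.1.1 (congrArg Subtype.val p.2)
    have h2 := p.1.2
    rw [← hc, ← map_pow, tr_map F] at h2
    exact ⟨⟨c, h2⟩, Subtype.ext (Subtype.ext hc)⟩

end Z2

open Z2 in
theorem z2 : Z2 := by
  intro K L _ _ _ _ _ _ _ _ _ F C β hβ
  rcases sq_eq_sq_iff_eq_or_eq_neg.1 (sq_eq F C hβ) with h | h
  · exact h
  by_cases hc : Function.Injective fun j : K => j ^ 3
  · have h1 : ∑ j : K, C.ψ (β * j ^ 3) = 0 := by
      rw [(Finite.injective_iff_bijective.1 hc).sum_comp fun y => C.ψ (β * y)]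
      simpa only [mul_comm β, if_neg hβ] using C.sum_mul β
    rw [h, h1, mul_zero, neg_zero]
  exfalso
  obtain ⟨ω, h1, h2⟩ : ∃ ω : K, ω ^ 3 = 1 ∧ ω ≠ 1 := by
    simp only [Function.Injective, not_forall] at hc
    obtain ⟨x, y, h1, h2⟩ := hc
    have h0 : y ≠ 0 := fun h0 => h2 (by rw [h0] at h1 ⊢; simpa using h1)
    exact ⟨x / y, by rw [div_pow, h1, div_self (pow_ne_zero 3 h0)],
      fun k => h2 (by rwa [div_eq_one_iff_eq h0] at k)⟩
  have h3 : C.ψ 1 = 1 := by
    have h4 : ω ^ 2 + ω = 1 := mul_left_cancel₀ (sub_ne_zero.2 h2)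
      (by linear_combination h1 + (1 - ω) * (two_zero (K := K)))
    rw [← h4, C.add, C.sq, C.mul_self]
  obtain ⟨n, n1, n2, n3⟩ := rho C β h3
  have h4 := sq_sum C hβ
  have h5 := card_mod h1 h2
  have h6 := mod_five F C β
  rw [sum_card C fun p : L => β * Algebra.trace K L (p ^ 3), card_L F] at h
  rw [n3] at h4
  rw [sum_card C fun j : K => β * j ^ 3] at h h4
  generalize Fintype.card {p : L // C.ψ (β * Algebra.trace K L (p ^ 3)) = -1} = a at h h6
  generalize Fintype.card {j : K // C.ψ (β * j ^ 3) = -1} = b at h h4 h6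
  generalize Fintype.card K = r at h h4 h5
  have e1 : ((r : ℤ) ^ 5 - 2 * a : ℤ) = -(r ^ 2 * (r - 2 * b)) := by exact_mod_cast h
  have e2 : ((r : ℤ) - 2 * b) ^ 2 = r * n := by exact_mod_cast h4
  have f1 := congrArg (Int.cast : ℤ → ZMod 5) e1
  have f2 := congrArg (Int.cast : ℤ → ZMod 5) e2
  have f3 : ((a : ℕ) : ZMod 5) = b := (ZMod.natCast_eq_natCast_iff _ _ _).2 h6
  have f4 : (r : ZMod 5) ^ 2 = 1 := by
    rw [← Nat.cast_pow, ← ZMod.natCast_mod, h5, Nat.cast_one]
  push_cast at f1 f2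
  rw [f3] at f1
  generalize (r : ZMod 5) = x at f1 f2 f4
  generalize (b : ZMod 5) = y at f1 f2
  interval_cases n <;> revert x y <;> decide

end Pool.Agent.MP_e262d6_nt.DW
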