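import Pool.Agent.MP_e262d6_nt.DW.Spec

/-! Project DW, row ZD: the normalised sum at `v2 = 0`. -/

set_option autoImplicit false
set_option linter.unusedSectionVars false

noncomputable section

namespace Pool.Agent.MP_e262d6_nt.DW

open Finset Polynomial Pool.Agent.MP_e262d6_nt.H61

namespace Zd

variable {K : Type} [Field K] [Fintype K] [DecidableEq K] [CharP K 2]

theorem expand {P : K[X]} (hm : P.Monic) (hd : P.natDegree = 5) :
    P = X ^ 5 + C (P.coeff 4) * X ^ 4 + C (P.coeff 3) * X ^ 3 + C (P.coeff 2) * X ^ 2 +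
      C (P.coeff 1) * X + C (P.coeff 0) := by
  have h := hm.as_sum
  rw [hd] at h
  simp only [sum_range_succ, range_zero, sum_empty, pow_zero, pow_one, mul_one, zero_add] at h
  linear_combination h

theorem q2_zero {a b c : K} (h : q2 a b c = 0) : b = 0 ∧ c = 0 := by
  have h1 := congrArg (fun f => coeff f 1) h
  have h2 := congrArg (fun f => coeff f 2) h
  simp [q2, coeff_C] at h1 h2
  exact ⟨h1, h2⟩

theorem dvd_small {U0 U1 b c : K} : X * q2 U0 U1 1 ∣ q2 0 b c ↔ b = 0 ∧ c = 0 := by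
  constructor
  · intro h
    apply q2_zero (a := 0)
    apply eq_zero_of_dvd_of_natDegree_lt h
    have h1 : (X * q2 U0 U1 1).natDegree = 3 := by unfold q2; compute_degree!
    have h2 : (q2 0 b c).natDegree ≤ 2 := by unfold q2; compute_degree
    omega
  · rintro ⟨rfl, rfl⟩
    simp [q2]

theorem dvd_iff {P : K[X]} (hm : P.Monic) (hd : P.natDegree = 5) (s w1 w2 U0 U1 : K) :
    X * q2 U0 U1 1 ∣ q2 1 s 0 * q2 (P.coeff 0) w1 w2 + P ↔
      P.coeff 1 + w1 + s * P.coeff 0 +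
          U0 * (P.coeff 3 + s * w2 + U0 + U1 * (P.coeff 4 + U1)) = 0 ∧
        P.coeff 2 + w2 + s * w1 + U0 * (P.coeff 4 + U1) +
          U1 * (P.coeff 3 + s * w2 + U0 + U1 * (P.coeff 4 + U1)) = 0 := by
  have hP := expand hm hd
  generalize P.coeff 0 = p0 at *
  generalize P.coeff 1 = p1 at *
  generalize P.coeff 2 = p2 at *
  generalize P.coeff 3 = p3 at *
  generalize P.coeff 4 = p4 at *
  have h2 : (2 : K[X]) = 0 := CharTwo.two_eq_zero
  have key : q2 1 s 0 * q2 p0 w1 w2 + P =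
      X * q2 U0 U1 1 * q2 (p3 + s * w2 + U0 + U1 * (p4 + U1)) (p4 + U1) 1 +
        q2 0 (p1 + w1 + s * p0 + U0 * (p3 + s * w2 + U0 + U1 * (p4 + U1)))
          (p2 + w2 + s * w1 + U0 * (p4 + U1) + U1 * (p3 + s * w2 + U0 + U1 * (p4 + U1))) := by
    rw [hP]
    simp only [q2, map_add, map_mul, map_one, map_zero]
    linear_combination (C p0 - C U1 * X ^ 4 - (C U0 + C U1 * (C p4 + C U1)) * X ^ 3 -
      (C U0 * (C p4 + C U1) + C U1 * (C p3 + C s * C w2 + C U0 + C U1 * (C p4 + C U1))) * X ^ 2 -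
      C U0 * (C p3 + C s * C w2 + C U0 + C U1 * (C p4 + C U1)) * X) * h2
  rw [key, dvd_add_right (dvd_mul_right _ _), dvd_small]

theorem no_root {P : K[X]} (hd : P.natDegree = 5) (hi : Irreducible P) (j : K) :
    P.eval j ≠ 0 := fun h => by
  have := degree_eq_one_of_irreducible_of_root hi h
  rw [degree_eq_natDegree hi.ne_zero, hd] at this
  exact absurd this (by decide)

/-- the numerator -/
def num (P : K[X]) (s j : K) : K :=
  j ^ 3 + P.coeff 4 * j ^ 2 + P.coeff 3 * j + P.coeff 2 + P.coeff 1 * s + P.coeff 0 * s ^ 2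

theorem num_ne {P : K[X]} (hm : P.Monic) (hd : P.natDegree = 5) (hi : Irreducible P) {s j : K}
    (h : 1 + s * j = 0) : num P s j ≠ 0 := fun h0 => by
  apply no_root hd hi j
  rw [expand hm hd]
  simp only [eval_add, eval_mul, eval_pow, eval_X, eval_C]
  unfold num at h0
  linear_combination j ^ 2 * h0 - (P.coeff 1 * j + P.coeff 0 * (s * j - 1)) * h +
    (P.coeff 1 * j) * (two_zero (K := K))

open Classical in
theorem inner (C : Chr K) {P : K[X]} (hm : P.Monic) (hd : P.natDegree = 5) (hi : Irreducible P)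
    (β s U0 j : K) :
    (∑ w2 : K, ∑ w1 : K, if X * q2 U0 (j + s * U0) 1 ∣ q2 1 s 0 * q2 (P.coeff 0) w1 w2 + P
      then C.ψ (w2 * β) else 0) =
      (if 1 + s * j = 0 then 0 else C.ψ (num P s j / (1 + s * j) * β)) *
        C.ψ ((U0 * P.coeff 4 + s * U0 ^ 2) * β) := by
  have h2 := two_zero (K := K)
  have e : ∀ w1 w2 : K, X * q2 U0 (j + s * U0) 1 ∣ q2 1 s 0 * q2 (P.coeff 0) w1 w2 + P ↔
      w1 = P.coeff 1 + s * P.coeff 0 +
        U0 * (P.coeff 3 + s * w2 + U0 + (j + s * U0) * (P.coeff 4 + (j + s * U0))) ∧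
      w2 * (1 + s * j) = num P s j + (U0 * P.coeff 4 + s * U0 ^ 2) * (1 + s * j) := by
    intro w1 w2
    rw [dvd_iff hm hd]
    unfold num
    constructor
    · rintro ⟨a, b⟩
      constructor <;> grind
    · rintro ⟨a, b⟩
      constructor <;> grind
  simp only [e, ite_and, sum_ite_eq', mem_univ, if_true]
  by_cases h : 1 + s * j = 0
  · have := num_ne hm hd hi h
    simp [h, this.symm]
  · have e2 : ∀ w2 : K,
        w2 * (1 + s * j) = num P s j + (U0 * P.coeff 4 + s * U0 ^ 2) * (1 + s * j) ↔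
          w2 = num P s j / (1 + s * j) + (U0 * P.coeff 4 + s * U0 ^ 2) := by
      intro w2
      rw [div_add' _ _ _ h, eq_div_iff h]
    simp only [e2, sum_ite_eq', mem_univ, if_true, if_neg h]
    rw [add_mul, C.add]

theorem gauss (C : Chr K) {b : K} (hb : b ≠ 0) (t s : K) :
    ∑ U0 : K, C.ψ ((U0 * t + s * U0 ^ 2) * b⁻¹) =
      if s = t ^ 2 / b then (Fintype.card K : ℝ) else 0 := by
  have e : ∀ U0 : K, C.ψ ((U0 * t + s * U0 ^ 2) * b⁻¹) =
      C.ψ (U0 ^ 2 * ((t ^ 2 / b + s) * b⁻¹)) := by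
    intro U0
    rw [add_mul, C.add, ← C.sq (U0 * t * b⁻¹), ← C.add]
    congr 1
    field_simp
  simp only [e]
  rw [(sq_bij (K := K)).sum_comp fun x => C.ψ (x * ((t ^ 2 / b + s) * b⁻¹)), C.sum_mul]
  congr 1
  rw [mul_eq_zero, or_iff_left (inv_ne_zero hb), CharTwo.add_eq_zero]
  exact propext eq_comm

end Zd

open Zd in
/-- ZD. -/
theorem zd : ZD := by
  classical
  intro K _ _ _ _ C P hm hd hi b hb
  have h1 : Zs C P b⁻¹ 0 = ∑ s : K, ∑ j : K,
      (if 1 + s * j = 0 then 0 else C.ψ (num P s j / (1 + s * j) * b⁻¹)) *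
        if s = P.coeff 4 ^ 2 / b then (Fintype.card K : ℝ) else 0 := by
    unfold Zs
    refine sum_congr rfl fun s _ => ?_
    rw [sum4_comm]
    simp only [← gauss C hb, mul_sum]
    rw [sum_comm (f := fun j U0 : K =>
      (if 1 + s * j = 0 then 0 else C.ψ (num P s j / (1 + s * j) * b⁻¹)) *
        C.ψ ((U0 * P.coeff 4 + s * U0 ^ 2) * b⁻¹))]
    refine sum_congr rfl fun U0 _ => ?_
    rw [← Equiv.sum_comp (Equiv.addRight (s * U0))]
    refine sum_congr rfl fun j _ => ?_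
    rw [sum_comm, ← inner C hm hd hi]
    simp only [Equiv.coe_addRight]
    congr!
  rw [h1, sum_comm]
  simp only [mul_ite, mul_zero, sum_ite_eq', mem_univ, if_true]
  rw [Rj, mul_sum]
  refine sum_congr rfl fun j _ => ?_
  have e : 1 + P.coeff 4 ^ 2 / b * j = (b + P.coeff 4 ^ 2 * j) / b := by field_simp
  rw [e, mul_comm]
  by_cases h : b + P.coeff 4 ^ 2 * j = 0
  · simp [h]
  · rw [if_neg h, if_neg (div_ne_zero h hb)]
    congr 2
    unfold num
    field_simp

end Pool.Agent.MP_e262d6_nt.DW
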