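import Pool.Agent.MP_e262d6_nt.DW.Spec

/-! Project DW, row ZP: the normalised sum over all `v2`. -/

set_option autoImplicit false
set_option linter.unusedSectionVars false

noncomputable section

namespace Pool.Agent.MP_e262d6_nt.DW

open Finset Polynomial Pool.Agent.MP_e262d6_nt.H61

namespace Zp

variable {K : Type} [Field K] [Fintype K] [DecidableEq K] [CharP K 2]

theorem reorder (f : K → K → K → K → K → K → ℝ) :
    ∑ v2, ∑ v1, ∑ w1, ∑ w2, ∑ U0, ∑ U1, f v2 v1 w1 w2 U0 U1 =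
      ∑ w2, ∑ w1, ∑ U0, ∑ U1, ∑ v1, ∑ v2, f v2 v1 w1 w2 U0 U1 := by
  have h1 : ∑ v2, ∑ v1, ∑ w1, ∑ w2, ∑ U0, ∑ U1, f v2 v1 w1 w2 U0 U1 =
      ∑ x : K × K × K × K × K × K, f x.1 x.2.1 x.2.2.1 x.2.2.2.1 x.2.2.2.2.1 x.2.2.2.2.2 := by
    simp only [Fintype.sum_prod_type]
  have h2 : ∑ w2, ∑ w1, ∑ U0, ∑ U1, ∑ v1, ∑ v2, f v2 v1 w1 w2 U0 U1 =
      ∑ x : K × K × K × K × K × K, f x.2.2.2.2.2 x.2.2.2.2.1 x.2.1 x.1 x.2.2.1 x.2.2.2.1 := by
    simp only [Fintype.sum_prod_type]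
  rw [h1, h2]
  exact Fintype.sum_equiv
    ⟨fun x => (x.2.2.2.1, x.2.2.1, x.2.2.2.2.1, x.2.2.2.2.2, x.2.1, x.1),
      fun x => (x.2.2.2.2.2, x.2.2.2.2.1, x.2.1, x.1, x.2.2.1, x.2.2.2.1),
      fun _ => rfl, fun _ => rfl⟩ _ _ fun _ => rfl

theorem roots_sum {w0 : K} (h0 : w0 ≠ 0) (w2 : K) :
    ∑ w1 : K, ((univ.filter fun t : K => w0 + w1 * t + w2 * t ^ 2 = 0).card : ℝ) =
      Fintype.card K - 1 := by
  have h1 : ∀ w1 : K, ((univ.filter fun t : K => w0 + w1 * t + w2 * t ^ 2 = 0).card : ℝ) =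
      ∑ t : K, if w0 + w1 * t + w2 * t ^ 2 = 0 then (1 : ℝ) else 0 := fun w1 => by
    rw [Finset.card_filter]; push_cast; rfl
  simp only [h1]
  rw [Finset.sum_comm]
  have h2 : ∀ t : K, (∑ w1 : K, if w0 + w1 * t + w2 * t ^ 2 = 0 then (1 : ℝ) else 0) =
      if t = 0 then 0 else 1 := fun t => by
    by_cases ht : t = 0
    · simp [ht, h0]
    · rw [if_neg ht, Finset.sum_eq_single (-(w0 + w2 * t ^ 2) / t)]
      · rw [if_pos]; field_simp; ring
      · intro b _ hb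
        rw [if_neg]
        intro h
        apply hb
        field_simp
        linear_combination h
      · intro h; exact absurd (mem_univ _) h
  simp only [h2]
  rw [sum_ite_U (fun _ => (1 : ℝ)), Finset.sum_const, nsmul_eq_mul, mul_one, card_U]

end Zp

theorem zp (h1 : UQ) (h2 : COP) : ZP := by
  classical
  intro K _ _ _ _ C P hm hd hi β
  have hP0 : P.coeff 0 ≠ 0 := by
    intro h
    have hx : X ∣ P := X_dvd_iff.2 h
    have := (irreducible_X.associated_of_dvd hi hx)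
    have h3 := natDegree_eq_of_degree_eq (degree_eq_degree_of_associated this)
    rw [natDegree_X, hd] at h3
    omega
  unfold Zs
  rw [Zp.reorder]
  have key : ∀ w2 : K, (∑ w1 : K, ∑ U0 : K, ∑ U1 : K, ∑ v1 : K, ∑ v2 : K,
      if X * q2 U0 U1 1 ∣ q2 1 v1 v2 * q2 (P.coeff 0) w1 w2 + P then C.ψ (w2 * β) else 0) =
      C.ψ (w2 * β) * ((Fintype.card K : ℝ) ^ 3 - Fintype.card K * (Fintype.card K - 1) - 1) +
        if w2 = 0 then 1 else 0 := fun w2 => by
    have a1 : ∀ w1 U0 U1 : K, (∑ v1 : K, ∑ v2 : K,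
        if X * q2 U0 U1 1 ∣ q2 1 v1 v2 * q2 (P.coeff 0) w1 w2 + P then C.ψ (w2 * β) else 0) =
        C.ψ (w2 * β) * if IsCoprime (q2 (P.coeff 0) w1 w2) (q2 U0 U1 1) then 1 else 0 := by
      intro w1 U0 U1
      rw [← h1 K P hm hd hi w1 w2 U0 U1, Finset.mul_sum]
      refine Finset.sum_congr rfl fun v1 _ => ?_
      rw [Finset.mul_sum]
      refine Finset.sum_congr rfl fun v2 _ => ?_
      split_ifs <;> simp
    simp only [a1, ← Finset.mul_sum]
    simp only [h2 K (P.coeff 0) _ w2 hP0]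
    have hr := Zp.roots_sum hP0 w2
    by_cases hw : w2 = 0
    · simp only [if_pos hw, add_zero]
      rw [Finset.sum_sub_distrib, ← Finset.mul_sum, hr, hw, zero_mul, C.zero]
      simp only [Finset.sum_const, card_univ, nsmul_eq_mul]
      ring
    · simp only [if_neg hw, add_zero]
      rw [Finset.sum_add_distrib, Finset.sum_sub_distrib, Finset.sum_sub_distrib,
        ← Finset.mul_sum, hr]
      simp only [Finset.sum_const, card_univ, nsmul_eq_mul]
      ring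
  simp only [key]
  rw [Finset.sum_add_distrib, ← Finset.sum_mul, C.sum_mul, Finset.sum_ite_eq' univ (0 : K),
    if_pos (mem_univ _)]
  split_ifs <;> ring

end Pool.Agent.MP_e262d6_nt.DW
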