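import Pool.Agent.MP_e262d6_nt.DW.Uq
import Pool.Agent.MP_e262d6_nt.DW.Cop
import Pool.Agent.MP_e262d6_nt.DW.Zp
import Pool.Agent.MP_e262d6_nt.DW.Zd
import Pool.Agent.MP_e262d6_nt.DW.Sc
import Pool.Agent.MP_e262d6_nt.DW.N10
import Pool.Agent.MP_e262d6_nt.DW.Pt
import Pool.Agent.MP_e262d6_nt.DW.Lifts
import Pool.Agent.MP_e262d6_nt.DW.Kl
import Pool.Agent.MP_e262d6_nt.DW.R3
import Pool.Agent.MP_e262d6_nt.DW.R5
import Pool.Agent.MP_e262d6_nt.DW.Full
import Pool.Agent.MP_e262d6_nt.DW.Sub
import Pool.Agent.MP_e262d6_nt.DW.Lift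
import Pool.Agent.MP_e262d6_nt.DW.Ka
import Pool.Agent.MP_e262d6_nt.DW.Z1
import Pool.Agent.MP_e262d6_nt.DW.Z2
import Pool.Agent.MP_e262d6_nt.DW.Chp
import Pool.Agent.MP_e262d6_nt.DW.Twd
import Pool.Agent.MP_e262d6_nt.DW.Jac
import Pool.Agent.MP_e262d6_nt.DW.Lev
import Pool.Agent.MP_e262d6_nt.DW.Gen
import Pool.Agent.MP_e262d6_nt.DW.Main

/-! Project DW: assembly. -/

set_option autoImplicit false

noncomputable section

namespace Pool.Agent.MP_e262d6_nt.DW

open Finset Polynomial Pool.Agent.MP_e262d6_nt.H61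

theorem main_all : MAIN :=
  main sub (ka lift5 r3 r5 full) z1 z2 chp5
    (gen chp5 (lev chp5 (twd chp5) jac lifts) (pt sc (zp uq cop) zd n10)) kl

/-- the Frobenius data of an extension of degree five -/
def mkFv (K L : Type) [Field K] [Fintype K] [Field L] [Fintype L] [Algebra K L]
    (hL : Module.finrank K L = 5) : Fv K L where
  σ := (FiniteField.frobeniusAlgHom K L).toRingHom
  pw _ := rfl
  five x := by
    show ((((x ^ Fintype.card K) ^ Fintype.card K) ^ Fintype.card K) ^ Fintype.card K) ^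
      Fintype.card K = x
    simp only [← pow_mul]
    conv_rhs => rw [← FiniteField.pow_card x, Module.card_eq_pow_finrank (K := K), hL]
    congr 1
    ring
  fixK c := (FiniteField.frobeniusAlgHom K L).commutes c
  fix _ h := mem_range_of_pow h
  tr x := by
    rw [FiniteField.algebraMap_trace_eq_sum_pow, hL, Nat.card_eq_fintype_card]
    show _ = x + x ^ Fintype.card K + (x ^ Fintype.card K) ^ Fintype.card K +
      ((x ^ Fintype.card K) ^ Fintype.card K) ^ Fintype.card K +
      (((x ^ Fintype.card K) ^ Fintype.card K) ^ Fintype.card K) ^ Fintype.card K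
    simp only [← pow_mul, sum_range_succ, sum_range_zero]
    ring_nf
  nm x := by
    rw [FiniteField.algebraMap_norm_eq_prod_pow, hL, Nat.card_eq_fintype_card]
    show _ = x * x ^ Fintype.card K * (x ^ Fintype.card K) ^ Fintype.card K *
      ((x ^ Fintype.card K) ^ Fintype.card K) ^ Fintype.card K *
      (((x ^ Fintype.card K) ^ Fintype.card K) ^ Fintype.card K) ^ Fintype.card K
    simp only [← pow_mul, prod_range_succ, prod_range_zero]
    ring_nf
  rank := hL

/-- the canonical character of the small field -/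
def canC (K : Type) [Field K] [Fintype K] [Algebra (ZMod 2) K] : Chr K where
  ψ := can K
  sq := can_sq
  ne := by
    obtain ⟨x, hx⟩ := Algebra.trace_surjective (ZMod 2) K 1
    refine ⟨x, ?_⟩
    show (-1 : ℝ) ^ (Algebra.trace (ZMod 2) K x).val ≠ 1
    rw [hx, ZMod.val_one]
    norm_num

theorem can_trace {K L : Type} [Field K] [Fintype K] [Algebra (ZMod 2) K] [Field L] [Fintype L]
    [Algebra (ZMod 2) L] [Algebra K L] (x : L) : can L x = can K (Algebra.trace K L x) := by
  have : IsScalarTower (ZMod 2) K L := IsScalarTower.of_algebraMap_eq' (RingHom.ext_zmod _ _)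
  show (-1 : ℝ) ^ (Algebra.trace (ZMod 2) L x).val =
    (-1) ^ (Algebra.trace (ZMod 2) K (Algebra.trace K L x)).val
  rw [Algebra.trace_trace]

theorem walsh_eq {K L : Type} [Field K] [Fintype K] [DecidableEq K] [Algebra (ZMod 2) K] [Field L]
    [Fintype L] [DecidableEq L] [Algebra (ZMod 2) L] [Algebra K L] (F : Fv K L) (a : L) {v : L}
    (hv : v ≠ 0) :
    ∑ x : L, can L (a * x + v * x ^ (Fintype.card K ^ 4 + Fintype.card K ^ 3 +
      Fintype.card K ^ 2 + Fintype.card K - 1)) =
      Wb L (canC K) (Algebra.norm K v) (a ^ 2 * v) := by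
  have : CharP L 2 := charP_of_injective_algebraMap (algebraMap (ZMod 2) L).injective 2
  have hb : Function.Bijective fun x : L => v⁻¹ * x ^ 2 :=
    (Equiv.mulLeft₀ v⁻¹ (inv_ne_zero hv)).bijective.comp sq_bij
  refine Eq.trans (sum_congr rfl fun x _ => ?_) (hb.sum_comp fun x => (canC K).ψ
    (Algebra.norm K v * Algebra.norm K x * Algebra.trace K L x⁻¹ ^ 2 +
      Algebra.trace K L (a ^ 2 * v * x)))
  rw [AddChar.map_add_eq_mul, AddChar.map_add_eq_mul, mul_comm, ← can_sq (a * x),
    can_trace (K := K) (v * _), can_trace (K := K) ((a * x) ^ 2), ← can_sq (Algebra.trace K L (v * _))]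
  show can K _ * can K _ = can K _ * can K _
  congr 2
  · have h1 : x ^ (Fintype.card K ^ 4 + Fintype.card K ^ 3 + Fintype.card K ^ 2 +
        Fintype.card K - 1) = algebraMap K L (Algebra.norm K x) * (x ^ 2)⁻¹ := by
      have r1 : 1 < Fintype.card K := Fintype.one_lt_card
      by_cases hx : x = 0
      · rw [hx, zero_pow (by omega)]
        simp
      · rw [pow_sub₀ _ hx (by omega), F.nm]
        simp only [F.pw, ← pow_mul]
        field_simp
        ring
    have n0 : Algebra.norm K v ≠ 0 := Algebra.norm_ne_zero_iff.2 hv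
    have h2 : Algebra.norm K v * Algebra.norm K (v⁻¹ * x ^ 2) = Algebra.norm K x ^ 2 := by
      rw [← map_mul, mul_inv_cancel_left₀ hv, map_pow]
    rw [h1, h2, mul_left_comm, ← Algebra.smul_def, map_smul, smul_eq_mul, mul_pow, mul_inv,
      inv_inv]
  · congr 1
    field_simp

end Pool.Agent.MP_e262d6_nt.DW
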