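import Pool.Agent.MP_e262d6_nt.DW.Spec

/-! Project DW: consequences of the formula (bound, maximum, zero set). -/

set_option autoImplicit false
set_option linter.unusedSectionVars false

noncomputable section

namespace Pool.Agent.MP_e262d6_nt.DW

open Finset Polynomial Pool.Agent.MP_e262d6_nt.H61

namespace Cor

theorem par {ι : Type} (s : Finset ι) (f : ι → ℝ) (hf : ∀ i, f i = 1 ∨ f i = -1) :
    ∃ k : ℤ, ∑ i ∈ s, f i = s.card - 2 * k := by
  classical
  induction s using Finset.induction_on with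
  | empty => exact ⟨0, by simp⟩
  | insert i s hi ih =>
    obtain ⟨k, hk⟩ := ih
    rw [sum_insert hi, card_insert_of_notMem hi, hk]
    rcases hf i with h | h
    · exact ⟨k, by rw [h]; push_cast; ring⟩
    · exact ⟨k + 1, by rw [h]; push_cast; ring⟩

variable {K : Type} [Field K] [Fintype K] [DecidableEq K] [CharP K 2] (C : Chr K)

theorem abs_psi (x : K) : |C.ψ x| = 1 := by
  rcases C.pm x with h | h <;> simp [h]

theorem abs_sum_le {ι : Type} (s : Finset ι) (f : ι → K) : |∑ i ∈ s, C.ψ (f i)| ≤ s.card := by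
  refine (abs_sum_le_sum_abs _ _).trans ?_
  simp [abs_psi]

theorem klo_odd (c : K) (n : ℤ) : Klo C c ≠ n * Fintype.card K := by
  obtain ⟨k, hk⟩ := par (U K) (fun z => C.ψ (z + c / z)) fun z => C.pm _
  have he := FiniteField.even_card_of_char_two (ringChar.eq K 2)
  rw [Klo, hk, card_U]
  intro h
  have h1 : (Fintype.card K : ℤ) - 1 - 2 * k = n * Fintype.card K := by exact_mod_cast h
  obtain ⟨j, hj⟩ : ∃ j : ℤ, (Fintype.card K : ℤ) = 2 * j := ⟨(Fintype.card K / 2 : ℕ), by omega⟩
  rw [hj, mul_left_comm] at h1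
  omega

theorem klo_zero : Klo C 0 = -1 := by
  have h := C.sum_mul 1
  simp only [mul_one, one_ne_zero, if_false] at h
  simp only [Klo, zero_div, add_zero]
  rw [sum_U, h, C.zero]
  ring

theorem klo_abs (c : K) : |Klo C c| ≤ Fintype.card K - 1 := by
  rw [← card_U]
  exact abs_sum_le C _ _

theorem gold_sq (h3 : ∀ w : K, w ^ 3 = 1 → w = 1) (c : K) :
    (∑ z, C.ψ (z ^ 3 + c * z)) ^ 2 = Fintype.card K * (1 + C.ψ (1 + c)) := by
  have h1 : ∀ z : K, ∑ y, C.ψ (y ^ 3 + c * y) = ∑ w, C.ψ ((z + w) ^ 3 + c * (z + w)) :=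
    fun z => (Equiv.sum_comp (Equiv.addLeft z) fun y => C.ψ (y ^ 3 + c * y)).symm
  have h2 : ∀ w : K, ∑ z, C.ψ (z ^ 3 + c * z) * C.ψ ((z + w) ^ 3 + c * (z + w)) =
      C.ψ (w ^ 3 + c * w) * if w + w ^ 4 = 0 then (Fintype.card K : ℝ) else 0 := fun w => by
    rw [← C.sum_mul, ← sq_bij.sum_comp fun x => C.ψ (x * (w + w ^ 4)), mul_sum]
    refine sum_congr rfl fun z _ => ?_
    have e1 : z ^ 2 * (w + w ^ 4) = z ^ 2 * w + (z * w ^ 2) ^ 2 := by ring
    rw [e1, C.add (z ^ 2 * w), C.sq, ← C.add, ← C.add, ← C.add]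
    congr 1
    linear_combination (z ^ 3 + c * z + z ^ 2 * w + z * w ^ 2) * (two_zero (K := K))
  have h4 : ∀ w : K, w + w ^ 4 = 0 ↔ w = 0 ∨ w = 1 := fun w => by
    constructor
    · intro h
      by_cases hw : w = 0
      · exact Or.inl hw
      · refine Or.inr (h3 w (mul_left_cancel₀ hw ?_))
        linear_combination h - w * (two_zero (K := K))
    · rintro (rfl | rfl)
      · simp
      · linear_combination (two_zero (K := K))
  rw [sq, sum_mul]
  simp only [fun z => congrArg (C.ψ (z ^ 3 + c * z) * ·) (h1 z), mul_sum]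
  rw [sum_comm]
  simp only [h2, h4]
  rw [← sum_subset (subset_univ ({0, 1} : Finset K)) fun w _ hw => by
    rw [if_neg (by simpa using hw), mul_zero], sum_pair zero_ne_one]
  simp [C.zero]
  ring

theorem psi_one (h3 : ∀ w : K, w ^ 3 = 1 → w = 1) : C.ψ 1 = -1 := by
  have hb : Function.Bijective fun z : K => z ^ 3 :=
    Finite.injective_iff_bijective.1 fun x y h => by
      have h : x ^ 3 = y ^ 3 := h
      by_cases hy : y = 0
      · rw [hy, zero_pow three_ne_zero] at h
        rw [hy, pow_eq_zero_iff three_ne_zero |>.1 h]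
      · exact (div_eq_one_iff_eq hy).1 (h3 _ (by rw [div_pow, h, div_self (pow_ne_zero _ hy)]))
  have h := gold_sq C h3 0
  have h0 := C.sum_mul 1
  simp only [mul_one, one_ne_zero, if_false] at h0
  simp only [zero_mul, add_zero] at h
  rw [hb.sum_comp fun x => C.ψ x, h0] at h
  have hr : (0 : ℝ) < Fintype.card K := by exact_mod_cast Fintype.card_pos
  have h1 : (1 + C.ψ 1) = 0 := (mul_eq_zero.1 (h.symm.trans (by ring))).resolve_left hr.ne'
  linarith

theorem gold_zero (h3 : ∀ w : K, w ^ 3 = 1 → w = 1) (c : K) :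
    ∑ z, C.ψ (z ^ 3 + c * z) = 0 ↔ C.ψ c = 1 := by
  have hr : (0 : ℝ) < Fintype.card K := by exact_mod_cast Fintype.card_pos
  rw [← pow_eq_zero_iff two_ne_zero, gold_sq C h3, C.add, psi_one C h3, mul_eq_zero,
    or_iff_right hr.ne']
  constructor <;> intro h <;> linarith

end Cor

variable {K L : Type} [Field K] [Fintype K] [DecidableEq K] [CharP K 2] [Field L]
  [Fintype L] [DecidableEq L] [CharP L 2] [Algebra K L]

open Cor

/-- at the exceptional point the absolute value is `r ^ 2 (r + 1)` -/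
theorem cor_exc (h : MAIN) (F : Fv K L) (C : Chr K) (b : K) (a : L) (hb : b ≠ 0)
    (hT : Algebra.trace K L a ≠ 0) (ha : a = algebraMap K L (b / Algebra.trace K L a ^ 2)) :
    |Wb L C b a| = (Fintype.card K : ℝ) ^ 2 * (Fintype.card K + 1) := by
  have hr : (0 : ℝ) < Fintype.card K := by exact_mod_cast Fintype.card_pos
  have : Module.Finite K L := Module.Finite.of_finite
  rw [h K L F C b a hb, if_neg hT, if_pos ha, ← ha, CharTwo.add_self_eq_zero, Algebra.norm_zero,
    zero_div, klo_zero, abs_mul, abs_mul, abs_psi, abs_of_pos (pow_pos hr 2),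
    abs_of_neg (by linarith)]
  ring

/-- the bound for all coefficients -/
theorem cor_bound (h : MAIN) (F : Fv K L) (C : Chr K) (b : K) (a : L) (hb : b ≠ 0) :
    |Wb L C b a| ≤ (Fintype.card K : ℝ) ^ 2 * (Fintype.card K + 1) := by
  have hr : (0 : ℝ) < Fintype.card K := by exact_mod_cast Fintype.card_pos
  by_cases hT : Algebra.trace K L a = 0
  · rw [h K L F C b a hb, if_pos hT, abs_mul, abs_of_pos (pow_pos hr 2)]
    refine mul_le_mul_of_nonneg_left ((abs_sum_le C _ _).trans ?_) (pow_pos hr 2).le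
    simp
  · by_cases ha : a = algebraMap K L (b / Algebra.trace K L a ^ 2)
    · exact (cor_exc h F C b a hb hT ha).le
    · rw [h K L F C b a hb, if_neg hT, if_neg ha, sub_zero, abs_mul, abs_mul, abs_psi, one_mul,
        abs_of_pos (pow_pos hr 2)]
      refine mul_le_mul_of_nonneg_left ((klo_abs C _).trans ?_) (pow_pos hr 2).le
      linarith

theorem trace_const (F : Fv K L) (c : K) : Algebra.trace K L (algebraMap K L c) = c := by
  rw [Algebra.trace_algebraMap, F.rank, nsmul_eq_mul]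
  linear_combination (exp := 1) (2 * c) * (two_zero (K := K))

/-- the bound is attained -/
theorem cor_max (h : MAIN) (F : Fv K L) (C : Chr K) (c : K) (hc : c ≠ 0) :
    |Wb L C (c ^ 3) (algebraMap K L c)| = (Fintype.card K : ℝ) ^ 2 * (Fintype.card K + 1) := by
  refine cor_exc h F C _ _ (pow_ne_zero _ hc) (by rwa [trace_const F]) ?_
  rw [trace_const F]
  congr 1
  field_simp

/-- the zero set -/
theorem cor_zero (h : MAIN) (F : Fv K L) (C : Chr K) (b : K) (a : L) (hb : b ≠ 0) :
    Wb L C b a = 0 ↔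
      Algebra.trace K L a = 0 ∧ ∑ j : K, C.ψ ((j ^ 3 + F.e2 a * j) / b) = 0 := by
  have hr : (0 : ℝ) < Fintype.card K := by exact_mod_cast Fintype.card_pos
  rw [h K L F C b a hb, mul_eq_zero, or_iff_right (pow_pos hr 2).ne']
  by_cases hT : Algebra.trace K L a = 0
  · have h1 : C.ψ (F.e3 a / b) ≠ 0 := by rcases C.pm (F.e3 a / b) with h | h <;> simp [h]
    simp only [if_pos hT, add_div _ (F.e3 a), C.add, ← sum_mul, mul_eq_zero, or_iff_left h1]
    exact (and_iff_right hT).symm
  · rw [if_neg hT]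
    refine iff_of_false (mul_ne_zero ?_ ?_) fun h => hT h.1
    · rcases C.pm (F.e2 a / Algebra.trace K L a ^ 2 + b / Algebra.trace K L a ^ 3) with h | h <;>
        simp [h]
    · rw [sub_ne_zero]
      split_ifs
      · simpa using klo_odd C _ 1
      · simpa using klo_odd C _ 0

/-- the zero set when cubing is injective on the small field -/
theorem cor_zero_odd (h : MAIN) (F : Fv K L) (C : Chr K) (h3 : ∀ w : K, w ^ 3 = 1 → w = 1)
    (c : K) (a : L) (hc : c ≠ 0) :
    Wb L C (c ^ 3) a = 0 ↔ Algebra.trace K L a = 0 ∧ C.ψ (F.e2 a / c ^ 2) = 1 := by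
  rw [cor_zero h F C _ a (pow_ne_zero _ hc), ← gold_zero C h3,
    ← sum_mul_left hc fun j => C.ψ ((j ^ 3 + F.e2 a * j) / c ^ 3)]
  refine and_congr_right fun _ => ?_
  rw [sum_congr rfl fun j _ => ?_]
  congr 1
  field_simp

end Pool.Agent.MP_e262d6_nt.DW
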