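import Mathlib

/-! Project DW: the definitions used in the final statement. -/

set_option autoImplicit false

noncomputable section

namespace Pool.Agent.MP_e262d6_nt.DW

/-- the canonical additive character `exp (2 π i Tr x / 2)` of a field of characteristic two -/
def mu (F : Type) [Field F] [Algebra (ZMod 2) F] (x : F) : ℂ :=
  Complex.exp (2 * (Real.pi : ℂ) * Complex.I * ((Algebra.trace (ZMod 2) F x).val : ℂ) /
    ((2 : ℕ) : ℂ))

/-- the Walsh coefficient of `b x ^ d` at `a` for the Dobbertin exponent `d` -/
def walsh (L : Type) [Field L] [Fintype L] [Algebra (ZMod 2) L] (m : ℕ) (a b : L) : ℂ :=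
  ∑ x : L, mu L (a * x + b * x ^ (2 ^ (4 * m) + 2 ^ (3 * m) + 2 ^ (2 * m) + 2 ^ m - 1))

/-- the second elementary symmetric function of the five conjugates, `r` the order of `K` -/
def sym2 (K : Type) {L : Type} [Field K] [Field L] [Algebra K L] (r : ℕ) (a : L) : K :=
  Algebra.trace K L (a ^ (1 + r) + a ^ (1 + r ^ 2))

/-- the third elementary symmetric function of the five conjugates -/
def sym3 (K : Type) {L : Type} [Field K] [Field L] [Algebra K L] (r : ℕ) (a : L) : K :=
  Algebra.trace K L (a ^ (1 + r + r ^ 2) + a ^ (1 + r + r ^ 3))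

end Pool.Agent.MP_e262d6_nt.DW
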