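import Pool.Agent.MP_e262d6_nt.DW.Cor
import Pool.Agent.MP_e262d6_nt.DW.FinDefs

/-! Project DW: from the formula over an abstract character to the canonical character. -/

set_option autoImplicit false
set_option linter.unusedSectionVars false

noncomputable section

namespace Pool.Agent.MP_e262d6_nt.DW

open Finset Pool.Agent.MP_e262d6_nt.H61

namespace Fin5

theorem mu_eq {F : Type} [Field F] [Algebra (ZMod 2) F] (x : F) : mu F x = (can F x : ℝ) :=
  can_apply x

theorem can_eq_one {F : Type} [Field F] [Algebra (ZMod 2) F] (x : F) :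
    can F x = 1 ↔ Algebra.trace (ZMod 2) F x = 0 := by
  show (-1 : ℝ) ^ (Algebra.trace (ZMod 2) F x).val = 1 ↔ _
  generalize Algebra.trace (ZMod 2) F x = t
  fin_cases t
  · show (-1 : ℝ) ^ 0 = 1 ↔ (0 : ZMod 2) = 0
    norm_num
  · show (-1 : ℝ) ^ 1 = 1 ↔ (1 : ZMod 2) = 0
    norm_num

/-- the canonical character as a `Chr` -/
def chr (F : Type) [Field F] [Fintype F] [Algebra (ZMod 2) F] : Chr F :=
  ⟨can F, can_sq, by
    obtain ⟨x, hx⟩ := Algebra.trace_surjective (ZMod 2) F 1
    exact ⟨x, fun h => by simp [can_eq_one, hx] at h⟩⟩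

variable {K L : Type} [Field K] [Fintype K] [Algebra (ZMod 2) K] [Field L] [Fintype L]
  [Algebra (ZMod 2) L] [Algebra K L] {m : ℕ}

theorem can_trace (x : L) : can L x = can K (Algebra.trace K L x) := by
  have : IsScalarTower (ZMod 2) K L :=
    IsScalarTower.of_algebraMap_eq' (Subsingleton.elim _ _)
  show (-1 : ℝ) ^ (Algebra.trace (ZMod 2) L x).val =
    (-1) ^ (Algebra.trace (ZMod 2) K (Algebra.trace K L x)).val
  rw [Algebra.trace_trace]

/-- the Frobenius data -/
def fv [CharP L 2] (hK : Fintype.card K = 2 ^ m) (hL : Fintype.card L = 2 ^ (5 * m)) : Fv K L :=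
  have hL' : Fintype.card L = (2 ^ m) ^ 5 := by rw [hL, ← pow_mul, mul_comm]
  have hr : Module.finrank K L = 5 := by
    apply Nat.pow_right_injective (Fintype.one_lt_card (α := K))
    beta_reduce
    rw [← Module.card_eq_pow_finrank, hK, hL']
  have hσ : ∀ x : L, iterateFrobenius L 2 m x = x ^ 2 ^ m := fun x => iterateFrobenius_def ..
  { σ := iterateFrobenius L 2 m
    pw := fun x => by rw [hσ, hK]
    five := fun x => by
      simp only [hσ, ← pow_mul]
      conv_rhs => rw [← FiniteField.pow_card x, hL']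
      congr 1
      ring
    fixK := fun c => by rw [hσ, ← map_pow, ← hK, FiniteField.pow_card]
    fix := fun x h => mem_range_of_pow (by rwa [hK, ← hσ])
    tr := fun x => by
      rw [FiniteField.algebraMap_trace_eq_sum_pow, hr, Nat.card_eq_fintype_card, hK]
      simp only [hσ, ← pow_mul, sum_range_succ, sum_range_zero]
      ring_nf
    nm := fun x => by
      rw [FiniteField.algebraMap_norm_eq_prod_pow, hr, Nat.card_eq_fintype_card, hK]
      simp only [hσ, ← pow_mul, prod_range_succ, prod_range_zero]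
      ring_nf
    rank := hr }

theorem pow_d (F : Fv K L) (hK : Fintype.card K = 2 ^ m) (x : L) :
    x ^ (2 ^ (4 * m) + 2 ^ (3 * m) + 2 ^ (2 * m) + 2 ^ m - 1) =
      algebraMap K L (Algebra.norm K x) * x⁻¹ ^ 2 := by
  have r1 : 1 ≤ 2 ^ m := Nat.one_le_two_pow
  have r2 : 1 ≤ 2 ^ (2 * m) := Nat.one_le_two_pow
  have r3 : 1 ≤ 2 ^ (3 * m) := Nat.one_le_two_pow
  have r4 : 1 ≤ 2 ^ (4 * m) := Nat.one_le_two_pow
  simp only [F.nm, F.pw, hK, ← pow_mul]
  by_cases hx : x = 0
  · rw [hx, zero_pow (by omega)]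
    simp
  · rw [pow_sub₀ _ hx (by omega), mul_comm 4, mul_comm 3, mul_comm 2, pow_mul 2, pow_mul 2,
      pow_mul 2]
    generalize 2 ^ m = r
    field_simp
    ring

theorem trace_sq [CharP L 2] (F : Fv K L) (y : L) :
    Algebra.trace K L (y ^ 2) = Algebra.trace K L y ^ 2 := by
  apply (algebraMap K L).injective
  simp only [map_pow, F.tr, CharTwo.add_sq]

theorem walsh_eq [CharP L 2] (F : Fv K L) (hK : Fintype.card K = 2 ^ m) (c : K) (a : L) :
    walsh L m a (algebraMap K L c) = (Wb L (chr K) c a : ℝ) := by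
  rw [walsh, Wb, Complex.ofReal_sum]
  refine sum_congr rfl fun x _ => ?_
  rw [mu_eq, can_trace (K := K), pow_d F hK, ← mul_assoc, ← map_mul, map_add, ← Algebra.smul_def,
    map_smul, trace_sq F, smul_eq_mul, add_comm]
  rfl

theorem walsh_sq (F : Fv K L) (hK : Fintype.card K = 2 ^ m) (a s : L) (hs : s ≠ 0) :
    walsh L m a (s ^ 2) = walsh L m (a * s) (algebraMap K L (Algebra.norm K s)) := by
  rw [walsh, walsh, ← Equiv.sum_comp (Equiv.mulLeft₀ s hs)]
  refine sum_congr rfl fun x _ => ?_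
  simp only [Equiv.mulLeft₀_apply, pow_d F hK, map_mul, mul_inv]
  congr 1
  field_simp

theorem e2_eq (F : Fv K L) (a : L) : F.e2 a = sym2 K (Fintype.card K) a := by
  simp only [Fv.e2, sym2, F.pw, ← pow_mul]
  congr 1
  ring

theorem e3_eq (F : Fv K L) (a : L) : F.e3 a = sym3 K (Fintype.card K) a := by
  simp only [Fv.e3, sym3, F.pw, ← pow_mul]
  congr 1
  ring

theorem cube_inj (hK : Fintype.card K = 2 ^ m) (hm : Odd m) (c : K) (hc : c ^ 3 = 1) : c = 1 := by
  have c0 : c ≠ 0 := fun h => by simp [h] at hc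
  have h2 := FiniteField.pow_card c
  obtain ⟨k, rfl⟩ := hm
  rw [hK, pow_eq_pow_mod _ hc, pow_succ, pow_mul, Nat.mul_mod, Nat.pow_mod] at h2
  norm_num at h2
  exact mul_left_cancel₀ c0 (by rw [← pow_two, h2, mul_one])

end Fin5

open Fin5

open Classical in
/-- the complete Walsh transform, its maximum and its zero set -/
theorem fin (h : MAIN) (K L : Type) [Field K] [Fintype K] [Algebra (ZMod 2) K] [Field L]
    [Fintype L] [Algebra (ZMod 2) L] [Algebra K L] (m r : ℕ) (hr : r = 2 ^ m)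
    (hK : Fintype.card K = r) (hL : Fintype.card L = r ^ 5) :
    (∀ (c : K) (a : L) (T : K), c ≠ 0 → T = Algebra.trace K L a →
      walsh L m a (algebraMap K L c) = (r : ℂ) ^ 2 *
        if T = 0 then ∑ z : K, mu K ((z ^ 3 + sym2 K r a * z + sym3 K r a) / c)
        else mu K (sym2 K r a / T ^ 2 + c / T ^ 3) *
          (∑ z ∈ univ.erase (0 : K),
              mu K (z + Algebra.norm K (a + algebraMap K L (c / T ^ 2)) / (c * T ^ 2) / z) -
            if a = algebraMap K L (c / T ^ 2) then (r : ℂ) else 0)) ∧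
    (∀ a s : L, s ≠ 0 →
      walsh L m a (s ^ 2) = walsh L m (a * s) (algebraMap K L (Algebra.norm K s))) ∧
    (∀ a b : L, b ≠ 0 → ‖walsh L m a b‖ ≤ (r : ℝ) ^ 2 * (r + 1)) ∧
    ‖walsh L m 1 1‖ = (r : ℝ) ^ 2 * (r + 1) ∧
    (Odd m → (∀ a : L, walsh L m a 1 = 0 ↔
        Algebra.trace K L a = 0 ∧ Algebra.trace (ZMod 2) K (sym2 K r a) = 0) ∧
      ∃ a : L, a ≠ 0 ∧ walsh L m a 1 = 0) := by
  have : CharP L 2 := charP_of_injective_algebraMap (algebraMap (ZMod 2) L).injective 2
  have : CharP K 2 := charP_of_injective_algebraMap (algebraMap (ZMod 2) K).injective 2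
  have hK' : Fintype.card K = 2 ^ m := hK.trans hr
  have hL' : Fintype.card L = 2 ^ (5 * m) := by rw [hL, hr, ← pow_mul, mul_comm]
  let F : Fv K L := fv hK' hL'
  have w1 : ∀ a : L, walsh L m a 1 = (Wb L (chr K) (1 ^ 3) a : ℝ) := fun a => by
    rw [← walsh_eq F hK', one_pow, map_one]
  subst hK
  refine ⟨fun c a T hc hT => ?_, walsh_sq F hK', fun a b hb => ?_, ?_, fun hm => ⟨fun a => ?_, ?_⟩⟩
  · subst hT
    rw [walsh_eq F hK', h K L F (chr K) c a hc, e2_eq, e3_eq]
    simp only [mu_eq, Klo, U]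
    split_ifs <;> push_cast <;> rfl
  · obtain ⟨s, rfl⟩ := (sq_bij (K := L)).2 b
    have hs : s ≠ 0 := fun h => hb (by simp [h])
    rw [walsh_sq F hK' a s hs, walsh_eq F hK', Complex.norm_real, Real.norm_eq_abs]
    exact cor_bound h F _ _ _ (Algebra.norm_ne_zero_iff.2 hs)
  · rw [w1, Complex.norm_real, Real.norm_eq_abs, ← map_one (algebraMap K L)]
    exact cor_max h F _ 1 one_ne_zero
  · rw [w1, Complex.ofReal_eq_zero, cor_zero_odd h F _ (cube_inj hK' hm) 1 a one_ne_zero, one_pow,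
      div_one, e2_eq]
    exact and_congr_right fun _ => can_eq_one _
  · obtain ⟨a, ha, h0⟩ := dob_zero L hm hL'
    refine ⟨a, ha, ?_⟩
    simp only [walsh, mu_eq, one_mul, ← Complex.ofReal_sum, h0, Complex.ofReal_zero]

end Pool.Agent.MP_e262d6_nt.DW
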