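import Pool.Agent.MP_e262d6_nt.DW.Spec

/-! Project DW: ideal classes of the order `Y ^ 2 + h Y + P = 0` over a polynomial ring. -/

set_option autoImplicit false
set_option linter.unusedSectionVars false

noncomputable section

namespace Pool.Agent.MP_e262d6_nt.DW.Lat

open Polynomial Ideal

section classes

variable {O : Type} [CommRing O] [IsDomain O]

/-- two ideals in the same class -/
def Eqv (I J : Ideal O) : Prop := ∃ α β : O, α ≠ 0 ∧ β ≠ 0 ∧ span {α} * I = span {β} * J

/-- the multipliers of an ideal -/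
def St (I : Ideal O) : Set (O × O) := {x | span {x.1} * I ≤ span {x.2} * I}

theorem Eqv.rfl' (I : Ideal O) : Eqv I I := ⟨1, 1, one_ne_zero, one_ne_zero, rfl⟩

theorem Eqv.symm {I J : Ideal O} (h : Eqv I J) : Eqv J I := by
  obtain ⟨α, β, h1, h2, h3⟩ := h
  exact ⟨β, α, h2, h1, h3.symm⟩

theorem Eqv.trans {I J M : Ideal O} (h : Eqv I J) (k : Eqv J M) : Eqv I M := by
  obtain ⟨α, β, h1, h2, h3⟩ := h
  obtain ⟨γ, δ, k1, k2, k3⟩ := k
  refine ⟨γ * α, β * δ, mul_ne_zero k1 h1, mul_ne_zero h2 k2, ?_⟩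
  rw [← span_singleton_mul_span_singleton, ← span_singleton_mul_span_singleton, mul_assoc, h3,
    mul_left_comm, k3, mul_assoc]

theorem Eqv.mul {I J I' J' : Ideal O} (h : Eqv I J) (k : Eqv I' J') : Eqv (I * I') (J * J') := by
  obtain ⟨α, β, h1, h2, h3⟩ := h
  obtain ⟨γ, δ, k1, k2, k3⟩ := k
  refine ⟨α * γ, β * δ, mul_ne_zero h1 k1, mul_ne_zero h2 k2, ?_⟩
  rw [← span_singleton_mul_span_singleton, ← span_singleton_mul_span_singleton,
    mul_mul_mul_comm, h3, k3, mul_mul_mul_comm]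

theorem Eqv.map {I J : Ideal O} (h : Eqv I J) (τ : O →+* O) (hτ : Function.Injective τ) :
    Eqv (I.map τ) (J.map τ) := by
  obtain ⟨α, β, h1, h2, h3⟩ := h
  refine ⟨τ α, τ β, (map_ne_zero_iff τ hτ).2 h1, (map_ne_zero_iff τ hτ).2 h2, ?_⟩
  have := congrArg (Ideal.map τ) h3
  simpa only [Ideal.map_mul, Ideal.map_span, Set.image_singleton] using this

theorem Eqv.of_span {α : O} (h : α ≠ 0) (I : Ideal O) : Eqv (span {α} * I) I :=
  ⟨1, α, one_ne_zero, h, by simp⟩

theorem St.of_span {α : O} (h : α ≠ 0) (I : Ideal O) : St (span {α} * I) = St I := by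
  ext x
  simp only [St, Set.mem_ofPred_eq]
  rw [mul_left_comm, mul_left_comm (span {x.2}), span_singleton_mul_right_mono h]

theorem Eqv.st {I J : Ideal O} (h : Eqv I J) : St I = St J := by
  obtain ⟨α, β, h1, h2, h3⟩ := h
  rw [← St.of_span h1, h3, St.of_span h2]

theorem St.mul (I J : Ideal O) : St I ⊆ St (I * J) := fun x hx => by
  simp only [St, Set.mem_ofPred_eq] at hx ⊢
  rw [← mul_assoc, ← mul_assoc]
  exact mul_mono_left hx

omit [IsDomain O] in
theorem one_pair (a b c : O) : span {a} * span {b, c} = span {a * b, a * c} := by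
  rw [span_insert, span_insert, Ideal.mul_sup, span_singleton_mul_span_singleton,
    span_singleton_mul_span_singleton]

end classes

variable {L : Type} [Field L] [CharP L 2] {P h : L[X]}

/-- the order -/
abbrev Od (P h : L[X]) := QuadraticAlgebra L[X] P h

/-- the inclusion of the polynomial ring -/
def io (P h : L[X]) : L[X] →+* Od P h := algebraMap _ _

/-- the element `V + Y` -/
def py (P h V : L[X]) : Od P h := ⟨V, 1⟩

/-- the ideal of a pair -/
def Id (P h U V : L[X]) : Ideal (Od P h) := span {io P h U, py P h V}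

theorem two : (2 : L[X]) = 0 := CharTwo.two_eq_zero

@[simp] theorem io_re (f : L[X]) : (io P h f).re = f := rfl

@[simp] theorem io_im (f : L[X]) : (io P h f).im = 0 := rfl

@[simp] theorem py_re (f : L[X]) : (py P h f).re = f := rfl

@[simp] theorem py_im (f : L[X]) : (py P h f).im = 1 := rfl

theorem io_ne {f : L[X]} (hf : f ≠ 0) : io P h f ≠ 0 := fun e => hf (congrArg (·.re) e)

theorem py_ne (f : L[X]) : py P h f ≠ 0 := fun e => one_ne_zero (congrArg (·.im) e)

theorem five_le (hP : P.natDegree = 5) (hh : h.natDegree ≤ 2) (f : L[X]) {g : L[X]}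
    (hg : g ≠ 0) : 5 ≤ (f ^ 2 + h * f * g + P * g ^ 2).natDegree := by
  have P0 : P ≠ 0 := by
    rintro rfl
    simp at hP
  have h1 : (f ^ 2).natDegree = 2 * f.natDegree := natDegree_pow _ _
  have h2 : (P * g ^ 2).natDegree = 5 + 2 * g.natDegree := by
    rw [natDegree_mul P0 (pow_ne_zero _ hg), natDegree_pow, hP]
  have h3 : (h * f * g).natDegree ≤ 2 + f.natDegree + g.natDegree :=
    natDegree_mul_le.trans (add_le_add (natDegree_mul_le.trans (add_le_add hh le_rfl)) le_rfl)
  rcases lt_or_ge (5 + 2 * g.natDegree) (2 * f.natDegree) with k | k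
  · rw [add_assoc, natDegree_add_eq_left_of_natDegree_lt
      ((natDegree_add_le _ _).trans_lt (max_lt (by omega) (by omega)))]
    omega
  · rw [natDegree_add_eq_right_of_natDegree_lt
      ((natDegree_add_le _ _).trans_lt (max_lt (by omega) (by omega)))]
    omega

theorem norm_eq (x : Od P h) :
    QuadraticAlgebra.norm x = x.re ^ 2 + h * x.re * x.im + P * x.im ^ 2 := by
  rw [QuadraticAlgebra.norm_def]
  linear_combination (-P * x.im ^ 2) * two (L := L)

theorem norm_ne (hP : P.natDegree = 5) (hh : h.natDegree ≤ 2) {x : Od P h} (hx : x ≠ 0) :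
    QuadraticAlgebra.norm x ≠ 0 := by
  rw [norm_eq]
  by_cases hi : x.im = 0
  · have : x.re ≠ 0 := fun e => hx (QuadraticAlgebra.ext e hi)
    simpa [hi] using this
  · intro e
    have := five_le hP hh x.re hi
    rw [e] at this
    simp at this

theorem dom (hP : P.natDegree = 5) (hh : h.natDegree ≤ 2) : IsDomain (Od P h) := by
  have : NoZeroDivisors (Od P h) := ⟨fun {x y} e => by
    by_contra hc
    rw [not_or] at hc
    refine mul_ne_zero (norm_ne hP hh hc.1) (norm_ne hP hh hc.2) ?_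
    rw [← map_mul, e, QuadraticAlgebra.norm_zero]⟩
  exact NoZeroDivisors.to_isDomain _

theorem mem_Id {U V : L[X]} (hU : U ∣ nf P h V) {x : Od P h} :
    x ∈ Id P h U V ↔ U ∣ x.re + V * x.im := by
  rw [Id, mem_span_pair]
  constructor
  · rintro ⟨a, b, rfl⟩
    obtain ⟨W, hW⟩ := hU
    refine ⟨a.re + V * a.im + b.im * W, ?_⟩
    simp only [nf, QuadraticAlgebra.re_add, QuadraticAlgebra.im_add, QuadraticAlgebra.re_mul,
      QuadraticAlgebra.im_mul, io_re, io_im, py_re, py_im] at hW ⊢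
    linear_combination b.im * hW + (b.re * V) * two (L := L)
  · rintro ⟨k, hk⟩
    refine ⟨io P h k, io P h x.im, QuadraticAlgebra.ext ?_ ?_⟩
    · simp only [QuadraticAlgebra.re_add, QuadraticAlgebra.re_mul, io_re, io_im, py_re, py_im]
      linear_combination -hk + (V * x.im) * two (L := L)
    · simp

theorem io_mem (U V : L[X]) : io P h U ∈ Id P h U V := subset_span (by simp)

theorem py_mem (U V : L[X]) : py P h V ∈ Id P h U V := subset_span (by simp)

theorem min_deg (hP : P.natDegree = 5) (hh : h.natDegree ≤ 2) {U V : L[X]} (U0 : U ≠ 0)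
    (dU : U.natDegree ≤ 2) (hU : U ∣ nf P h V) {x : Od P h} (hx : x ∈ Id P h U V) (x0 : x ≠ 0) :
    2 * U.natDegree ≤ (QuadraticAlgebra.norm x).natDegree ∧
      ((QuadraticAlgebra.norm x).natDegree ≤ 2 * U.natDegree →
        ∃ c, IsUnit c ∧ x = io P h c * io P h U) := by
  rw [norm_eq]
  by_cases hi : x.im = 0
  · obtain ⟨k, hk⟩ := (mem_Id hU).1 hx
    rw [hi, mul_zero, add_zero] at hk
    have k0 : k ≠ 0 := fun e => x0 (QuadraticAlgebra.ext (by simpa [e] using hk) hi)
    have h1 : (x.re ^ 2 + h * x.re * x.im + P * x.im ^ 2).natDegree =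
        2 * (U.natDegree + k.natDegree) := by
      simp [hi, hk, natDegree_mul U0 k0]
    rw [h1]
    refine ⟨by omega, fun h2 => ⟨k, ?_, QuadraticAlgebra.ext ?_ ?_⟩⟩
    · rw [isUnit_iff_degree_eq_zero, degree_eq_natDegree k0, show k.natDegree = 0 by omega]
      rfl
    · simp [hk, mul_comm]
    · simp [hi]
  · have := five_le hP hh x.re hi
    exact ⟨by omega, fun h2 => by omega⟩

theorem uniq (hP : P.natDegree = 5) (hh : h.natDegree ≤ 2) {U V U' V' : L[X]} (mU : U.Monic)
    (dU : U.natDegree ≤ 2) (hU : U ∣ nf P h V) (mU' : U'.Monic) (dU' : U'.natDegree ≤ 2)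
    (hU' : U' ∣ nf P h V') (e : Eqv (Id P h U V) (Id P h U' V')) : U = U' ∧ U ∣ V + V' := by
  have := dom hP hh
  obtain ⟨α, β, h1, h2, h3⟩ := e
  obtain ⟨x', hx', e1⟩ := mem_span_singleton_mul.1 (h3.le (mul_mem_mul
    (mem_span_singleton_self α) (io_mem U V)))
  obtain ⟨x, hx, e2⟩ := mem_span_singleton_mul.1 (h3.ge (mul_mem_mul
    (mem_span_singleton_self β) (io_mem U' V')))
  have i1 : io P h U ≠ 0 := io_ne mU.ne_zero
  have i2 : io P h U' ≠ 0 := io_ne mU'.ne_zero
  have x0' : x' ≠ 0 := fun e => mul_ne_zero h1 i1 (by rw [← e1, e, mul_zero])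
  have x0 : x ≠ 0 := fun e => mul_ne_zero h2 i2 (by rw [← e2, e, mul_zero])
  have d : ∀ {y z : Od P h}, y ≠ 0 → z ≠ 0 → (QuadraticAlgebra.norm (y * z)).natDegree =
      (QuadraticAlgebra.norm y).natDegree + (QuadraticAlgebra.norm z).natDegree :=
    fun hy hz => by rw [map_mul, natDegree_mul (norm_ne hP hh hy) (norm_ne hP hh hz)]
  have d' : ∀ f, (QuadraticAlgebra.norm (io P h f)).natDegree = 2 * f.natDegree := fun f => by
    simp [norm_eq]
  have d1 := congrArg (fun z => (QuadraticAlgebra.norm z).natDegree) e1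
  have d2 := congrArg (fun z => (QuadraticAlgebra.norm z).natDegree) e2
  simp only [d h2 x0', d h1 i1, d h1 x0, d h2 i2, d'] at d1 d2
  have m1 := (min_deg hP hh mU.ne_zero dU hU hx x0).1
  obtain ⟨c, hc, e3⟩ := (min_deg hP hh mU'.ne_zero dU' hU' hx' x0').2 (by omega)
  have h4 : span {io P h U'} * Id P h U V = span {io P h U} * Id P h U' V' := by
    rw [← span_singleton_mul_right_inj h2, mul_left_comm _ (span {io P h U}), ← h3, ← mul_assoc,
      ← mul_assoc, span_singleton_mul_span_singleton, span_singleton_mul_span_singleton,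
      mul_comm _ α, ← e1, e3, mul_left_comm, span_singleton_mul_left_unit (hc.map _)]
  have h5 : ∀ {A B A' B' : L[X]}, span {io P h A'} * Id P h A B = span {io P h A} * Id P h A' B' →
      A ∣ A' := fun {A B A' B'} e => by
    obtain ⟨z, -, hz⟩ := mem_span_singleton_mul.1 (e.le (mul_mem_mul
      (mem_span_singleton_self _) (py_mem A B)))
    exact ⟨z.im, by simpa using (congrArg (·.im) hz).symm⟩
  obtain rfl : U = U' := eq_of_monic_of_associated mU mU'
    (associated_of_dvd_dvd (h5 h4) (h5 h4.symm))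
  rw [span_singleton_mul_right_inj i1] at h4
  exact ⟨rfl, by simpa using (mem_Id hU').1 (h4.le (py_mem U V))⟩

theorem py_mul (V V' : L[X]) :
    py P h V * py P h V' = io P h (nf P h V') + io P h (V + V' + h) * py P h V' := by
  refine QuadraticAlgebra.ext ?_ ?_
  · simp only [nf, QuadraticAlgebra.re_add, QuadraticAlgebra.re_mul, io_re, io_im, py_re, py_im]
    linear_combination (-V' ^ 2 - h * V') * two (L := L)
  · simp

theorem hnf (hP : P.natDegree = 5) (hh : h.natDegree ≤ 2) {I : Ideal (Od P h)} (hI : I ≠ ⊥) :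
    ∃ U V, U ≠ 0 ∧ U ∣ nf P h V ∧ Eqv I (Id P h U V) := by
  have := dom hP hh
  obtain ⟨A, hA⟩ : ∃ A, ∀ f, io P h f ∈ I ↔ A ∣ f :=
    ⟨_, fun f => Submodule.IsPrincipal.mem_iff_generator_dvd (I.comap (io P h)) (x := f)⟩
  obtain ⟨c, hc⟩ : ∃ c, ∀ f, (∃ x ∈ I, x.im = f) ↔ c ∣ f :=
    ⟨_, fun f => Submodule.IsPrincipal.mem_iff_generator_dvd
      ((I.restrictScalars L[X]).map (QuadraticAlgebra.imₗ P h)) (x := f)⟩
  obtain ⟨x, hx, x0⟩ := (Submodule.ne_bot_iff I).1 hI
  have A0 : A ≠ 0 := by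
    rintro rfl
    refine norm_ne hP hh x0 (zero_dvd_iff.1 ((hA _).1 ?_))
    rw [io, QuadraticAlgebra.algebraMap_norm_eq_mul_star]
    exact I.mul_mem_right _ hx
  obtain ⟨y, hy, e1⟩ := (hc c).2 dvd_rfl
  obtain ⟨U, rfl⟩ := (hc A).1 ⟨_, I.mul_mem_right (py P h 0) ((hA A).2 dvd_rfl), by simp⟩
  obtain ⟨V, hV⟩ := (hc y.re).1 ⟨_, I.mul_mem_right (py P h h) hy, by
    simp only [QuadraticAlgebra.im_mul, py_re, py_im]
    linear_combination (y.im * h) * two (L := L)⟩
  have c0 : c ≠ 0 := left_ne_zero_of_mul A0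
  have e2 : y = io P h c * py P h V := QuadraticAlgebra.ext (by simp [hV]) (by simp [e1])
  have hU : U ∣ nf P h V := by
    rw [← mul_dvd_mul_iff_left c0, ← hA]
    convert I.mul_mem_left (py P h (V + h)) hy using 1
    rw [e2, mul_left_comm, py_mul, map_mul, show V + h + V + h = 0 by
      linear_combination (V + h) * two (L := L), map_zero, zero_mul, add_zero]
  refine ⟨U, V, right_ne_zero_of_mul A0, hU, ?_⟩
  convert Eqv.of_span (io_ne c0) (Id P h U V)
  rw [Id, one_pair, ← e2, ← map_mul]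
  refine le_antisymm (fun z hz => ?_) (span_le.2 (Set.pair_subset ((hA _).2 dvd_rfl) hy))
  obtain ⟨k, hk⟩ := (hc z.im).1 ⟨z, hz, rfl⟩
  have e3 : io P h (z.re - k * y.re) = z - io P h k * y :=
    QuadraticAlgebra.ext (by simp) (by simp [hk, e1, mul_comm])
  obtain ⟨l, hl⟩ := (hA _).1 (e3 ▸ I.sub_mem hz (I.mul_mem_left _ hy))
  refine mem_span_pair.2 ⟨io P h l, io P h k, ?_⟩
  rw [← map_mul, mul_comm l, ← hl, e3, sub_add_cancel]

theorem nf_add (V : L[X]) : nf P h (V + h) = nf P h V := by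
  simp only [nf]
  linear_combination (h * V + h ^ 2) * two (L := L)

theorem reduce (hP : P.natDegree = 5) (hh : h.natDegree ≤ 2) (n : ℕ) : ∀ U V : L[X], U ≠ 0 →
    U ∣ nf P h V → U.natDegree = n → ∃ U' V', Red P h U' V' ∧ Eqv (Id P h U V) (Id P h U' V') := by
  have := dom hP hh
  induction n using Nat.strong_induction_on with
  | _ n ih =>
  intro U V U0 hU hn
  have m1 := monic_mul_leadingCoeff_inv U0
  have d1 := natDegree_mul_leadingCoeff_inv U U0
  have a1 : ∀ f, U * C U.leadingCoeff⁻¹ ∣ f ↔ U ∣ f := fun f =>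
    (isUnit_C.2 (Ne.isUnit (inv_ne_zero (leadingCoeff_ne_zero.2 U0)))).mul_right_dvd
  generalize U * C U.leadingCoeff⁻¹ = U1 at m1 d1 a1
  have d2 := degree_modByMonic_lt V m1
  have e1 := modByMonic_add_div V U1
  generalize V %ₘ U1 = V1 at d2 e1
  generalize V /ₘ U1 = k at e1
  have hU1 : U1 ∣ nf P h V1 := by
    obtain ⟨W, hW⟩ := (a1 _).2 hU
    refine ⟨W - (2 * V1 * k + U1 * k ^ 2 + h * k), ?_⟩
    rw [← e1] at hW
    simp only [nf] at hW ⊢
    linear_combination hW
  have e2 : Id P h U V = Id P h U1 V1 := by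
    ext x
    rw [mem_Id hU, mem_Id hU1, ← a1, ← e1, add_mul, ← add_assoc, mul_assoc]
    exact dvd_add_left (dvd_mul_right _ _)
  rw [e2]
  by_cases h2 : U1.natDegree ≤ 2
  · exact ⟨U1, V1, ⟨m1, h2, d2, hU1⟩, Eqv.rfl' _⟩
  obtain ⟨W, hW⟩ := hU1
  have n0 : 5 ≤ (nf P h V1).natDegree := by simpa [nf] using five_le hP hh V1 one_ne_zero
  have W0 : W ≠ 0 := fun e => by simp [hW, e] at n0
  have d3 : V1.natDegree < U1.natDegree := by
    by_cases v0 : V1 = 0
    · rw [v0, natDegree_zero]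
      omega
    · exact natDegree_lt_natDegree v0 d2
  have d4 : (nf P h V1).natDegree ≤ 2 * U1.natDegree - 1 := by
    have k1 : (V1 ^ 2).natDegree = 2 * V1.natDegree := natDegree_pow _ _
    have k2 : (h * V1).natDegree ≤ h.natDegree + V1.natDegree := natDegree_mul_le
    exact (natDegree_add_le _ _).trans (max_le ((natDegree_add_le _ _).trans
      (max_le (by omega) (by omega))) (by omega))
  rw [hW, natDegree_mul m1.ne_zero W0] at d4
  obtain ⟨U', V', r1, r2⟩ := ih W.natDegree (by omega) W (V1 + h) W0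
    (by rw [nf_add, hW]; exact dvd_mul_left _ _) rfl
  refine ⟨U', V', r1, Eqv.trans ⟨py P h (V1 + h), io P h U1, py_ne _, io_ne m1.ne_zero, ?_⟩ r2⟩
  rw [Id, Id, one_pair, one_pair, py_mul, hW, map_mul, show V1 + h + V1 + h = 0 by
    linear_combination (V1 + h) * two (L := L), map_zero, zero_mul, add_zero, Set.pair_comm,
    mul_comm (py P h _)]

theorem exists_red (hP : P.natDegree = 5) (hh : h.natDegree ≤ 2) {I : Ideal (Od P h)}
    (hI : I ≠ ⊥) : ∃ U V, Red P h U V ∧ Eqv I (Id P h U V) := by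
  have := dom hP hh
  obtain ⟨U, V, h1, h2, h3⟩ := hnf hP hh hI
  obtain ⟨U', V', h4, h5⟩ := reduce hP hh _ U V h1 h2 rfl
  exact ⟨U', V', h4, h3.trans h5⟩

end Pool.Agent.MP_e262d6_nt.DW.Lat
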