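import Pool.Agent.MP_e262d6_nt.DW.Spec

/-! Project DW: lifting in degree five. -/

set_option autoImplicit false
set_option linter.unusedSectionVars false

noncomputable section

namespace Pool.Agent.MP_e262d6_nt.DW

open Finset Polynomial Pool.Agent.MP_e262d6_nt.H61

namespace Lift

variable {K : Type} [Field K] [Fintype K] [DecidableEq K] [CharP K 2] (C : Chr K) (κ : K)

/-- the indicator of `κ g = β` -/
def ind (β g : K) : ℝ := if κ * g = β then 1 else 0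

/-- the iterated operator, summed over `β` -/
def S (n : ℕ) (g d : K) : ℝ := ∑ β ∈ U K, C.ψ (β * d) * (C.Op β)^[n] (ind κ β) g

variable {κ}

theorem col (hκ : κ ≠ 0) {g : K} (hg : g ≠ 0) (f : K → ℝ) :
    ∑ β ∈ U K, f β * ind κ β g = f (κ * g) := by
  simp only [ind, mul_ite, mul_one, mul_zero]
  rw [sum_ite_eq, if_pos (mem_U.2 (mul_ne_zero hκ hg))]

theorem S_zero (hκ : κ ≠ 0) {g : K} (hg : g ≠ 0) (d : K) : S C κ 0 g d = C.ψ (κ * g * d) :=
  col hκ hg fun β => C.ψ (β * d)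

theorem S_succ (n : ℕ) (g d : K) :
    S C κ (n + 1) g d = ∑ u ∈ U K, S C κ n (u * g) (d + D u) := by
  simp only [S, Function.iterate_succ_apply']
  rw [sum_comm]
  refine sum_congr rfl fun β _ => ?_
  rw [Chr.Op, ← sum_ite_U, mul_sum]
  refine sum_congr rfl fun u _ => ?_
  rw [Chr.E]
  split_ifs
  · simp
  · rw [mul_add, C.add, mul_assoc]

theorem S_one (hκ : κ ≠ 0) : S C κ 1 1 0 = -C.ψ κ := by
  have h1 : ∑ u : K, C.ψ (u ^ 2 * κ) = 0 := by
    rw [sq_bij.sum_comp fun u => C.ψ (u * κ), C.sum_mul, if_neg hκ]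
  have h2 : ∀ u ∈ U K, S C κ 0 (u * 1) (0 + D u) = C.ψ (u ^ 2 * κ) * C.ψ κ := fun u hu => by
    have := mem_U.1 hu
    rw [S_zero C hκ (by simpa), ← C.add, D]
    congr 1
    field_simp
    ring
  rw [S_succ, sum_congr rfl h2, ← Finset.sum_mul, sum_U, h1]
  simp

theorem S_three (hκ : κ ≠ 0) : S C κ 3 1 0 = T3 C κ := by
  simp only [S_succ, T3]
  refine sum_congr rfl fun a ha => sum_congr rfl fun b hb => sum_congr rfl fun c hc => ?_
  rw [S_zero C hκ (by simp [mem_U.1 ha, mem_U.1 hb, mem_U.1 hc])]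
  congr 1
  ring

theorem S_five (hκ : κ ≠ 0) : S C κ 5 1 0 = T5 C κ := by
  simp only [S_succ, T5]
  refine sum_congr rfl fun a ha => sum_congr rfl fun b hb => sum_congr rfl fun c hc =>
    sum_congr rfl fun d hd => sum_congr rfl fun e he => ?_
  rw [S_zero C hκ (by simp [mem_U.1 ha, mem_U.1 hb, mem_U.1 hc, mem_U.1 hd, mem_U.1 he])]
  congr 1
  ring

theorem one {L : Type} [Field L] [Fintype L] [DecidableEq L] [Algebra K L] {β : K} (hβ : β ≠ 0)
    (hL : Module.finrank K L = 5) (φ : K → ℝ) :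
    ∑ x ∈ univ.erase (0 : L), C.ψ (β * Algebra.trace K L (x + x⁻¹)) * φ (Algebra.norm K x) =
      (C.Op β)^[5] φ 1 - 5 * Fintype.card K * (C.Op β)^[3] φ 1 +
        5 * (Fintype.card K : ℝ) ^ 2 * (C.Op β)^[1] φ 1 := by
  have h1 := congrArg (Chr.La φ) (five (C.ll β) (C.ll_mul β) (C.ll_one β) (C.cc_big hβ le_rfl)
    (C.cc_big hβ (by norm_num)) (C.cc_big hβ (by norm_num)) hL)
  have h2 : ∀ (c : ℕ) (x : MonoidAlgebra ℝ K), Chr.La φ (c * x) = c * Chr.La φ x :=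
    fun c x => by rw [← nsmul_eq_mul, map_nsmul, nsmul_eq_mul]
  rw [C.cc_two hβ, show ∀ x r : MonoidAlgebra ℝ K, x ^ 5 - 5 * x ^ 3 * r + 5 * x * r ^ 2 =
    x ^ 5 - 5 * r * x ^ 3 + 5 * r ^ 2 * x ^ 1 from fun x r => by ring, map_add, map_sub,
    map_sum] at h1
  have h7 := h2 (5 * Fintype.card K)
  have h8 := h2 (5 * Fintype.card K ^ 2)
  push_cast at h7 h8
  rw [h7, h8, Chr.La_pow, Chr.La_pow, Chr.La_pow] at h1
  rw [← h1, ← add_sum_erase _ _ (mem_univ (0 : L)), Chr.ll_chp, if_pos rfl, Chr.La_single, zero_mul,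
    zero_add]
  refine sum_congr rfl fun x hx => ?_
  rw [Chr.ll_chp, if_neg (mem_erase.1 hx).1, Chr.La_single]

end Lift

theorem lift5 : LIFT := by
  intro K L _ _ _ _ _ _ _ _ _ F C κ hκ
  have h1 := sum_congr rfl fun β (hβ : β ∈ U K) =>
    Lift.one C (L := L) (mem_U.1 hβ) F.rank (Lift.ind κ β)
  have h2 : ∀ n, ∑ β ∈ U K, (C.Op β)^[n] (Lift.ind κ β) 1 = Lift.S C κ n 1 0 := fun n => by
    simp only [Lift.S, mul_zero, C.zero, one_mul]
  rw [sum_add_distrib, sum_sub_distrib, ← mul_sum, ← mul_sum, h2, h2, h2, Lift.S_one C hκ,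
    Lift.S_three C hκ, Lift.S_five C hκ, sum_comm, mul_neg, ← sub_eq_add_neg] at h1
  rw [← h1, Sp]
  refine sum_congr rfl fun x hx => ?_
  rw [Lift.col hκ (Algebra.norm_ne_zero_iff.2 (mem_U.1 hx))
    fun β => C.ψ (β * Algebra.trace K L (x + x⁻¹)), one_div]

end Pool.Agent.MP_e262d6_nt.DW
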