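import Pool.Agent.MP_e262d6_nt.DW.Spec

/-! Project DW: the congruence has one solution. -/

set_option autoImplicit false

namespace Pool.Agent.MP_e262d6_nt.DW

open Finset Polynomial Pool.Agent.MP_e262d6_nt.H61

namespace Uq

variable {K : Type} [Field K]

theorem c0 (a b c : K) : (q2 a b c).coeff 0 = a := by simp [q2]
theorem c1 (a b c : K) : (q2 a b c).coeff 1 = b := by simp [q2, coeff_C, coeff_X_pow]
theorem c2 (a b c : K) : (q2 a b c).coeff 2 = c := by simp [q2, coeff_X_pow]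

theorem dg (a b c : K) : (q2 a b c).degree < 3 := by
  unfold q2
  compute_degree!

theorem mon (a b : K) : (X * q2 a b 1).Monic ∧ (X * q2 a b 1).degree = 3 := by
  unfold q2
  rw [C_1, one_mul]
  exact ⟨by monicity!, by compute_degree!⟩

theorem eq2 {V : K[X]} (h : V.degree < 3) : V = q2 (V.coeff 0) (V.coeff 1) (V.coeff 2) := by
  ext n
  rcases n with _ | _ | _ | n
  · rw [c0]
  · rw [c1]
  · rw [c2]
  · rw [coeff_eq_zero_of_degree_lt (h.trans_le (by exact_mod_cast by omega)),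
      coeff_eq_zero_of_degree_lt ((dg _ _ _).trans_le (by exact_mod_cast by omega))]

end Uq

open Uq in
theorem uq : UQ := by
  intro K _ _ _ _ P hm hd hi w1 w2 U0 U1
  obtain ⟨m1, m2⟩ := mon U0 U1
  have cp : IsCoprime P (X * q2 U0 U1 1) := hi.coprime_iff_not_dvd.2 fun h => by
    have := natDegree_le_of_dvd h m1.ne_zero
    rw [hd, natDegree_eq_of_degree_eq_some (n := 3) m2] at this
    omega
  have p0 : P.coeff 0 ≠ 0 := fun h =>
    not_isUnit_X (cp.of_mul_right_left.isUnit_of_dvd' (X_dvd_iff.2 h) dvd_rfl)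
  split_ifs with hc
  · have hx : IsCoprime (q2 (P.coeff 0) w1 w2) X :=
      (irreducible_X.coprime_iff_not_dvd.2 fun h => p0 (by rwa [X_dvd_iff, c0] at h)).symm
    have hc' := hx.mul_right hc
    obtain ⟨A, B, hAB⟩ := id hc'
    obtain ⟨V, hV⟩ : ∃ V, V = -(A * P) %ₘ (X * q2 U0 U1 1) := ⟨_, rfl⟩
    have d1 : X * q2 U0 U1 1 ∣ V * q2 (P.coeff 0) w1 w2 + P :=
      ⟨B * P - -(A * P) /ₘ (X * q2 U0 U1 1) * q2 (P.coeff 0) w1 w2, by
        linear_combination q2 (P.coeff 0) w1 w2 * (hV + modByMonic_add_div (-(A * P))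
          (X * q2 U0 U1 1)) - P * hAB⟩
    have d2 : V.degree < 3 := hV ▸ m2 ▸ degree_modByMonic_lt _ m1
    have key : ∀ v1 v2, X * q2 U0 U1 1 ∣ q2 1 v1 v2 * q2 (P.coeff 0) w1 w2 + P ↔
        v2 = V.coeff 2 ∧ v1 = V.coeff 1 := fun v1 v2 => by
      refine ⟨fun h => ?_, fun ⟨h2, h1⟩ => ?_⟩
      · have h1 := dvd_sub h d1
        rw [add_sub_add_right_eq_sub, ← sub_mul] at h1
        have h2 := eq_zero_of_dvd_of_degree_lt (hc'.symm.dvd_of_dvd_mul_right h1)
          (m2 ▸ (degree_sub_le _ _).trans_lt (max_lt (dg _ _ _) d2))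
        rw [← sub_eq_zero.1 h2, c1, c2]
        exact ⟨rfl, rfl⟩
      · have h0 := X_dvd_iff.1 ((dvd_mul_right _ _).trans d1)
        rw [coeff_add, mul_coeff_zero, c0, CharTwo.add_eq_zero, mul_eq_right₀ p0] at h0
        rwa [eq2 d2, h0, ← h1, ← h2] at d1
    simp [key, ite_and]
  · refine sum_eq_zero fun v1 _ => sum_eq_zero fun v2 _ => if_neg fun ⟨c, h⟩ => hc ?_
    obtain ⟨a, b, e⟩ := cp.of_mul_right_right
    exact ⟨-a * q2 1 v1 v2, a * X * c + b, by linear_combination e - a * h⟩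

end Pool.Agent.MP_e262d6_nt.DW
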